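import Mathlib

/-!
Multilinear functions, dual families and contractions.
-/

open Module

set_option linter.unusedVariables false

namespace Pool.Agent.Helper8

section lin

variable {V : Type*} [AddCommGroup V] [Module ℂ V] {g : V → ℂ}

lemma lin_sum (h : IsLinearMap ℂ g) {ι : Type*} (s : Finset ι) (c : ι → ℂ) (v : ι → V) :
    g (∑ i ∈ s, c i • v i) = ∑ i ∈ s, c i * g (v i) := by
  have h1 := map_sum (IsLinearMap.mk' g h) (fun i => c i • v i) s
  simp only [IsLinearMap.mk'_apply] at h1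
  rw [h1]
  exact Finset.sum_congr rfl fun i _ => h.map_smul _ _

lemma lin_ext {d : ℕ} (b : Basis (Fin d) ℂ V) (h : IsLinearMap ℂ g) (hb : ∀ i, g (b i) = 0)
    (v : V) : g v = 0 := by
  rw [← b.sum_repr v, lin_sum h]
  exact Finset.sum_eq_zero fun i _ => by rw [hb, mul_zero]

end lin

/-- bilinear functions -/
structure ML2 {V W : Type*} [AddCommGroup V] [Module ℂ V] [AddCommGroup W] [Module ℂ W]
    (g : V → W → ℂ) : Prop where
  l1 : ∀ y, IsLinearMap ℂ (fun x => g x y)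
  l2 : ∀ x, IsLinearMap ℂ (fun y => g x y)

/-- functions linear in each of four variables -/
structure ML4 {V1 V2 V3 V4 : Type*} [AddCommGroup V1] [Module ℂ V1] [AddCommGroup V2]
    [Module ℂ V2] [AddCommGroup V3] [Module ℂ V3] [AddCommGroup V4] [Module ℂ V4]
    (G : V1 → V2 → V3 → V4 → ℂ) : Prop where
  l1 : ∀ y z w, IsLinearMap ℂ (fun x => G x y z w)
  l2 : ∀ x z w, IsLinearMap ℂ (fun y => G x y z w)
  l3 : ∀ x y w, IsLinearMap ℂ (fun z => G x y z w)
  l4 : ∀ x y z, IsLinearMap ℂ (fun w => G x y z w)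

lemma isLin_add {V : Type*} [AddCommGroup V] [Module ℂ V] {f g : V → ℂ} (hf : IsLinearMap ℂ f)
    (hg : IsLinearMap ℂ g) : IsLinearMap ℂ (fun x => f x + g x) :=
  ⟨fun x y => by simp only [hf.map_add, hg.map_add]; ring,
    fun c x => by simp only [hf.map_smul, hg.map_smul, smul_eq_mul]; ring⟩

lemma isLin_sub {V : Type*} [AddCommGroup V] [Module ℂ V] {f g : V → ℂ} (hf : IsLinearMap ℂ f)
    (hg : IsLinearMap ℂ g) : IsLinearMap ℂ (fun x => f x - g x) :=
  ⟨fun x y => by simp only [hf.map_add, hg.map_add]; ring,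
    fun c x => by simp only [hf.map_smul, hg.map_smul, smul_eq_mul]; ring⟩

lemma isLin_const_mul {V : Type*} [AddCommGroup V] [Module ℂ V] {f : V → ℂ} (c : ℂ)
    (hf : IsLinearMap ℂ f) : IsLinearMap ℂ (fun x => c * f x) :=
  ⟨fun x y => by simp only [hf.map_add]; ring,
    fun a x => by simp only [hf.map_smul, smul_eq_mul]; ring⟩

lemma isLin_mul_const {V : Type*} [AddCommGroup V] [Module ℂ V] {f : V → ℂ} (c : ℂ)
    (hf : IsLinearMap ℂ f) : IsLinearMap ℂ (fun x => f x * c) :=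
  ⟨fun x y => by simp only [hf.map_add]; ring,
    fun a x => by simp only [hf.map_smul, smul_eq_mul]; ring⟩

lemma isLin_sum {V : Type*} [AddCommGroup V] [Module ℂ V] {ι : Type*} (s : Finset ι)
    {f : ι → V → ℂ} (hf : ∀ i, IsLinearMap ℂ (f i)) : IsLinearMap ℂ (fun x => ∑ i ∈ s, f i x) :=
  ⟨fun x y => by simp only [(hf _).map_add, Finset.sum_add_distrib],
    fun a x => by simp only [(hf _).map_smul, smul_eq_mul, Finset.mul_sum]⟩

section ops

variable {V1 V2 V3 V4 : Type*} [AddCommGroup V1] [Module ℂ V1] [AddCommGroup V2]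
    [Module ℂ V2] [AddCommGroup V3] [Module ℂ V3] [AddCommGroup V4] [Module ℂ V4]

lemma ML4.sub {F G : V1 → V2 → V3 → V4 → ℂ} (hF : ML4 F) (hG : ML4 G) :
    ML4 (fun x y z w => F x y z w - G x y z w) :=
  ⟨fun y z w => isLin_sub (hF.l1 y z w) (hG.l1 y z w),
    fun x z w => isLin_sub (hF.l2 x z w) (hG.l2 x z w),
    fun x y w => isLin_sub (hF.l3 x y w) (hG.l3 x y w),
    fun x y z => isLin_sub (hF.l4 x y z) (hG.l4 x y z)⟩

lemma ML4.add {F G : V1 → V2 → V3 → V4 → ℂ} (hF : ML4 F) (hG : ML4 G) :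
    ML4 (fun x y z w => F x y z w + G x y z w) :=
  ⟨fun y z w => isLin_add (hF.l1 y z w) (hG.l1 y z w),
    fun x z w => isLin_add (hF.l2 x z w) (hG.l2 x z w),
    fun x y w => isLin_add (hF.l3 x y w) (hG.l3 x y w),
    fun x y z => isLin_add (hF.l4 x y z) (hG.l4 x y z)⟩

lemma ML4.const_mul {G : V1 → V2 → V3 → V4 → ℂ} (c : ℂ) (hG : ML4 G) :
    ML4 (fun x y z w => c * G x y z w) :=
  ⟨fun y z w => isLin_const_mul c (hG.l1 y z w),
    fun x z w => isLin_const_mul c (hG.l2 x z w),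
    fun x y w => isLin_const_mul c (hG.l3 x y w),
    fun x y z => isLin_const_mul c (hG.l4 x y z)⟩

/-- products of two bilinear functions, three arrangements -/
lemma ML4.prod1 {f : V1 → V2 → ℂ} {g : V3 → V4 → ℂ} (hf : ML2 f) (hg : ML2 g) :
    ML4 (fun x y z w => f x y * g z w) :=
  ⟨fun y z w => isLin_mul_const _ (hf.l1 y), fun x z w => isLin_mul_const _ (hf.l2 x),
    fun x y w => isLin_const_mul _ (hg.l1 w), fun x y z => isLin_const_mul _ (hg.l2 z)⟩

lemma ML4.prod2 {f : V1 → V3 → ℂ} {g : V2 → V4 → ℂ} (hf : ML2 f) (hg : ML2 g) :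
    ML4 (fun x y z w => f x z * g y w) :=
  ⟨fun y z w => isLin_mul_const _ (hf.l1 z), fun x z w => isLin_const_mul _ (hg.l1 w),
    fun x y w => isLin_mul_const _ (hf.l2 x), fun x y z => isLin_const_mul _ (hg.l2 y)⟩

lemma ML4.prod3 {f : V1 → V4 → ℂ} {g : V2 → V3 → ℂ} (hf : ML2 f) (hg : ML2 g) :
    ML4 (fun x y z w => f x w * g y z) :=
  ⟨fun y z w => isLin_mul_const _ (hf.l1 w), fun x z w => isLin_const_mul _ (hg.l1 z),
    fun x y w => isLin_const_mul _ (hg.l2 y), fun x y z => isLin_mul_const _ (hf.l2 x)⟩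

lemma ML2.of (β : V1 →ₗ[ℂ] V2 →ₗ[ℂ] ℂ) : ML2 (fun x y => β x y) :=
  ⟨fun y => ⟨fun a b => by simp, fun c a => by simp⟩, fun x => (β x).isLinear⟩

/-- extension by multilinearity -/
lemma ML4.ext {G : V1 → V2 → V3 → V4 → ℂ} (hG : ML4 G) {d1 d2 d3 d4 : ℕ}
    (b1 : Basis (Fin d1) ℂ V1) (b2 : Basis (Fin d2) ℂ V2) (b3 : Basis (Fin d3) ℂ V3)
    (b4 : Basis (Fin d4) ℂ V4) (h : ∀ i j k l, G (b1 i) (b2 j) (b3 k) (b4 l) = 0)
    (x : V1) (y : V2) (z : V3) (w : V4) : G x y z w = 0 :=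
  lin_ext b1 (hG.l1 y z w) (fun i => lin_ext b2 (hG.l2 _ z w) (fun j =>
    lin_ext b3 (hG.l3 _ _ w) (fun k => lin_ext b4 (hG.l4 _ _ _) (fun l => h i j k l) w) z) y) x

end ops

/-- dual families for a bilinear form -/
structure Dual {V W : Type*} [AddCommGroup V] [Module ℂ V] [AddCommGroup W] [Module ℂ W]
    (β : V →ₗ[ℂ] W →ₗ[ℂ] ℂ) {d : ℕ} (b : Fin d → V) (c : Fin d → W) : Prop where
  d1 : ∀ v, v = ∑ i, β v (c i) • b i
  d2 : ∀ w, w = ∑ i, β (b i) w • c i
  d3 : ∀ i j, β (b i) (c j) = if i = j then 1 else 0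

section dual

variable {V W : Type*} [AddCommGroup V] [Module ℂ V] [AddCommGroup W] [Module ℂ W]
    {β : V →ₗ[ℂ] W →ₗ[ℂ] ℂ} {d : ℕ}

lemma dual_of_basis (b : Basis (Fin d) ℂ V) (c : Basis (Fin d) ℂ W)
    (h : ∀ i j, β (b i) (c j) = if i = j then 1 else 0) : Dual β b c where
  d1 v := by
    conv_lhs => rw [← b.sum_repr v]
    refine Finset.sum_congr rfl fun i _ => ?_
    congr 1
    conv_rhs => rw [← b.sum_repr v]
    rw [map_sum, LinearMap.sum_apply, Finset.sum_eq_single i]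
    · rw [map_smul, LinearMap.smul_apply, h, if_pos rfl, smul_eq_mul, mul_one]
    · intro j _ hj
      rw [map_smul, LinearMap.smul_apply, h, if_neg hj, smul_zero]
    · intro h; exact absurd (Finset.mem_univ _) h
  d2 w := by
    conv_lhs => rw [← c.sum_repr w]
    refine Finset.sum_congr rfl fun i _ => ?_
    congr 1
    conv_rhs => rw [← c.sum_repr w]
    rw [map_sum, Finset.sum_eq_single i]
    · rw [map_smul, h, if_pos rfl, smul_eq_mul, mul_one]
    · intro j _ hj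
      rw [map_smul, h, if_neg (Ne.symm hj), smul_zero]
    · intro h; exact absurd (Finset.mem_univ _) h
  d3 := h

variable {b : Fin d → V} {c : Fin d → W} (D : Dual β b c)

include D

lemma Dual.sum1 {φ : V → ℂ} (hφ : IsLinearMap ℂ φ) (v : V) :
    ∑ i, β v (c i) * φ (b i) = φ v := by
  conv_rhs => rw [D.d1 v]
  rw [lin_sum hφ]

lemma Dual.sum2 {φ : W → ℂ} (hφ : IsLinearMap ℂ φ) (w : W) :
    ∑ i, β (b i) w * φ (c i) = φ w := by
  conv_rhs => rw [D.d2 w]
  rw [lin_sum hφ]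

lemma Dual.trace : ∑ i, β (b i) (c i) = d := by
  simp [D.d3]

/-- invariance of the contraction -/
lemma Dual.inv {g : V → W → ℂ} (hg : ML2 g) (T : V → V) (T' : W → W)
    (hT : ∀ x y, β (T x) y = - β x (T' y)) :
    ∑ i, (g (T (b i)) (c i) + g (b i) (T' (c i))) = 0 := by
  have h1 : ∀ i, g (T (b i)) (c i) = ∑ j, β (T (b i)) (c j) * g (b j) (c i) := by
    intro i
    exact (D.sum1 (hg.l1 (c i)) (T (b i))).symm
  have h2 : ∀ i, g (b i) (T' (c i)) = ∑ j, β (b j) (T' (c i)) * g (b i) (c j) := by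
    intro i
    exact (D.sum2 (hg.l2 (b i)) (T' (c i))).symm
  rw [Finset.sum_add_distrib, Finset.sum_congr rfl fun i _ => h1 i,
    Finset.sum_congr rfl fun i _ => h2 i, Finset.sum_comm (f := fun i j => _ * g (b i) (c j)),
    ← Finset.sum_add_distrib]
  refine Finset.sum_eq_zero fun i _ => ?_
  rw [← Finset.sum_add_distrib]
  refine Finset.sum_eq_zero fun j _ => ?_
  rw [hT]; ring

end dual

end Pool.Agent.Helper8
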