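import Mathlib

/-!
Symplectic representations of `sl_2` with odd weights: splitting off an irreducible block.
-/

open Module

namespace Pool.Agent.Helper8

/-- a symplectic representation of `sl_2` -/
structure SpSl2Core (V : Type*) [AddCommGroup V] [Module ℂ V] where
  e : Module.End ℂ V
  f : Module.End ℂ V
  h : Module.End ℂ V
  ω : V →ₗ[ℂ] V →ₗ[ℂ] ℂ
  ef : ∀ v, e (f v) - f (e v) = h v
  he : ∀ v, h (e v) - e (h v) = (2 : ℂ) • e v
  hf : ∀ v, h (f v) - f (h v) = (-2 : ℂ) • f v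
  we : ∀ x y, ω (e x) y = - ω x (e y)
  wf : ∀ x y, ω (f x) y = - ω x (f y)
  wh : ∀ x y, ω (h x) y = - ω x (h y)
  alt : ∀ x y, ω x y = - ω y x
  nd : ∀ x, (∀ y, ω x y = 0) → x = 0
  diag : ⨆ μ : ℂ, h.eigenspace μ = ⊤

/-- a symplectic representation of `sl_2` with odd weights -/
structure SpSl2 (V : Type*) [AddCommGroup V] [Module ℂ V] extends SpSl2Core V where
  odd : ∀ (μ : ℂ) (v : V), v ≠ 0 → h v = μ • v → ∃ k : ℤ, μ = 2 * k + 1

namespace SpSl2Core

variable {V : Type*} [AddCommGroup V] [Module ℂ V] (S : SpSl2Core V)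

lemma h_e (μ : ℂ) (v : V) (hv : S.h v = μ • v) : S.h (S.e v) = (μ + 2) • S.e v := by
  have h1 := S.he v
  rw [hv, map_smul, sub_eq_iff_eq_add] at h1
  rw [h1, ← add_smul, add_comm]

lemma h_f (μ : ℂ) (v : V) (hv : S.h v = μ • v) : S.h (S.f v) = (μ - 2) • S.f v := by
  have h1 := S.hf v
  rw [hv, map_smul, sub_eq_iff_eq_add] at h1
  rw [h1, ← add_smul]
  congr 1; ring

lemma h_pow_f (μ : ℂ) (v : V) (hv : S.h v = μ • v) (j : ℕ) :
    S.h ((S.f ^ j) v) = (μ - 2 * j) • (S.f ^ j) v := by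
  induction j with
  | zero => simp [hv]
  | succ n ih =>
    rw [pow_succ', Module.End.mul_apply, S.h_f _ _ ih]
    congr 1; push_cast; ring

lemma e_pow_f (μ : ℂ) (v : V) (he : S.e v = 0) (hv : S.h v = μ • v) (j : ℕ) :
    S.e ((S.f ^ (j + 1)) v) = ((j + 1) * (μ - j)) • (S.f ^ j) v := by
  induction j with
  | zero =>
    have h1 := S.ef v
    rw [he, map_zero, sub_zero] at h1
    simp [h1, hv]
  | succ n ih =>
    rw [pow_succ' S.f (n + 1), Module.End.mul_apply]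
    have h1 := S.ef ((S.f ^ (n + 1)) v)
    rw [sub_eq_iff_eq_add] at h1
    rw [h1, S.h_pow_f μ v hv, ih, map_smul, ← Module.End.mul_apply, ← pow_succ', ← add_smul]
    congr 1; push_cast; ring

lemma om_weight (μ ν : ℂ) (x y : V) (hx : S.h x = μ • x) (hy : S.h y = ν • y)
    (h : μ + ν ≠ 0) : S.ω x y = 0 := by
  have h1 := S.wh x y
  rw [hx, hy, map_smul, map_smul, LinearMap.smul_apply, smul_eq_mul, smul_eq_mul] at h1
  have h2 : (μ + ν) * S.ω x y = 0 := by linear_combination h1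
  exact (mul_eq_zero.mp h2).resolve_left h

lemma om_pow (i : ℕ) (x y : V) : S.ω ((S.f ^ i) x) y = (-1) ^ i * S.ω x ((S.f ^ i) y) := by
  induction i generalizing y with
  | zero => simp
  | succ n ih =>
    have e1 : (S.f ^ (n + 1)) y = (S.f ^ n) (S.f y) := by rw [pow_succ, Module.End.mul_apply]
    have e2 : (S.f ^ (n + 1)) x = S.f ((S.f ^ n) x) := by rw [pow_succ', Module.End.mul_apply]
    rw [e1, e2, S.wf, ih]
    ring

/-- the weights form a symmetric set -/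
lemma exists_pair [FiniteDimensional ℂ V] (μ : ℂ) (x : V) (hx : x ≠ 0) (hμ : S.h x = μ • x) :
    ∃ y, S.h y = (-μ) • y ∧ S.ω x y ≠ 0 := by
  by_contra hcon
  push Not at hcon
  apply hx
  apply S.nd
  intro y
  have hy : y ∈ ⨆ ν : ℂ, S.h.eigenspace ν := by rw [S.diag]; trivial
  induction hy using Submodule.iSup_induction' with
  | mem ν y hy =>
    rw [Module.End.mem_eigenspace_iff] at hy
    by_cases h : μ + ν = 0
    · exact hcon y (by rw [hy, eq_neg_of_add_eq_zero_right h])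
    · exact S.om_weight μ ν x y hμ hy h
  | zero => rw [map_zero]
  | add y z _ _ hy hz => rw [map_add, hy, hz, add_zero]

end SpSl2Core

namespace SpSl2

variable {V : Type*} [AddCommGroup V] [Module ℂ V] (S : SpSl2 V)

/-- restriction to a stable nondegenerate subspace -/
noncomputable def restrict [FiniteDimensional ℂ V] (U : Submodule ℂ V)
    (hUe : ∀ v ∈ U, S.e v ∈ U) (hUf : ∀ v ∈ U, S.f v ∈ U) (hUh : ∀ v ∈ U, S.h v ∈ U)
    (hUn : ∀ x ∈ U, (∀ y ∈ U, S.ω x y = 0) → x = 0) : SpSl2 U where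
  e := S.e.restrict hUe
  f := S.f.restrict hUf
  h := S.h.restrict hUh
  ω := S.ω.domRestrict₁₂ U U
  ef v := Subtype.ext (S.ef v)
  he v := Subtype.ext (S.he v)
  hf v := Subtype.ext (S.hf v)
  we x y := S.we x y
  wf x y := S.wf x y
  wh x y := S.wh x y
  alt x y := S.alt x y
  nd x hx := Subtype.ext (hUn x x.2 fun y hy => hx ⟨y, hy⟩)
  diag := by
    have h1 := Module.End.genEigenspace_restrict_eq_top (f := S.h) (p := U) hUh (k := 1)
      (by simpa [Module.End.eigenspace] using S.diag)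
    simpa [Module.End.eigenspace] using h1
  odd μ v hv hv2 := S.odd μ v (fun h => hv (Subtype.ext h)) (congrArg Subtype.val hv2)


/-- highest weight -/
lemma exists_max [FiniteDimensional ℂ V] [Nontrivial V] : ∃ (m : ℕ), Odd m ∧
    (∃ x, x ≠ 0 ∧ S.h x = (m : ℂ) • x) ∧
    ∀ (μ : ℂ) (v : V), v ≠ 0 → S.h v = μ • v → ∃ k : ℤ, μ = k ∧ k ≤ m ∧ -k ≤ m := by
  classical
  set T : Set ℤ := {k : ℤ | ∃ x, x ≠ 0 ∧ S.h x = (k : ℂ) • x} with hT
  have hfin : T.Finite := by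
    have h1 : {μ | S.h.HasEigenvalue μ}.Finite := Module.End.finite_hasEigenvalue _
    have h2 : ((fun k : ℤ => (k : ℂ)) '' T) ⊆ {μ | S.h.HasEigenvalue μ} := by
      rintro _ ⟨k, ⟨x, hx, hk⟩, rfl⟩
      exact Module.End.hasEigenvalue_of_hasEigenvector
        ⟨Module.End.mem_eigenspace_iff.mpr hk, hx⟩
    exact Set.Finite.of_finite_image (h1.subset h2) (fun a _ b _ h => by simpa using h)
  have hne : T.Nonempty := by
    obtain ⟨μ, hμ⟩ := Module.End.exists_eigenvalue S.h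
    obtain ⟨x, hx⟩ := hμ.exists_hasEigenvector
    obtain ⟨k, hk⟩ := S.odd μ x hx.2 hx.apply_eq_smul
    refine ⟨2 * k + 1, x, hx.2, ?_⟩
    rw [hx.apply_eq_smul, hk]; push_cast; rfl
  obtain ⟨k, ⟨x, hx, hkx⟩, hmax⟩ := Set.exists_max_image T id hfin hne
  have hall : ∀ (μ : ℂ) (v : V), v ≠ 0 → S.h v = μ • v → ∃ l : ℤ, μ = l ∧ l ≤ k := by
    intro μ v hv hμ
    obtain ⟨l, hl⟩ := S.odd μ v hv hμ
    refine ⟨2 * l + 1, by rw [hl]; push_cast; rfl, ?_⟩
    exact hmax (2 * l + 1) ⟨v, hv, by rw [hμ, hl]; push_cast; rfl⟩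
  have hsym : ∀ (l : ℤ) (v : V), v ≠ 0 → S.h v = (l : ℂ) • v → -l ≤ k := by
    intro l v hv hl
    obtain ⟨y, hy, hvy⟩ := S.exists_pair _ v hv hl
    obtain ⟨l', hl', hle⟩ := hall _ y (by rintro rfl; exact hvy (map_zero _)) hy
    have h1 : ((-l : ℤ) : ℂ) = (l' : ℂ) := by push_cast; exact hl'
    have h2 : -l = l' := by exact_mod_cast h1
    rw [h2]; exact hle
  have hk0 : 0 ≤ k := by
    have := hsym k x hx hkx
    omega
  obtain ⟨m, rfl⟩ := Int.eq_ofNat_of_zero_le hk0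
  refine ⟨m, ?_, ⟨x, hx, by rw [hkx]; push_cast; rfl⟩, ?_⟩
  · obtain ⟨l, hl⟩ := S.odd _ x hx hkx
    have h1 : ((m : ℤ) : ℂ) = ((2 * l + 1 : ℤ) : ℂ) := by rw [hl]; push_cast; rfl
    have h2 : (m : ℤ) = 2 * l + 1 := by exact_mod_cast h1
    have h3 : Odd (m : ℤ) := ⟨l, h2⟩
    exact_mod_cast h3
  · intro μ v hv hμ
    obtain ⟨l, hl, hle⟩ := hall μ v hv hμ
    exact ⟨l, hl, hle, hsym l v hv (by rw [hμ, hl])⟩

/-- splitting off a block, first part -/
theorem step [FiniteDimensional ℂ V] [Nontrivial V] : ∃ (m : ℕ) (x : V), Odd m ∧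
    S.e x = 0 ∧ S.h x = (m : ℂ) • x ∧ (S.f ^ (m + 1)) x = 0 ∧ S.ω x ((S.f ^ m) x) = 1 ∧
    ∀ (μ : ℂ) (v : V), v ≠ 0 → S.h v = μ • v → ∃ k : ℤ, μ = k ∧ k ≤ m ∧ -k ≤ m := by
  obtain ⟨m, hodd, ⟨x0, hx0, hx0m⟩, hmax⟩ := S.exists_max
  -- the top weight space
  have hE : ∀ x, S.h x = (m : ℂ) • x → S.e x = 0 := by
    intro x hx
    by_contra hne
    obtain ⟨k, hk, hk2, -⟩ := hmax _ _ hne (S.h_e _ _ hx)
    have h1 : ((m + 2 : ℤ) : ℂ) = (k : ℂ) := by rw [← hk]; push_cast; rfl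
    have h2 : (m : ℤ) + 2 = k := by exact_mod_cast h1
    omega
  have hF : ∀ x, S.h x = (m : ℂ) • x → (S.f ^ (m + 1)) x = 0 := by
    intro x hx
    by_contra hne
    obtain ⟨k, hk, -, hk2⟩ := hmax _ _ hne (S.h_pow_f _ _ hx (m + 1))
    have h1 : ((m - 2 * (m + 1) : ℤ) : ℂ) = (k : ℂ) := by rw [← hk]; push_cast; rfl
    have h2 : (m : ℤ) - 2 * (m + 1) = k := by exact_mod_cast h1
    omega
  have hinj : ∀ x, S.h x = (m : ℂ) • x → x ≠ 0 → ∀ j, j ≤ m → (S.f ^ j) x ≠ 0 := by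
    intro x hx hx0 j hj
    induction j with
    | zero => simpa using hx0
    | succ n ih =>
      intro h0
      have h1 := S.e_pow_f _ x (hE x hx) hx n
      rw [h0, map_zero] at h1
      rcases smul_eq_zero.mp h1.symm with h2 | h2
      · rcases mul_eq_zero.mp h2 with h3 | h3
        · exact (Nat.cast_add_one_ne_zero n) h3
        · have h4 : (m : ℂ) = (n : ℂ) := sub_eq_zero.mp h3
          have h5 : m = n := by exact_mod_cast h4
          omega
      · exact ih (by omega) h2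
  -- the two extreme weight spaces
  set E := S.h.eigenspace (m : ℂ) with hEdef
  set E' := S.h.eigenspace (-(m : ℂ)) with hE'def
  have memE : ∀ x, x ∈ E ↔ S.h x = (m : ℂ) • x := fun x => Module.End.mem_eigenspace_iff
  have memE' : ∀ x, x ∈ E' ↔ S.h x = (-(m : ℂ)) • x := fun x => Module.End.mem_eigenspace_iff
  have hle : finrank ℂ E' ≤ finrank ℂ E := by
    let Ψ : E' →ₗ[ℂ] Module.Dual ℂ E := S.ω.domRestrict₁₂ E' E
    have hΨ : Function.Injective Ψ := by
      rw [← LinearMap.ker_eq_bot, Submodule.eq_bot_iff]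
      intro y hy
      by_contra hne
      have hne' : (y : V) ≠ 0 := fun h => hne (Subtype.ext h)
      obtain ⟨z, hz, hyz⟩ := S.exists_pair _ (y : V) hne' ((memE' _).mp y.2)
      rw [neg_neg] at hz
      apply hyz
      have h1 := congrArg (fun g : Module.Dual ℂ E => g ⟨z, (memE z).mpr hz⟩)
        (LinearMap.mem_ker.mp hy)
      exact h1
    have h1 := LinearMap.finrank_le_finrank_of_injective hΨ
    rwa [Subspace.dual_finrank_eq] at h1
  let T : E →ₗ[ℂ] E' := LinearMap.restrict (S.f ^ m) (p := E) (q := E') (fun x hx => by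
    rw [memE'] 
    rw [memE] at hx
    rw [S.h_pow_f _ _ hx]
    congr 1; ring)
  have hTinj : Function.Injective T := by
    rw [← LinearMap.ker_eq_bot, Submodule.eq_bot_iff]
    intro y hy
    by_contra hne
    have hne' : (y : V) ≠ 0 := fun h => hne (Subtype.ext h)
    exact hinj y ((memE _).mp y.2) hne' m le_rfl (congrArg Subtype.val (LinearMap.mem_ker.mp hy))
  have hTsurj : Function.Surjective T := by
    have h1 : finrank ℂ E = finrank ℂ E' :=
      le_antisymm (LinearMap.finrank_le_finrank_of_injective hTinj) hle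
    exact (LinearMap.injective_iff_surjective_of_finrank_eq_finrank h1).mp hTinj
  obtain ⟨y, hy, hxy⟩ := S.exists_pair _ x0 hx0 hx0m
  obtain ⟨⟨x1, hx1⟩, hT1⟩ := hTsurj ⟨y, (memE' y).mpr hy⟩
  have hx1y : (S.f ^ m) x1 = y := congrArg Subtype.val hT1
  rw [memE] at hx1
  -- symmetric form
  have hneg : (-1 : ℂ) ^ m = -1 := hodd.neg_one_pow
  have hsymm : ∀ u v, S.ω u ((S.f ^ m) v) = S.ω v ((S.f ^ m) u) := by
    intro u v
    rw [S.alt, S.om_pow, hneg]; ring
  obtain ⟨z, hz, hz0⟩ : ∃ z, S.h z = (m : ℂ) • z ∧ S.ω z ((S.f ^ m) z) ≠ 0 := by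
    by_contra hcon
    push Not at hcon
    have h1 := hcon x0 hx0m
    have h2 := hcon x1 hx1
    have h3 := hcon (x0 + x1) (by rw [map_add, hx0m, hx1, smul_add])
    rw [map_add, map_add, map_add, LinearMap.add_apply, LinearMap.add_apply, h1, h2,
      hsymm x1 x0, hx1y] at h3
    apply hxy
    have h4 : (2 : ℂ) * S.ω x0 y = 0 := by linear_combination h3
    exact (mul_eq_zero.mp h4).resolve_left two_ne_zero
  obtain ⟨c, hc⟩ := IsAlgClosed.exists_pow_nat_eq (S.ω z ((S.f ^ m) z))⁻¹ (n := 2) (by norm_num)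
  refine ⟨m, c • z, hodd, ?_, ?_, ?_, ?_, hmax⟩
  · rw [map_smul, hE z hz, smul_zero]
  · rw [map_smul, hz, smul_comm]
  · rw [map_smul, hF z hz, smul_zero]
  · rw [map_smul, map_smul, map_smul, LinearMap.smul_apply, smul_eq_mul, smul_eq_mul, ← mul_assoc,
      ← sq, hc, inv_mul_cancel₀ hz0]

end SpSl2

end Pool.Agent.Helper8
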