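import Mathlib
import Pool.Agent.Helper8.Lie.Blocks

/-!
Symplectic representations of `sl_2` with odd weights of dimension at most `8`: adapted bases.
-/

open Module

namespace Pool.Agent.Helper8

namespace SpSl2

variable {V : Type*} [AddCommGroup V] [Module ℂ V] (S : SpSl2 V)

/-- `x` generates a normalised block of dimension `m + 1` -/
structure Top (x : V) (m : ℕ) : Prop where
  e : S.e x = 0
  h : S.h x = (m : ℂ) • x
  f : (S.f ^ (m + 1)) x = 0
  ω : S.ω x ((S.f ^ m) x) = 1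

variable {S}

namespace Top

variable {x : V} {m : ℕ} (T : S.Top x m)

include T

lemma e0 : S.e ((S.f ^ 0) x) = 0 := by simpa using T.e

lemma e_pow (j : ℕ) : S.e ((S.f ^ (j + 1)) x) = ((j + 1) * (m - j) : ℂ) • (S.f ^ j) x :=
  S.e_pow_f _ x T.e T.h j

lemma h_pow (j : ℕ) : S.h ((S.f ^ j) x) = (m - 2 * j : ℂ) • (S.f ^ j) x :=
  S.h_pow_f _ x T.h j

lemma f_pow (j : ℕ) (hj : m < j) : (S.f ^ j) x = 0 := by
  obtain ⟨k, rfl⟩ := Nat.exists_eq_add_of_lt hj
  have h1 : m + k + 1 = k + (m + 1) := by ring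
  rw [h1, pow_add, Module.End.mul_apply, T.f, map_zero]

lemma om (i j : ℕ) : S.ω ((S.f ^ i) x) ((S.f ^ j) x) = if i + j = m then (-1) ^ i else 0 := by
  rw [S.om_pow, ← Module.End.mul_apply, ← pow_add]
  split_ifs with h
  · rw [h, T.ω, mul_one]
  · rcases Nat.lt_or_gt_of_ne h with h1 | h1
    · rw [S.om_weight (m : ℂ) (m - 2 * (i + j : ℕ)) _ _ T.h (T.h_pow _), mul_zero]
      intro h2
      have h3 : ((2 * (m - (i + j)) : ℤ) : ℂ) = 0 := by
        push_cast; push_cast at h2; linear_combination h2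
      have h4 : (2 * (m - (i + j)) : ℤ) = 0 := by exact_mod_cast h3
      omega
    · rw [T.f_pow _ h1, map_zero, mul_zero]

lemma cross {y : V} (hy : ∀ j, S.ω x ((S.f ^ j) y) = 0) (i j : ℕ) :
    S.ω ((S.f ^ i) x) ((S.f ^ j) y) = 0 := by
  rw [S.om_pow, ← Module.End.mul_apply, ← pow_add, hy, mul_zero]

end Top

/-- the orthogonal complement of a block -/
def perp (S : SpSl2 V) (x : V) : Submodule ℂ V where
  carrier := {v | ∀ j, S.ω ((S.f ^ j) x) v = 0}
  zero_mem' j := map_zero _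
  add_mem' hv hw j := by rw [map_add, hv j, hw j, add_zero]
  smul_mem' c v hv j := by rw [map_smul, hv j, smul_zero]

lemma mem_perp (x v : V) : v ∈ S.perp x ↔ ∀ j, S.ω ((S.f ^ j) x) v = 0 := Iff.rfl

section perp

variable {x : V} {m : ℕ} (T : S.Top x m)

include T

lemma perp_e (v : V) (hv : v ∈ S.perp x) : S.e v ∈ S.perp x := by
  rw [mem_perp] at hv ⊢
  intro j
  have h1 : S.ω ((S.f ^ j) x) (S.e v) = - S.ω (S.e ((S.f ^ j) x)) v := by
    rw [S.we, neg_neg]
  rw [h1]
  cases j with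
  | zero => rw [T.e0, map_zero, LinearMap.zero_apply, neg_zero]
  | succ n => rw [T.e_pow, map_smul, LinearMap.smul_apply, hv n, smul_zero, neg_zero]

omit T in
lemma perp_f (v : V) (hv : v ∈ S.perp x) : S.f v ∈ S.perp x := by
  rw [mem_perp] at hv ⊢
  intro j
  have h1 : S.ω ((S.f ^ j) x) (S.f v) = - S.ω (S.f ((S.f ^ j) x)) v := by
    rw [S.wf, neg_neg]
  rw [h1, ← Module.End.mul_apply, ← pow_succ', hv (j + 1), neg_zero]

lemma perp_h (v : V) (hv : v ∈ S.perp x) : S.h v ∈ S.perp x := by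
  rw [mem_perp] at hv ⊢
  intro j
  have h1 : S.ω ((S.f ^ j) x) (S.h v) = - S.ω (S.h ((S.f ^ j) x)) v := by
    rw [S.wh, neg_neg]
  rw [h1, T.h_pow, map_smul, LinearMap.smul_apply, hv j, smul_zero, neg_zero]

lemma exists_decomp (v : V) : ∃ c : Fin (m + 1) → ℂ,
    v - ∑ j, c j • (S.f ^ (j : ℕ)) x ∈ S.perp x := by
  refine ⟨fun j => (-1) ^ (m - j : ℕ) * S.ω ((S.f ^ (m - j : ℕ)) x) v, ?_⟩
  rw [mem_perp]
  intro i
  by_cases hi : i ≤ m
  · rw [map_sub, map_sum, Finset.sum_eq_single (⟨m - i, by omega⟩ : Fin (m + 1))]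
    · rw [map_smul, T.om, if_pos (by simp; omega)]
      have h1 : m - (m - i) = i := by omega
      simp only [h1, smul_eq_mul]
      have h2 : ((-1 : ℂ) ^ i) * (-1) ^ i = 1 := by rw [← mul_pow]; simp
      linear_combination (-(S.ω ((S.f ^ i) x) v)) * h2
    · intro j _ hj
      rw [map_smul, T.om, if_neg, smul_zero]
      intro h
      apply hj
      ext
      simp only
      omega
    · intro h; exact absurd (Finset.mem_univ _) h
  · rw [T.f_pow i (by omega), map_zero, LinearMap.zero_apply]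

lemma perp_nd (u : V) (hu : u ∈ S.perp x) (h : ∀ y ∈ S.perp x, S.ω u y = 0) : u = 0 := by
  apply S.nd
  intro v
  obtain ⟨c, hc⟩ := exists_decomp T v
  have h1 := h _ hc
  rw [map_sub, sub_eq_zero] at h1
  rw [h1, map_sum]
  refine Finset.sum_eq_zero fun j _ => ?_
  rw [map_smul, S.alt, hu j, neg_zero, smul_zero]

/-- the complement of a block as representation -/
noncomputable def comp [FiniteDimensional ℂ V] : SpSl2 (S.perp x) :=
  S.restrict (S.perp x) (perp_e T) (perp_f) (perp_h T) (perp_nd T)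

lemma finrank_perp [FiniteDimensional ℂ V] :
    finrank ℂ (S.perp x) + (m + 1) = finrank ℂ V := by
  let Φ : V →ₗ[ℂ] (Fin (m + 1) → ℂ) := LinearMap.pi fun j => S.ω ((S.f ^ (j : ℕ)) x)
  have hker : LinearMap.ker Φ = S.perp x := by
    ext v
    rw [LinearMap.mem_ker, mem_perp]
    constructor
    · intro h j
      by_cases hj : j ≤ m
      · exact congrFun h ⟨j, by omega⟩
      · rw [T.f_pow j (by omega), map_zero, LinearMap.zero_apply]
    · intro h
      funext j
      exact h j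
  have hsurj : Function.Surjective Φ := by
    intro c
    refine ⟨∑ j : Fin (m + 1), ((-1) ^ (j : ℕ) * c j) • (S.f ^ (m - j : ℕ)) x, ?_⟩
    funext i
    show S.ω ((S.f ^ (i : ℕ)) x) _ = c i
    rw [map_sum, Finset.sum_eq_single i]
    · rw [map_smul, T.om, if_pos (by omega), smul_eq_mul]
      have h2 : ((-1 : ℂ) ^ (i : ℕ)) * (-1) ^ (i : ℕ) = 1 := by rw [← mul_pow]; simp
      linear_combination c i * h2
    · intro j _ hj
      rw [map_smul, T.om, if_neg, smul_zero]
      intro h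
      apply hj
      ext
      omega
    · intro h; exact absurd (Finset.mem_univ _) h
  have h1 := LinearMap.finrank_range_add_finrank_ker Φ
  rw [hker, LinearMap.range_eq_top.mpr hsurj, finrank_top, Module.finrank_fin_fun] at h1
  omega

lemma comp_f_pow [FiniteDimensional ℂ V] (j : ℕ) (y : S.perp x) :
    ((((comp T).f ^ j) y : S.perp x) : V) = (S.f ^ j) (y : V) := by
  induction j with
  | zero => simp
  | succ n ih =>
    rw [pow_succ', pow_succ', Module.End.mul_apply, Module.End.mul_apply, ← ih]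
    rfl

/-- blocks of the complement are blocks -/
lemma top_of_comp [FiniteDimensional ℂ V] {y : S.perp x} {k : ℕ} (T' : (comp T).Top y k) :
    S.Top (y : V) k where
  e := congrArg Subtype.val T'.e
  h := congrArg Subtype.val T'.h
  f := by rw [← comp_f_pow T, T'.f]; rfl
  ω := by
    have h1 := T'.ω
    change S.ω (y : V) ((((comp T).f ^ k) y : S.perp x) : V) = 1 at h1
    rw [comp_f_pow] at h1
    exact h1

lemma cross_comp [FiniteDimensional ℂ V] (y : S.perp x) (i j : ℕ) :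
    S.ω ((S.f ^ i) x) ((S.f ^ j) (y : V)) = 0 := by
  rw [← comp_f_pow T]
  exact (((comp T).f ^ j) y).2 i

end perp

variable (S)

lemma step' [FiniteDimensional ℂ V] [Nontrivial V] : ∃ (m : ℕ) (x : V), Odd m ∧ S.Top x m ∧
    ∀ (μ : ℂ) (v : V), v ≠ 0 → S.h v = μ • v → ∃ k : ℤ, μ = k ∧ k ≤ m ∧ -k ≤ m := by
  obtain ⟨m, x, h1, h2, h3, h4, h5, h6⟩ := S.step
  exact ⟨m, x, h1, ⟨h2, h3, h4, h5⟩, h6⟩

/-- adapted bases -/
structure Frame (d : ℕ) [NeZero d] (up wt : Fin d → ℤ) (g : Fin d → Fin d → ℤ) where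
  b : Basis (Fin d) ℂ V
  e_b : ∀ j, S.e (b j) = (up j : ℂ) • b (j - 1)
  h_b : ∀ j, S.h (b j) = (wt j : ℂ) • b j
  g_b : ∀ i j, S.ω (b i) (b j) = (g i j : ℂ)

/-- independence from the Gram matrix -/
lemma indep_of_gram {d : ℕ} (b : Fin d → V) (g : Fin d → Fin d → ℤ)
    (hg : ∀ i j, S.ω (b i) (b j) = (g i j : ℂ)) (σ : Fin d → Fin d)
    (hσ : ∀ i, g (σ i) i ≠ 0) (hσ' : ∀ i j, j ≠ i → g (σ i) j = 0) : LinearIndependent ℂ b := by
  rw [Fintype.linearIndependent_iff]
  intro c hc i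
  have h1 := congrArg (fun v => S.ω (b (σ i)) v) hc
  simp only [map_sum, map_smul, map_zero, hg, smul_eq_mul] at h1
  rw [Finset.sum_eq_single i] at h1
  · exact (mul_eq_zero.mp h1).resolve_right (by exact_mod_cast hσ i)
  · intro j _ hj
    rw [hσ' i j hj]; simp
  · intro h; exact absurd (Finset.mem_univ _) h

/-- frame from vectors -/
noncomputable def mkFrame {d : ℕ} [NeZero d] {up wt : Fin d → ℤ} {g : Fin d → Fin d → ℤ}
    (b : Fin d → V)
    (he : ∀ j, S.e (b j) = (up j : ℂ) • b (j - 1)) (hh : ∀ j, S.h (b j) = (wt j : ℂ) • b j)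
    (hg : ∀ i j, S.ω (b i) (b j) = (g i j : ℂ)) (σ : Fin d → Fin d)
    (hσ : ∀ i, g (σ i) i ≠ 0) (hσ' : ∀ i j, j ≠ i → g (σ i) j = 0)
    (hd : finrank ℂ V = d) : S.Frame d up wt g where
  b := basisOfLinearIndependentOfCardEqFinrank (S.indep_of_gram b g hg σ hσ hσ')
    (by rw [hd, Fintype.card_fin])
  e_b j := by simpa using he j
  h_b j := by simpa using hh j
  g_b i j := by simpa using hg i j

end SpSl2

end Pool.Agent.Helper8
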