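import Mathlib

/-!
Principal `sl_2` triples in semisimple Lie algebras.
-/

open Module LieAlgebra LieAlgebra.IsKilling LieModule

namespace Pool.Agent.Helper8

variable {L : Type*} [LieRing L] [LieAlgebra ℂ L] [FiniteDimensional ℂ L] [IsKilling ℂ L]

theorem exists_principal_aux (H : LieSubalgebra ℂ L) [H.IsCartanSubalgebra] :
    ∃ (h : H) (e f : L),
      ⁅e, f⁆ = (h : L) ∧ ⁅(h : L), e⁆ = (2 : ℂ) • e ∧ ⁅(h : L), f⁆ = (-2 : ℂ) • f ∧
      ∀ x : L, x ∈ (H.toSubmodule ⊔
        Submodule.span ℂ {y : L | ∃ n : ℕ, ⁅(h : L), y⁆ = (2 * (n + 1) : ℂ) • y}) ⊔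
        Submodule.span ℂ {y : L | ∃ n : ℕ, ⁅(h : L), y⁆ = (-2 * (n + 1) : ℂ) • y} := by
  classical
  set P := rootSystem H with hP
  obtain ⟨b⟩ := P.nonempty_base
  -- the element of the Cartan subalgebra
  have hD : ∃ D : H, ∀ i ∈ b.support, P.root i D = 2 := by
    let Φ : Dual ℂ (Dual ℂ H) := b.toWeightBasis.constr ℂ (fun _ => (2 : ℂ))
    refine ⟨(evalEquiv ℂ H).symm Φ, fun i hi => ?_⟩
    have h1 : P.root i ((evalEquiv ℂ H).symm Φ) = Φ (P.root i) := by
      rw [apply_evalEquiv_symm_apply]
    rw [h1, ← b.toWeightBasis_apply ⟨i, hi⟩, Basis.constr_basis]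
  obtain ⟨D, hD⟩ := hD
  have hheight : ∀ α : H.root, P.root α D = 2 * (b.height α : ℂ) := by
    intro α
    obtain ⟨g, _, _, hg⟩ := b.exists_root_eq_sum_int α
    rw [RootPairing.Base.height_eq_sum hg, hg, LinearMap.sum_apply, Int.cast_sum, Finset.mul_sum]
    apply Finset.sum_congr rfl
    intro j hj
    rw [LinearMap.smul_apply, hD j hj, zsmul_eq_mul, mul_comm]
  -- the `sl_2` triples of the simple roots
  have htr : ∀ α : H.root, ∃ h e f : L, IsSl2Triple h e f ∧ e ∈ rootSpace H α.1 ∧
      f ∈ rootSpace H (-α.1) := by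
    rintro ⟨α, hα⟩
    exact exists_isSl2Triple_of_weight_isNonZero (by simpa using hα)
  choose hh ee ff hsl hee hff using htr
  have hcoroot : ∀ α : H.root, hh α = coroot α.1 := by
    rintro ⟨α, hα⟩
    exact (hsl _).h_eq_coroot (by simpa using hα) (hee _) (hff _)
  -- coefficients
  set c : b.support → ℂ := fun i => b.toCoweightBasis.repr D i with hc
  have hDc : D = ∑ i : b.support, c i • P.coroot i := by
    conv_lhs => rw [← b.toCoweightBasis.sum_repr D]
    apply Finset.sum_congr rfl
    intro i _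
    rw [b.toCoweightBasis_apply]
  set e : L := ∑ i : b.support, ee i with he
  set f : L := ∑ i : b.support, c i • ff i with hf
  have hDe : ∀ i : b.support, ⁅(D : L), ee i⁆ = (2 : ℂ) • ee i := by
    intro i
    have h1 := lie_eq_smul_of_mem_rootSpace (hee i) D
    have h2 := hD i i.2
    have h3 : (i.1.1 : H → ℂ) D = 2 := h2
    rw [h3] at h1
    exact h1
  have hDf : ∀ i : b.support, ⁅(D : L), ff i⁆ = (-2 : ℂ) • ff i := by
    intro i
    have h1 := lie_eq_smul_of_mem_rootSpace (hff i) D
    have h2 := hD i i.2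
    have h3 : (-(i.1.1) : H → ℂ) D = -2 := by
      rw [Pi.neg_apply]; exact congrArg Neg.neg h2
    have h4 : ⁅D, ff i⁆ = (-(i.1.1) : H → ℂ) D • ff i := by exact h1
    rw [h3] at h4
    exact h4
  have hef : ∀ i j : b.support, i ≠ j → ⁅ee i, ff j⁆ = 0 := by
    intro i j hij
    have h1 : ⁅ee i, ff j⁆ ∈ rootSpace H ((i.1.1 : H → ℂ) + (-(j.1.1) : H → ℂ)) :=
      lie_mem_genWeightSpace_of_mem_genWeightSpace (hee i) (hff j)
    by_contra hne
    have h2 : rootSpace H ((i.1.1 : H → ℂ) + (-(j.1.1) : H → ℂ)) ≠ ⊥ := by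
      intro h3
      rw [h3] at h1
      exact hne h1
    let χ : Weight ℂ H L := ⟨_, h2⟩
    have hχ : (χ : H → ℂ) = (i.1.1 : H → ℂ) - (j.1.1 : H → ℂ) := by
      change (i.1.1 : H → ℂ) + (-(j.1.1) : H → ℂ) = _
      rw [← sub_eq_add_neg]
    by_cases h0 : χ.IsZero
    · have h3 : (χ : H → ℂ) = 0 := h0
      rw [hχ, sub_eq_zero] at h3
      apply hij
      apply Subtype.ext
      apply Subtype.ext
      exact DFunLike.coe_injective h3
    · apply b.sub_notMem_range_root i.2 j.2
      refine ⟨⟨χ, by simpa using h0⟩, ?_⟩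
      ext x
      have h4 := congrFun hχ x
      exact h4
  refine ⟨D, e, f, ?_, ?_, ?_, ?_⟩
  · rw [he, hf, sum_lie_sum]
    have h1 : ∀ i : b.support, ∑ j : b.support, ⁅ee i, c j • ff j⁆ = c i • (hh i : L) := by
      intro i
      rw [Finset.sum_eq_single i]
      · rw [lie_smul, (hsl i).lie_e_f]
      · intro j _ hj
        rw [lie_smul, hef i j (Ne.symm hj), smul_zero]
      · intro h; exact absurd (Finset.mem_univ _) h
    rw [Finset.sum_congr rfl fun i _ => h1 i, hDc]
    have h2 : ((∑ i : b.support, c i • P.coroot i : H) : L) =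
        ∑ i : b.support, c i • ((P.coroot i : H) : L) := by
      rw [AddSubmonoidClass.coe_finsetSum]
      rfl
    rw [h2]
    refine Finset.sum_congr rfl fun i _ => ?_
    rw [hcoroot]
    rfl
  · rw [he, lie_sum, Finset.smul_sum]
    exact Finset.sum_congr rfl fun i _ => hDe i
  · rw [hf, lie_sum, Finset.smul_sum]
    refine Finset.sum_congr rfl fun i _ => ?_
    rw [lie_smul, hDf, smul_comm]
  · intro x
    set N : Submodule ℂ L := (H.toSubmodule ⊔
        Submodule.span ℂ {y : L | ∃ n : ℕ, ⁅(D : L), y⁆ = (2 * (n + 1) : ℂ) • y}) ⊔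
        Submodule.span ℂ {y : L | ∃ n : ℕ, ⁅(D : L), y⁆ = (-2 * (n + 1) : ℂ) • y} with hN
    have h1 : (⨆ χ : Weight ℂ H L, genWeightSpace L χ).toSubmodule ≤ N := by
      rw [LieSubmodule.iSup_toSubmodule, iSup_le_iff]
      intro χ y hy
      by_cases h0 : χ.IsZero
      · have h2 : y ∈ rootSpace H (0 : H → ℂ) := by
          have h3 : (χ : H → ℂ) = 0 := h0
          rw [← h3]; exact hy
        rw [rootSpace_zero_eq] at h2
        exact Submodule.mem_sup_left (Submodule.mem_sup_left h2)
      · have h2 := lie_eq_smul_of_mem_rootSpace hy D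
        set α : H.root := ⟨χ, by simpa using h0⟩ with hα
        have h3 : χ D = 2 * (b.height α : ℂ) := hheight α
        rw [h3] at h2
        have h4 := b.height_ne_zero α
        rcases lt_or_gt_of_ne h4 with h5 | h5
        · apply Submodule.mem_sup_right
          apply Submodule.subset_span
          refine ⟨(-(b.height α) - 1).toNat, ?_⟩
          have h6 : (((-(b.height α) - 1).toNat : ℕ) : ℂ) = -(b.height α : ℂ) - 1 := by
            have h7 : (((-(b.height α) - 1).toNat : ℕ) : ℤ) = -(b.height α) - 1 :=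
              Int.toNat_of_nonneg (by omega)
            exact_mod_cast congrArg (fun z : ℤ => (z : ℂ)) h7
          rw [h6]
          have h8 : ⁅(D : L), y⁆ = (2 * (b.height α : ℂ)) • y := h2
          rw [h8]
          congr 1
          ring
        · apply Submodule.mem_sup_left
          apply Submodule.mem_sup_right
          apply Submodule.subset_span
          refine ⟨(b.height α - 1).toNat, ?_⟩
          have h6 : (((b.height α - 1).toNat : ℕ) : ℂ) = (b.height α : ℂ) - 1 := by
            have h7 : (((b.height α - 1).toNat : ℕ) : ℤ) = b.height α - 1 :=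
              Int.toNat_of_nonneg (by omega)
            exact_mod_cast congrArg (fun z : ℤ => (z : ℂ)) h7
          rw [h6]
          have h8 : ⁅(D : L), y⁆ = (2 * (b.height α : ℂ)) • y := h2
          rw [h8]
          congr 1
          ring
    rw [iSup_genWeightSpace_eq_top' ℂ H L] at h1
    exact h1 (by trivial)

end Pool.Agent.Helper8
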