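import Mathlib
import Pool.Agent.Helper8.Lie.Principal

/-!
The action of a principal `sl_2` triple on an irreducible representation.
-/

open Module LieAlgebra LieModule

namespace Pool.Agent.Helper8

/-- a principal triple of a Lie algebra -/
structure Principal (L : Type*) [LieRing L] [LieAlgebra ℂ L] where
  h : L
  e : L
  f : L
  Z : Submodule ℂ L
  ef : ⁅e, f⁆ = h
  he : ⁅h, e⁆ = (2 : ℂ) • e
  hf : ⁅h, f⁆ = (-2 : ℂ) • f
  hZ : h ∈ Z
  ab : ∀ x ∈ Z, ∀ y ∈ Z, ⁅x, y⁆ = 0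
  dec : ∀ x : L, x ∈ (Z ⊔ Submodule.span ℂ {y : L | ∃ n : ℕ, ⁅h, y⁆ = (2 * (n + 1) : ℂ) • y}) ⊔
        Submodule.span ℂ {y : L | ∃ n : ℕ, ⁅h, y⁆ = (-2 * (n + 1) : ℂ) • y}

theorem exists_principal (L : Type*) [LieRing L] [LieAlgebra ℂ L] [FiniteDimensional ℂ L]
    [IsKilling ℂ L] : Nonempty (Principal L) := by
  obtain ⟨x, hH⟩ := LieAlgebra.exists_isCartanSubalgebra_engel ℂ L
  obtain ⟨h, e, f, h1, h2, h3, h4⟩ := exists_principal_aux (LieSubalgebra.engel ℂ x)
  exact ⟨⟨h, e, f, (LieSubalgebra.engel ℂ x).toSubmodule, h1, h2, h3, h.2, fun a ha b hb => by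
    have : IsLieAbelian (LieSubalgebra.engel ℂ x) := inferInstance
    have h5 := congrArg (fun z : (LieSubalgebra.engel ℂ x) => (z : L))
      (LieModule.IsTrivial.trivial (⟨a, ha⟩ : (LieSubalgebra.engel ℂ x)) (⟨b, hb⟩ : (LieSubalgebra.engel ℂ x)))
    exact h5, h4⟩⟩

section

variable {L : Type*} [LieRing L] [LieAlgebra ℂ L] {V : Type*} [AddCommGroup V]
  [Module ℂ V] [LieRingModule L V] [LieModule ℂ L V]

/-- stable subspaces of an irreducible module -/
lemma irr_cases [LieModule.IsIrreducible ℂ L V] (N : Submodule ℂ V)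
    (h : ∀ x : L, ∀ v ∈ N, ⁅x, v⁆ ∈ N) : N = ⊥ ∨ N = ⊤ := by
  let N' : LieSubmodule ℂ L V := { N with lie_mem := fun {x v} hv => h x v hv }
  rcases eq_bot_or_eq_top N' with h1 | h1
  · left
    have h2 : N'.toSubmodule = ⊥ := by rw [h1]; rfl
    exact h2
  · right
    have h2 : N'.toSubmodule = ⊤ := by rw [h1]; rfl
    exact h2

theorem Principal.top (p : Principal L) [FiniteDimensional ℂ V] [LieModule.IsIrreducible ℂ L V] :
    ∃ (m : ℕ) (v : V), v ≠ 0 ∧ ⁅p.e, v⁆ = 0 ∧ ⁅p.h, v⁆ = (m : ℂ) • v ∧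
      (∀ w : V, ⁅p.h, w⁆ = (m : ℂ) • w → ∃ c : ℂ, w = c • v) ∧
      ⊤ ≤ ⨆ k : ℕ, (toEnd ℂ L V p.h).eigenspace ((m : ℂ) - 2 * k) := by
  have : Nontrivial V := LieModule.nontrivial_of_isIrreducible ℂ L V
  -- maximal eigenvalue
  obtain ⟨μ, hμ, hmax⟩ : ∃ μ, (toEnd ℂ L V p.h).HasEigenvalue μ ∧
      ∀ ν, (toEnd ℂ L V p.h).HasEigenvalue ν → ν.re ≤ μ.re := by
    have hfin : {μ | (toEnd ℂ L V p.h).HasEigenvalue μ}.Finite :=
      Module.End.finite_hasEigenvalue _
    obtain ⟨μ0, hμ0⟩ := Module.End.exists_eigenvalue (toEnd ℂ L V p.h)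
    obtain ⟨μ, hμ, hmax⟩ := Set.exists_max_image {μ | (toEnd ℂ L V p.h).HasEigenvalue μ}
      (fun ν : ℂ => ν.re) hfin ⟨μ0, hμ0⟩
    exact ⟨μ, hμ, fun ν hν => hmax ν hν⟩
  set E := (toEnd ℂ L V p.h).eigenspace μ with hE
  have memE : ∀ ν (v : V), v ∈ (toEnd ℂ L V p.h).eigenspace ν ↔ ⁅p.h, v⁆ = ν • v := fun ν v => by
    rw [Module.End.mem_eigenspace_iff, LieModule.toEnd_apply_apply]
  -- raising and lowering
  have hshift : ∀ (c ν : ℂ) (y : L), ⁅p.h, y⁆ = c • y → ∀ v ∈ (toEnd ℂ L V p.h).eigenspace ν,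
      ⁅y, v⁆ ∈ (toEnd ℂ L V p.h).eigenspace (ν + c) := by
    intro c ν y hy v hv
    rw [memE] at hv ⊢
    rw [leibniz_lie, hy, hv, smul_lie, lie_smul, add_smul, add_comm]
  have hraise : ∀ (n : ℕ) (y : L), ⁅p.h, y⁆ = (2 * (n + 1) : ℂ) • y → ∀ v ∈ E, ⁅y, v⁆ = 0 := by
    intro n y hy v hv
    by_contra hne
    have h1 := hshift _ _ y hy v hv
    have h2 : (toEnd ℂ L V p.h).HasEigenvalue (μ + (2 * (n + 1) : ℂ)) :=
      Module.End.hasEigenvalue_of_hasEigenvector ⟨h1, hne⟩
    have h3 := hmax _ h2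
    have h4 : (μ + (2 * ((n : ℂ) + 1))).re = μ.re + 2 * ((n : ℝ) + 1) := by simp
    rw [h4] at h3
    have : (0 : ℝ) ≤ n := Nat.cast_nonneg n
    linarith
  have hzero : ∀ x ∈ p.Z, ∀ v ∈ E, ⁅x, v⁆ ∈ E := by
    intro x hx v hv
    have h1 := hshift 0 μ x (by rw [zero_smul]; exact p.ab _ p.hZ _ hx) v hv
    rw [add_zero] at h1
    exact h1
  set D : Submodule ℂ V := ⨆ k : ℕ, (toEnd ℂ L V p.h).eigenspace (μ - 2 * (k + 1)) with hD
  have hED : Disjoint E D := by
    have h1 := Module.End.eigenspaces_iSupIndep (toEnd ℂ L V p.h)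
    have h2 := h1 μ
    refine h2.mono_right ?_
    apply iSup_le
    intro k
    refine le_iSup₂_of_le (μ - 2 * (k + 1)) ?_ le_rfl
    intro h
    have h3 : (2 * ((k : ℂ) + 1)) = 0 := by linear_combination -h
    have h4 : ((k : ℂ) + 1) ≠ 0 := Nat.cast_add_one_ne_zero k
    exact (mul_ne_zero two_ne_zero h4) h3
  -- key lemma
  have key : ∀ S : Submodule ℂ V, S ≤ E → S ≠ ⊥ → (∀ x ∈ p.Z, ∀ v ∈ S, ⁅x, v⁆ ∈ S) →
      E ≤ S ∧ ⊤ ≤ S ⊔ D := by
    intro S hSE hS0 hSZ
    set C : Set (Submodule ℂ V) := {N | S ≤ N ∧ ∀ (n : ℕ) (y : L),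
      ⁅p.h, y⁆ = (-2 * (n + 1) : ℂ) • y → ∀ v ∈ N, ⁅y, v⁆ ∈ N} with hC
    set N := sInf C with hN
    have hSN : S ≤ N := le_sInf fun N' hN' => hN'.1
    have hNl : ∀ (n : ℕ) (y : L), ⁅p.h, y⁆ = (-2 * (n + 1) : ℂ) • y → ∀ v ∈ N, ⁅y, v⁆ ∈ N := by
      intro n y hy v hv
      rw [hN, Submodule.mem_sInf] at hv ⊢
      intro N' hN'
      exact hN'.2 n y hy v (hv N' hN')
    have hNle : ∀ N' ∈ C, N ≤ N' := fun N' hN' => sInf_le hN'
    -- stability
    let N' : Submodule ℂ V :=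
      { carrier := {w | w ∈ N ∧ ∀ x : L, ⁅x, w⁆ ∈ N}
        zero_mem' := ⟨N.zero_mem, fun x => by rw [lie_zero]; exact N.zero_mem⟩
        add_mem' := fun {a b} ha hb => ⟨N.add_mem ha.1 hb.1, fun x => by
          rw [lie_add]; exact N.add_mem (ha.2 x) (hb.2 x)⟩
        smul_mem' := fun c a ha => ⟨N.smul_mem c ha.1, fun x => by
          rw [lie_smul]; exact N.smul_mem c (ha.2 x)⟩ }
    have hN'C : N' ∈ C := by
      refine ⟨?_, ?_⟩
      · intro s hs
        refine ⟨hSN hs, fun x => ?_⟩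
        obtain ⟨a, ha, b, hb, rfl⟩ := Submodule.mem_sup.mp (p.dec x)
        obtain ⟨a0, ha0, a1, ha1, rfl⟩ := Submodule.mem_sup.mp ha
        rw [add_lie, add_lie]
        refine N.add_mem (N.add_mem (hSN (hSZ a0 ha0 s hs)) ?_) ?_
        · have h1 : ⁅a1, s⁆ = 0 := by
            clear ha
            induction ha1 using Submodule.span_induction with
            | mem y hy =>
              obtain ⟨n, hn⟩ := hy
              exact hraise n y hn s (hSE hs)
            | zero => rw [zero_lie]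
            | add y z _ _ hy hz => rw [add_lie, hy, hz, add_zero]
            | smul c y _ hy => rw [smul_lie, hy, smul_zero]
          rw [h1]; exact N.zero_mem
        · clear ha
          induction hb using Submodule.span_induction with
          | mem y hy =>
            obtain ⟨n, hn⟩ := hy
            exact hNl n y hn s (hSN hs)
          | zero => rw [zero_lie]; exact N.zero_mem
          | add y z _ _ hy hz =>
            rw [add_lie]
            exact N.add_mem hy hz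
          | smul c y _ hy =>
            rw [smul_lie]
            exact N.smul_mem c hy
      · intro n y hy w hw
        refine ⟨hNl n y hy w hw.1, fun x => ?_⟩
        rw [leibniz_lie]
        exact N.add_mem (hw.2 _) (hNl n y hy _ (hw.2 x))
    have hNtop : N = ⊤ := by
      rcases irr_cases N (fun x v hv => (hNle N' hN'C hv).2 x) with h | h
      · exfalso
        apply hS0
        rw [eq_bot_iff, ← h]
        exact hSN
      · exact h
    have hNSD : N ≤ S ⊔ D := by
      apply hNle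
      refine ⟨le_sup_left, ?_⟩
      intro n y hy v hv
      obtain ⟨s, hs, d, hd, rfl⟩ := Submodule.mem_sup.mp hv
      rw [lie_add]
      apply Submodule.add_mem
      · apply Submodule.mem_sup_right
        have h1 := hshift _ _ y hy s (hSE hs)
        have h2 : μ + (-2 * ((n : ℂ) + 1)) = μ - 2 * (n + 1) := by ring
        rw [h2] at h1
        exact Submodule.mem_iSup_of_mem n h1
      · apply Submodule.mem_sup_right
        have h3 : D ≤ D.comap (toEnd ℂ L V y) := by
          apply iSup_le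
          intro k w hw
          have h1 := hshift _ _ y hy w hw
          have h2 : μ - 2 * ((k : ℂ) + 1) + (-2 * ((n : ℂ) + 1)) =
              μ - 2 * (((k + n + 1 : ℕ) : ℂ) + 1) := by push_cast; ring
          rw [h2] at h1
          exact Submodule.mem_iSup_of_mem (p := fun k : ℕ =>
            (toEnd ℂ L V p.h).eigenspace (μ - 2 * (k + 1))) (k + n + 1) h1
        exact h3 hd
    rw [hNtop] at hNSD
    refine ⟨?_, hNSD⟩
    intro w hw
    obtain ⟨s, hs, d, hd, hsd⟩ := Submodule.mem_sup.mp (hNSD (Submodule.mem_top (x := w)))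
    have h1 : d ∈ E := by
      have : d = w - s := by rw [← hsd]; abel
      rw [this]
      exact E.sub_mem hw (hSE hs)
    have h2 : d = 0 := (Submodule.disjoint_def.mp hED) d h1 hd
    rw [← hsd, h2, add_zero]
    exact hs
  -- the centre of the Levi acts by scalars
  have hEbot : E ≠ ⊥ := hμ
  have hscal : ∀ x ∈ p.Z, ∃ c : ℂ, ∀ v ∈ E, ⁅x, v⁆ = c • v := by
    intro x hx
    let T : E →ₗ[ℂ] E := (toEnd ℂ L V x).restrict (fun v hv => hzero x hx v hv)
    have : Nontrivial E := Submodule.nontrivial_iff_ne_bot.mpr hEbot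
    obtain ⟨c, hc⟩ := Module.End.exists_eigenvalue T
    refine ⟨c, ?_⟩
    have h1 : E ≤ E ⊓ (toEnd ℂ L V x).eigenspace c := by
      refine (key (E ⊓ (toEnd ℂ L V x).eigenspace c) inf_le_left ?_ ?_).1
      · obtain ⟨v, hv⟩ := hc.exists_hasEigenvector
        intro h
        apply hv.2
        have h2 : (v : V) ∈ E ⊓ (toEnd ℂ L V x).eigenspace c := by
          refine ⟨v.2, ?_⟩
          rw [SetLike.mem_coe, Module.End.mem_eigenspace_iff]
          have h3 := hv.apply_eq_smul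
          exact congrArg Subtype.val h3
        rw [h] at h2
        exact Subtype.ext h2
      · rintro y hy v ⟨hv1, hv2⟩
        refine ⟨hzero y hy v hv1, ?_⟩
        rw [SetLike.mem_coe, Module.End.mem_eigenspace_iff, LieModule.toEnd_apply_apply] at hv2 ⊢
        rw [leibniz_lie, p.ab x hx y hy, zero_lie, zero_add, hv2, lie_smul]
    intro v hv
    exact Module.End.mem_eigenspace_iff.mp (h1 hv).2
  obtain ⟨v, hvE, hv0⟩ := Submodule.exists_mem_ne_zero_of_ne_bot hEbot
  have hline := key (Submodule.span ℂ {v}) (by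
    rw [Submodule.span_singleton_le_iff_mem]; exact hvE) (by
    rw [Ne, Submodule.span_singleton_eq_bot]; exact hv0) (by
    intro x hx w hw
    obtain ⟨a, rfl⟩ := Submodule.mem_span_singleton.mp hw
    obtain ⟨c, hc⟩ := hscal x hx
    rw [lie_smul, hc v hvE]
    exact Submodule.smul_mem _ _ (Submodule.smul_mem _ _ (Submodule.mem_span_singleton_self v)))
  have hev : ⁅p.e, v⁆ = 0 := hraise 0 p.e (by rw [p.he]; norm_num) v hvE
  have hhv : ⁅p.h, v⁆ = μ • v := (memE μ v).mp hvE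
  -- the eigenvalue is a natural number
  obtain ⟨m, hm⟩ : ∃ m : ℕ, μ = m := by
    by_cases hh0 : p.h = 0
    · refine ⟨0, ?_⟩
      rw [hh0, zero_lie] at hhv
      rw [Nat.cast_zero]
      exact (smul_eq_zero.mp hhv.symm).resolve_right hv0
    · have ht : IsSl2Triple p.h p.e p.f := by
        refine ⟨hh0, p.ef, ?_, ?_⟩
        · rw [p.he, two_smul, two_smul]
        · rw [p.hf, neg_smul, two_smul, two_smul]
      have hP : ht.HasPrimitiveVectorWith v μ := ⟨hv0, hhv, hev⟩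
      exact hP.exists_nat
  refine ⟨m, v, hv0, hev, by rw [hhv, hm], ?_, ?_⟩
  · intro w hw
    have h1 : w ∈ E := by rw [hE, memE, hw, hm]
    obtain ⟨c, hc⟩ := Submodule.mem_span_singleton.mp (hline.1 h1)
    exact ⟨c, hc.symm⟩
  · refine hline.2.trans (sup_le ?_ ?_)
    · rw [Submodule.span_singleton_le_iff_mem]
      refine Submodule.mem_iSup_of_mem 0 ?_
      rw [Nat.cast_zero, mul_zero, sub_zero, ← hm]
      exact hvE
    · apply iSup_le
      intro k
      have h1 : μ - 2 * ((k : ℂ) + 1) = (m : ℂ) - 2 * ((k + 1 : ℕ) : ℂ) := by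
        rw [hm]; push_cast; ring
      rw [h1]
      exact le_iSup (fun k : ℕ => (toEnd ℂ L V p.h).eigenspace ((m : ℂ) - 2 * k)) (k + 1)

end

end Pool.Agent.Helper8
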