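import Mathlib
import Pool.Agent.Helper8.Lie.Frames8
import Pool.Agent.Helper8.Lie.TopLevel

/-!
Irreducible symplectic modules of dimension `2, 4, 6, 8`, as representations of a principal `sl_2`.
-/

open Module LieAlgebra LieModule

namespace Pool.Agent.Helper8

/-- an invariant symplectic form on a module -/
structure Symp (L : Type*) [LieRing L] {V : Type*} [AddCommGroup V] [Module ℂ V]
    [LieRingModule L V] (ω : V →ₗ[ℂ] V →ₗ[ℂ] ℂ) : Prop where
  alt : ∀ x y, ω x y = - ω y x
  nd : ∀ x, (∀ y, ω x y = 0) → x = 0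
  inv : ∀ (a : L) x y, ω ⁅a, x⁆ y = - ω x ⁅a, y⁆

section

variable {L : Type*} [LieRing L] [LieAlgebra ℂ L] (p : Principal L) {V : Type*} [AddCommGroup V]
  [Module ℂ V] [LieRingModule L V] [LieModule ℂ L V] [FiniteDimensional ℂ V]
  [LieModule.IsIrreducible ℂ L V] {ω : V →ₗ[ℂ] V →ₗ[ℂ] ℂ} (hω : Symp L ω)

/-- the representation of the principal `sl_2` -/
noncomputable def Principal.core : SpSl2Core V where
  e := toEnd ℂ L V p.e
  f := toEnd ℂ L V p.f
  h := toEnd ℂ L V p.h
  ω := ω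
  ef v := by
    simp only [LieModule.toEnd_apply_apply]
    rw [leibniz_lie, p.ef, add_sub_cancel_right]
  he v := by
    simp only [LieModule.toEnd_apply_apply]
    rw [leibniz_lie, p.he, add_sub_cancel_right, smul_lie]
  hf v := by
    simp only [LieModule.toEnd_apply_apply]
    rw [leibniz_lie, p.hf, add_sub_cancel_right, smul_lie]
  we x y := hω.inv _ x y
  wf x y := hω.inv _ x y
  wh x y := hω.inv _ x y
  alt := hω.alt
  nd := hω.nd
  diag := by
    obtain ⟨m, v, -, -, -, -, h⟩ := p.top (V := V)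
    rw [eq_top_iff]
    refine h.trans (iSup_le fun k => ?_)
    exact le_iSup (fun μ : ℂ => (toEnd ℂ L V p.h).eigenspace μ) _

include hω in
/-- data of the top weight -/
lemma Principal.top_data : ∃ (m : ℕ) (v : V), Odd m ∧ v ≠ 0 ∧ ⁅p.h, v⁆ = (m : ℂ) • v ∧
    (∀ w : V, ⁅p.h, w⁆ = (m : ℂ) • w → ∃ c : ℂ, w = c • v) ∧
    ∀ (μ : ℂ) (w : V), w ≠ 0 → ⁅p.h, w⁆ = μ • w → ∃ k : ℕ, μ = (m : ℂ) - 2 * k := by
  obtain ⟨m, v, hv0, hev, hhv, huniq, htop⟩ := p.top (V := V)
  have hwt : ∀ (μ : ℂ) (w : V), w ≠ 0 → ⁅p.h, w⁆ = μ • w → ∃ k : ℕ, μ = (m : ℂ) - 2 * k := by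
    intro μ w hw0 hw
    by_contra hcon
    push Not at hcon
    have h1 := Module.End.eigenspaces_iSupIndep (toEnd ℂ L V p.h) μ
    have h2 : (⊤ : Submodule ℂ V) ≤ ⨆ (j : ℂ) (_ : j ≠ μ), (toEnd ℂ L V p.h).eigenspace j := by
      refine htop.trans (iSup_le fun k => ?_)
      exact le_iSup₂_of_le ((m : ℂ) - 2 * k) (fun h => hcon k h.symm) le_rfl
    have h3 := h1.mono_right h2
    have h4 : w ∈ (toEnd ℂ L V p.h).eigenspace μ := by
      rw [Module.End.mem_eigenspace_iff]; exact hw
    exact hw0 ((Submodule.disjoint_def.mp h3) w h4 trivial)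
  refine ⟨m, v, ?_, hv0, hhv, huniq, hwt⟩
  -- parity
  set S := p.core hω with hS
  obtain ⟨y, hy, hvy⟩ := S.exists_pair (m : ℂ) v hv0 hhv
  have hf0 : (S.f ^ m) v ≠ 0 := by
    have hinj : ∀ j, j ≤ m → (S.f ^ j) v ≠ 0 := by
      intro j hj
      induction j with
      | zero => simpa using hv0
      | succ n ih =>
        intro h0
        have h1 := S.e_pow_f (m : ℂ) v hev hhv n
        rw [h0, map_zero] at h1
        rcases smul_eq_zero.mp h1.symm with h2 | h2
        · rcases mul_eq_zero.mp h2 with h3 | h3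
          · exact (Nat.cast_add_one_ne_zero n) h3
          · have h4 : (m : ℂ) = (n : ℂ) := sub_eq_zero.mp h3
            have h5 : m = n := by exact_mod_cast h4
            omega
        · exact ih (by omega) h2
    exact hinj m le_rfl
  have hfm : S.h ((S.f ^ m) v) = (-(m : ℂ)) • (S.f ^ m) v := by
    rw [S.h_pow_f (m : ℂ) v hhv]
    congr 1; ring
  -- the pairing is not zero
  have hne : S.ω v ((S.f ^ m) v) ≠ 0 := by
    intro h0
    apply hf0
    have key : S.ω v y • (S.f ^ m) v - S.ω v ((S.f ^ m) v) • y = 0 := by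
      apply S.nd
      intro z
      have hz : z ∈ ⨆ ν : ℂ, S.h.eigenspace ν := by rw [S.diag]; trivial
      induction hz using Submodule.iSup_induction' with
      | mem ν z hz =>
        rw [Module.End.mem_eigenspace_iff] at hz
        by_cases h : -(m : ℂ) + ν = 0
        · have hν : ν = m := by linear_combination h
          obtain ⟨c, rfl⟩ := huniq z (by rw [← hν]; exact hz)
          rw [map_smul, map_sub, LinearMap.sub_apply, map_smul, map_smul, LinearMap.smul_apply,
            LinearMap.smul_apply, smul_eq_mul, smul_eq_mul, S.alt y v, S.alt ((S.f ^ m) v) v]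
          rw [smul_eq_mul]; ring
        · refine S.om_weight (-(m : ℂ)) ν _ z ?_ hz h
          rw [map_sub, map_smul, map_smul, hfm, hy, smul_sub, smul_comm (S.ω v y) (-(m : ℂ)),
            smul_comm (S.ω v ((S.f ^ m) v)) (-(m : ℂ))]
      | zero => rw [map_zero]
      | add y z _ _ hy hz => rw [map_add, hy, hz, add_zero]
    rw [h0, zero_smul, sub_zero] at key
    exact (smul_eq_zero.mp key).resolve_left hvy
  have h1 : S.ω v ((S.f ^ m) v) = - ((-1) ^ m * S.ω v ((S.f ^ m) v)) := by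
    conv_lhs => rw [S.alt, S.om_pow]
  by_contra hodd
  rw [Nat.not_odd_iff_even] at hodd
  rw [hodd.neg_one_pow, one_mul] at h1
  apply hne
  have h2 : (2 : ℂ) * S.ω v ((S.f ^ m) v) = 0 := by linear_combination h1
  exact (mul_eq_zero.mp h2).resolve_left two_ne_zero

/-- the symplectic representation of the principal `sl_2` -/
noncomputable def Principal.rep : SpSl2 V where
  toSpSl2Core := p.core hω
  odd μ w hw0 hw := by
    obtain ⟨m, v, hodd, -, -, -, hwt⟩ := p.top_data hω
    obtain ⟨k, hk⟩ := hwt μ w hw0 hw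
    obtain ⟨l, hl⟩ := hodd
    refine ⟨l - k, ?_⟩
    rw [hk, hl]; push_cast; ring

/-- every weight is odd; form for vectors -/
lemma Principal.rep_e (v : V) : (p.rep hω).e v = ⁅p.e, v⁆ := rfl
lemma Principal.rep_f (v : V) : (p.rep hω).f v = ⁅p.f, v⁆ := rfl
lemma Principal.rep_h (v : V) : (p.rep hω).h v = ⁅p.h, v⁆ := rfl
lemma Principal.rep_ω : (p.rep hω).ω = ω := rfl

/-- the first block, and the blocks of the complement are smaller -/
lemma Principal.first_block : ∃ (m : ℕ) (x : V), Odd m ∧ (p.rep hω).Top x m ∧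
    ∀ (y : V) (k : ℕ), y ∈ (p.rep hω).perp x → y ≠ 0 → (p.rep hω).Top y k → k < m := by
  have : Nontrivial V := LieModule.nontrivial_of_isIrreducible ℂ L V
  obtain ⟨m0, v0, -, hv0, hv0m, huniq, hwt⟩ := p.top_data hω
  obtain ⟨m, x, hodd, T, hmax⟩ := (p.rep hω).step'
  have hx0 : x ≠ 0 := by
    rintro rfl
    have h1 := T.ω
    rw [map_zero] at h1
    exact zero_ne_one h1
  have hm : m = m0 := by
    obtain ⟨k, hk⟩ := hwt _ x hx0 T.h
    obtain ⟨l, hl, hl1, hl2⟩ := hmax _ v0 hv0 hv0m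
    have h1 : ((m : ℤ) : ℂ) = ((m0 - 2 * k : ℤ) : ℂ) := by push_cast; exact hk
    have h2 : (m : ℤ) = m0 - 2 * k := by exact_mod_cast h1
    have h3 : ((m0 : ℤ) : ℂ) = (l : ℂ) := by push_cast; exact hl
    have h4 : (m0 : ℤ) = l := by exact_mod_cast h3
    omega
  subst hm
  refine ⟨m, x, hodd, T, ?_⟩
  intro y k hy hy0 Ty
  obtain ⟨l, hl, hl1, -⟩ := hmax _ y hy0 Ty.h
  have h1 : ((k : ℤ) : ℂ) = (l : ℂ) := by push_cast; exact hl
  have h2 : (k : ℤ) = l := by exact_mod_cast h1
  have h3 : k ≤ m := by omega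
  rcases Nat.lt_or_ge k m with h | h
  · exact h
  · exfalso
    have h4 : k = m := le_antisymm h3 h
    subst h4
    obtain ⟨c, hc⟩ := huniq y Ty.h
    obtain ⟨c', hc'⟩ := huniq x T.h
    have h5 := hy k
    rw [hc] at h5
    have h6 := T.ω
    rw [(p.rep hω).alt, hc'] at h6
    rw [hc'] at h5
    have hc0 : c ≠ 0 := by
      rintro rfl
      exact hy0 (by rw [hc, zero_smul])
    simp only [map_smul, LinearMap.smul_apply, smul_eq_mul] at h5 h6
    have h7 : c' * (p.rep hω).ω (((p.rep hω).f ^ k) v0) v0 = 0 := by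
      have h8 : c * (c' * (p.rep hω).ω (((p.rep hω).f ^ k) v0) v0) = 0 := by
        linear_combination h5
      exact (mul_eq_zero.mp h8).resolve_left hc0
    have h9 : (0 : ℂ) = 1 := by linear_combination h6 + c' * h7
    exact zero_ne_one h9

end

end Pool.Agent.Helper8
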