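import Mathlib
import Pool.Agent.Helper8.Lie.Contr
import Pool.Agent.Helper8.Lie.IrrFrames

/-!
Invariant functions of two and four vectors: Schur's lemma, coordinates in adapted bases.
-/

open Module LieAlgebra LieModule

set_option linter.unusedVariables false
set_option linter.unusedSectionVars false

namespace Pool.Agent.Helper8

section inv

variable (L : Type*) [LieRing L] [LieAlgebra ℂ L]
  {V1 V2 V3 V4 : Type*} [AddCommGroup V1] [Module ℂ V1] [LieRingModule L V1]
  [AddCommGroup V2] [Module ℂ V2] [LieRingModule L V2]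
  [AddCommGroup V3] [Module ℂ V3] [LieRingModule L V3]
  [AddCommGroup V4] [Module ℂ V4] [LieRingModule L V4]

/-- invariant bilinear functions -/
def Inv2 (g : V1 → V2 → ℂ) : Prop := ∀ (a : L) x y, g ⁅a, x⁆ y + g x ⁅a, y⁆ = 0

/-- invariant functions of four vectors -/
def Inv4 (G : V1 → V2 → V3 → V4 → ℂ) : Prop :=
  ∀ (a : L) x y z w, G ⁅a, x⁆ y z w + G x ⁅a, y⁆ z w + G x y ⁅a, z⁆ w + G x y z ⁅a, w⁆ = 0

variable {L}

lemma Inv4.sub {F G : V1 → V2 → V3 → V4 → ℂ} (hF : Inv4 L F) (hG : Inv4 L G) :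
    Inv4 L (fun x y z w => F x y z w - G x y z w) := fun a x y z w => by
  linear_combination hF a x y z w - hG a x y z w

lemma Inv4.const_mul {G : V1 → V2 → V3 → V4 → ℂ} (c : ℂ) (hG : Inv4 L G) :
    Inv4 L (fun x y z w => c * G x y z w) := fun a x y z w => by
  linear_combination c * hG a x y z w

lemma Inv4.prod1 {f : V1 → V2 → ℂ} {g : V3 → V4 → ℂ} (hf : Inv2 L f) (hg : Inv2 L g) :
    Inv4 L (fun x y z w => f x y * g z w) := fun a x y z w => by
  linear_combination (g z w) * hf a x y + (f x y) * hg a z w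

lemma Inv4.prod2 {f : V1 → V3 → ℂ} {g : V2 → V4 → ℂ} (hf : Inv2 L f) (hg : Inv2 L g) :
    Inv4 L (fun x y z w => f x z * g y w) := fun a x y z w => by
  linear_combination (g y w) * hf a x z + (f x z) * hg a y w

lemma Inv4.prod3 {f : V1 → V4 → ℂ} {g : V2 → V3 → ℂ} (hf : Inv2 L f) (hg : Inv2 L g) :
    Inv4 L (fun x y z w => f x w * g y z) := fun a x y z w => by
  linear_combination (g y z) * hf a x w + (f x w) * hg a y z

end inv

section schur

variable {L : Type*} [LieRing L] [LieAlgebra ℂ L]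
  {V : Type*} [AddCommGroup V] [Module ℂ V] [LieRingModule L V] [LieModule ℂ L V]
  [FiniteDimensional ℂ V] [LieModule.IsIrreducible ℂ L V]
  {ω : V →ₗ[ℂ] V →ₗ[ℂ] ℂ} (hω : Symp L ω)

lemma Symp.inv2 (hω : Symp L ω) : Inv2 L (fun x y => ω x y) := fun a x y => by
  show ω ⁅a, x⁆ y + ω x ⁅a, y⁆ = 0
  rw [hω.inv]; ring

/-- the linear map attached to a bilinear function -/
lemma exists_linear {V W : Type*} [AddCommGroup V] [Module ℂ V] [AddCommGroup W] [Module ℂ W]
    {g : V → W → ℂ} (hg : ML2 g) : ∃ β : V →ₗ[ℂ] W →ₗ[ℂ] ℂ, ∀ x y, β x y = g x y :=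
  ⟨LinearMap.mk₂ ℂ g (fun a b c => (hg.l1 c).map_add a b) (fun c a b => (hg.l1 b).map_smul c a)
    (fun a b c => (hg.l2 a).map_add b c) (fun c a b => (hg.l2 a).map_smul c b),
    fun x y => rfl⟩

include hω in
theorem schur {g : V → V → ℂ} (hg : ML2 g) (hI : Inv2 L g) : ∃ c : ℂ, ∀ x y, g x y = c * ω x y := by
  have : Nontrivial V := LieModule.nontrivial_of_isIrreducible ℂ L V
  obtain ⟨β, hβ⟩ := exists_linear hg
  have hinj : Function.Injective ω := by
    rw [← LinearMap.ker_eq_bot, Submodule.eq_bot_iff]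
    intro x hx
    exact hω.nd x fun y => by rw [LinearMap.mem_ker.mp hx]; rfl
  let Φ : V ≃ₗ[ℂ] Module.Dual ℂ V :=
    LinearEquiv.ofInjectiveOfFinrankEq ω hinj (Subspace.dual_finrank_eq).symm
  have hΦ : ∀ x, Φ x = ω x := fun x => rfl
  let T : V →ₗ[ℂ] V := Φ.symm.toLinearMap ∘ₗ β
  have hT : ∀ x y, ω (T x) y = g x y := by
    intro x y
    have h1 : Φ (T x) = β x := Φ.apply_symm_apply (β x)
    rw [hΦ] at h1
    rw [h1, hβ]
  have hTL : ∀ (a : L) x, T ⁅a, x⁆ = ⁅a, T x⁆ := by
    intro a x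
    rw [← sub_eq_zero]
    apply hω.nd
    intro y
    rw [map_sub, LinearMap.sub_apply, hω.inv, hT]
    have h1 := hI a x y
    rw [hT]
    linear_combination h1
  obtain ⟨c, hc⟩ := Module.End.exists_eigenvalue T
  have h1 : Module.End.eigenspace T c = ⊤ := by
    rcases irr_cases (L := L) (Module.End.eigenspace T c) (fun a v hv => by
      rw [Module.End.mem_eigenspace_iff] at hv ⊢
      rw [hTL, hv, lie_smul]) with h | h
    · exact absurd h hc
    · exact h
  refine ⟨c, fun x y => ?_⟩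
  have h2 : x ∈ Module.End.eigenspace T c := by rw [h1]; trivial
  rw [Module.End.mem_eigenspace_iff] at h2
  rw [← hT, h2, map_smul, LinearMap.smul_apply, smul_eq_mul]

end schur

end Pool.Agent.Helper8
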