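import Mathlib
import Pool.Agent.Helper8.Lie.ModLemmas

/-!
Invariant functions in coordinates.
-/

open Module LieAlgebra LieModule

set_option linter.unusedVariables false
set_option linter.unusedSectionVars false

namespace Pool.Agent.Helper8

section frames

variable {L : Type*} [LieRing L] [LieAlgebra ℂ L] {p : Principal L}

/-- vectors adapted to a principal triple -/
structure Adapted {V : Type*} [AddCommGroup V] [Module ℂ V] [LieRingModule L V] (p : Principal L)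
    (ω : V →ₗ[ℂ] V →ₗ[ℂ] ℂ) (d : ℕ) [NeZero d] (up wt : Fin d → ℤ) (g : Fin d → Fin d → ℤ) where
  b : Basis (Fin d) ℂ V
  e_b : ∀ j, ⁅p.e, b j⁆ = (up j : ℂ) • b (j - 1)
  h_b : ∀ j, ⁅p.h, b j⁆ = (wt j : ℂ) • b j
  g_b : ∀ i j, ω (b i) (b j) = (g i j : ℂ)

/-- from frames -/
noncomputable def Adapted.of {V : Type*} [AddCommGroup V] [Module ℂ V] [LieRingModule L V]
    [LieModule ℂ L V] [FiniteDimensional ℂ V] [LieModule.IsIrreducible ℂ L V]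
    {ω : V →ₗ[ℂ] V →ₗ[ℂ] ℂ} (hω : Symp L ω) {d : ℕ} [NeZero d] {up wt : Fin d → ℤ}
    {g : Fin d → Fin d → ℤ} (Fr : (p.rep hω).Frame d up wt g) : Adapted p ω d up wt g where
  b := Fr.b
  e_b := Fr.e_b
  h_b := Fr.h_b
  g_b := Fr.g_b

section dual

variable {V : Type*} [AddCommGroup V] [Module ℂ V] [LieRingModule L V]
    {ω : V →ₗ[ℂ] V →ₗ[ℂ] ℂ} {d : ℕ} [NeZero d] {up wt : Fin d → ℤ}
    {g : Fin d → Fin d → ℤ} (Fr : Adapted p ω d up wt g)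

/-- the dual family of an adapted basis -/
noncomputable def Adapted.c (σ : Fin d → Fin d) (i : Fin d) : V := (g i (σ i) : ℂ) • Fr.b (σ i)

lemma Adapted.dual (alt : ∀ x y, ω x y = - ω y x) (σ : Fin d → Fin d)
    (h1 : ∀ i k, g k (σ i) * g i (σ i) = if k = i then 1 else 0) (h2 : ∀ i, σ (σ i) = i)
    (h3 : ∀ i, g (σ i) i = - g i (σ i)) : Dual ω Fr.b (Fr.c σ) := by
  have d3 : ∀ i j, ω (Fr.b i) (Fr.c σ j) = if i = j then 1 else 0 := by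
    intro i j
    rw [Adapted.c, map_smul, Fr.g_b, smul_eq_mul]
    have h := h1 j i
    have h' : ((g i (σ j) * g j (σ j) : ℤ) : ℂ) = if i = j then 1 else 0 := by
      rw [h]; split_ifs <;> simp
    push_cast at h'
    rw [mul_comm]; exact h'
  have d1 : ∀ v, v = ∑ i, ω v (Fr.c σ i) • Fr.b i := by
    intro v
    conv_lhs => rw [← Fr.b.sum_repr v]
    refine Finset.sum_congr rfl fun i _ => ?_
    congr 1
    conv_rhs => rw [← Fr.b.sum_repr v]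
    rw [map_sum, LinearMap.sum_apply, Finset.sum_eq_single i]
    · rw [map_smul, LinearMap.smul_apply, d3, if_pos rfl, smul_eq_mul, mul_one]
    · intro j _ hj
      rw [map_smul, LinearMap.smul_apply, d3, if_neg hj, smul_zero]
    · intro h; exact absurd (Finset.mem_univ _) h
  refine ⟨d1, ?_, d3⟩
  intro w
  conv_lhs => rw [d1 w]
  let e : Fin d ≃ Fin d := ⟨σ, σ, h2, h2⟩
  rw [← Equiv.sum_comp e]
  refine Finset.sum_congr rfl fun i _ => ?_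
  show ω w (Fr.c σ (σ i)) • Fr.b (σ i) = ω (Fr.b i) w • Fr.c σ i
  rw [Adapted.c, Adapted.c, h2, h3, map_smul, smul_smul, alt w]
  congr 1
  push_cast
  rw [smul_eq_mul]; ring

end dual

section coords

variable
  {V1 V2 V3 V4 : Type*} [AddCommGroup V1] [Module ℂ V1] [LieRingModule L V1]
  [AddCommGroup V2] [Module ℂ V2] [LieRingModule L V2]
  [AddCommGroup V3] [Module ℂ V3] [LieRingModule L V3]
  [AddCommGroup V4] [Module ℂ V4] [LieRingModule L V4]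
  {ω1 : V1 →ₗ[ℂ] V1 →ₗ[ℂ] ℂ} {ω2 : V2 →ₗ[ℂ] V2 →ₗ[ℂ] ℂ}
  {ω3 : V3 →ₗ[ℂ] V3 →ₗ[ℂ] ℂ} {ω4 : V4 →ₗ[ℂ] V4 →ₗ[ℂ] ℂ}
  {d1 : ℕ} [NeZero d1] {up1 wt1 : Fin d1 → ℤ} {g1 : Fin d1 → Fin d1 → ℤ}
  {d2 : ℕ} [NeZero d2] {up2 wt2 : Fin d2 → ℤ} {g2 : Fin d2 → Fin d2 → ℤ}
  {d3 : ℕ} [NeZero d3] {up3 wt3 : Fin d3 → ℤ} {g3 : Fin d3 → Fin d3 → ℤ}
  {d4 : ℕ} [NeZero d4] {up4 wt4 : Fin d4 → ℤ} {g4 : Fin d4 → Fin d4 → ℤ}
  (F1 : Adapted p ω1 d1 up1 wt1 g1) (F2 : Adapted p ω2 d2 up2 wt2 g2)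
  (F3 : Adapted p ω3 d3 up3 wt3 g3) (F4 : Adapted p ω4 d4 up4 wt4 g4)
  {G : V1 → V2 → V3 → V4 → ℂ} (hG : ML4 G) (hI : Inv4 L G)

include hG hI

lemma coord_h (i : Fin d1) (j : Fin d2) (k : Fin d3) (l : Fin d4) :
    ((wt1 i + wt2 j + wt3 k + wt4 l : ℤ) : ℂ) * G (F1.b i) (F2.b j) (F3.b k) (F4.b l) = 0 := by
  have h := hI p.h (F1.b i) (F2.b j) (F3.b k) (F4.b l)
  rw [F1.h_b, F2.h_b, F3.h_b, F4.h_b, (hG.l1 _ _ _).map_smul, (hG.l2 _ _ _).map_smul,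
    (hG.l3 _ _ _).map_smul, (hG.l4 _ _ _).map_smul] at h
  simp only [smul_eq_mul] at h
  push_cast
  linear_combination h

lemma coord_e (i : Fin d1) (j : Fin d2) (k : Fin d3) (l : Fin d4) :
    (up1 i : ℂ) * G (F1.b (i - 1)) (F2.b j) (F3.b k) (F4.b l) +
    (up2 j : ℂ) * G (F1.b i) (F2.b (j - 1)) (F3.b k) (F4.b l) +
    (up3 k : ℂ) * G (F1.b i) (F2.b j) (F3.b (k - 1)) (F4.b l) +
    (up4 l : ℂ) * G (F1.b i) (F2.b j) (F3.b k) (F4.b (l - 1)) = 0 := by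
  have h := hI p.e (F1.b i) (F2.b j) (F3.b k) (F4.b l)
  rw [F1.e_b, F2.e_b, F3.e_b, F4.e_b, (hG.l1 _ _ _).map_smul, (hG.l2 _ _ _).map_smul,
    (hG.l3 _ _ _).map_smul, (hG.l4 _ _ _).map_smul] at h
  simp only [smul_eq_mul] at h
  exact h

end coords

end frames

end Pool.Agent.Helper8
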