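import Mathlib

/-!
Weights, raising coefficients and Gram matrices of the adapted bases of the symplectic
representations of `sl_2` with odd weights and simple top weight, in dimensions `2, 4, 6, 8`.
-/

namespace Pool.Agent.Helper8

def up2 : Fin 2 → ℤ := ![0, 1]
def wt2 : Fin 2 → ℤ := ![1, -1]
def g2 : Fin 2 → Fin 2 → ℤ := ![![0, 1], ![-1, 0]]

def up4 : Fin 4 → ℤ := ![0, 3, 4, 3]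
def wt4 : Fin 4 → ℤ := ![3, 1, -1, -3]
def g4 : Fin 4 → Fin 4 → ℤ := ![![0, 0, 0, 1], ![0, 0, -1, 0], ![0, 1, 0, 0], ![-1, 0, 0, 0]]

def up6a : Fin 6 → ℤ := ![0, 5, 8, 9, 8, 5]
def wt6a : Fin 6 → ℤ := ![5, 3, 1, -1, -3, -5]
def g6a : Fin 6 → Fin 6 → ℤ := ![![0, 0, 0, 0, 0, 1], ![0, 0, 0, 0, -1, 0], ![0, 0, 0, 1, 0, 0],
  ![0, 0, -1, 0, 0, 0], ![0, 1, 0, 0, 0, 0], ![-1, 0, 0, 0, 0, 0]]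

def up6b : Fin 6 → ℤ := ![0, 3, 4, 3, 0, 1]
def wt6b : Fin 6 → ℤ := ![3, 1, -1, -3, 1, -1]
def g6b : Fin 6 → Fin 6 → ℤ := ![![0, 0, 0, 1, 0, 0], ![0, 0, -1, 0, 0, 0], ![0, 1, 0, 0, 0, 0],
  ![-1, 0, 0, 0, 0, 0], ![0, 0, 0, 0, 0, 1], ![0, 0, 0, 0, -1, 0]]

def up8a : Fin 8 → ℤ := ![0, 7, 12, 15, 16, 15, 12, 7]
def wt8a : Fin 8 → ℤ := ![7, 5, 3, 1, -1, -3, -5, -7]
def g8a : Fin 8 → Fin 8 → ℤ := ![![0, 0, 0, 0, 0, 0, 0, 1], ![0, 0, 0, 0, 0, 0, -1, 0],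
  ![0, 0, 0, 0, 0, 1, 0, 0], ![0, 0, 0, 0, -1, 0, 0, 0], ![0, 0, 0, 1, 0, 0, 0, 0],
  ![0, 0, -1, 0, 0, 0, 0, 0], ![0, 1, 0, 0, 0, 0, 0, 0], ![-1, 0, 0, 0, 0, 0, 0, 0]]

def up8b : Fin 8 → ℤ := ![0, 5, 8, 9, 8, 5, 0, 1]
def wt8b : Fin 8 → ℤ := ![5, 3, 1, -1, -3, -5, 1, -1]
def g8b : Fin 8 → Fin 8 → ℤ := ![![0, 0, 0, 0, 0, 1, 0, 0], ![0, 0, 0, 0, -1, 0, 0, 0],
  ![0, 0, 0, 1, 0, 0, 0, 0], ![0, 0, -1, 0, 0, 0, 0, 0], ![0, 1, 0, 0, 0, 0, 0, 0],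
  ![-1, 0, 0, 0, 0, 0, 0, 0], ![0, 0, 0, 0, 0, 0, 0, 1], ![0, 0, 0, 0, 0, 0, -1, 0]]

def up8c : Fin 8 → ℤ := ![0, 3, 4, 3, 0, 1, 0, 1]
def wt8c : Fin 8 → ℤ := ![3, 1, -1, -3, 1, -1, 1, -1]
def g8c : Fin 8 → Fin 8 → ℤ := ![![0, 0, 0, 1, 0, 0, 0, 0], ![0, 0, -1, 0, 0, 0, 0, 0],
  ![0, 1, 0, 0, 0, 0, 0, 0], ![-1, 0, 0, 0, 0, 0, 0, 0], ![0, 0, 0, 0, 0, 1, 0, 0],
  ![0, 0, 0, 0, -1, 0, 0, 0], ![0, 0, 0, 0, 0, 0, 0, 1], ![0, 0, 0, 0, 0, 0, -1, 0]]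

end Pool.Agent.Helper8
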