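import Mathlib
import Pool.Agent.Helper8.Lie.FrameDefs

/-!
Numerical lemmas on invariant forms of mixed type, in coordinates.
-/

namespace Pool.Agent.Helper8

/-- primitive alternating 3-forms in dimension 4 vanish -/
theorem num3 (F : Fin 4 → Fin 4 → Fin 4 → ℂ) (a1 : ∀ i j k, F j i k = - F i j k)
    (a2 : ∀ i j k, F i k j = - F i j k) (hc : ∀ i, F i 0 3 - F i 1 2 = 0) (i j k : Fin 4) :
    F i j k = 0 := by
  have z1 : ∀ i k, F i i k = 0 := fun i k => by linear_combination (1/2) * a1 i i k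
  have z2 : ∀ i k, F i k k = 0 := fun i k => by linear_combination (1/2) * a2 i k k
  have h012 : F 0 1 2 = 0 := by linear_combination z1 0 3 - hc 0
  have h013 : F 0 1 3 = 0 := by linear_combination -(hc 1) - z1 1 2 + a1 0 1 3
  have h023 : F 0 2 3 = 0 := by
    have h1 := hc 2
    have h2 : F 2 1 2 = 0 := by linear_combination a1 1 2 2 - z2 1 2
    have h3 : F 2 0 3 = - F 0 2 3 := a1 0 2 3
    linear_combination -h1 - h2 + h3
  have h123 : F 1 2 3 = 0 := by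
    have h1 := hc 3
    have h2 : F 3 0 3 = 0 := by linear_combination a1 0 3 3 - z2 0 3
    have h3 : F 3 1 2 = F 1 2 3 := by linear_combination a1 1 3 2 - a2 1 2 3
    linear_combination -h1 + h2 - h3
  have s0 : ∀ i j k : Fin 4, i < j → j < k → F i j k = 0 := by
    intro i j k hij hjk
    have hcase : ∀ i j k : Fin 4, i < j → j < k →
        (i, j, k) ∈ ([(0, 1, 2), (0, 1, 3), (0, 2, 3), (1, 2, 3)] :
          List (Fin 4 × Fin 4 × Fin 4)) := by decide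
    have hc2 := hcase i j k hij hjk
    simp only [List.mem_cons, Prod.mk.injEq, List.not_mem_nil, or_false] at hc2
    rcases hc2 with ⟨rfl, rfl, rfl⟩ | ⟨rfl, rfl, rfl⟩ | ⟨rfl, rfl, rfl⟩ | ⟨rfl, rfl, rfl⟩
    · exact h012
    · exact h013
    · exact h023
    · exact h123
  have s1 : ∀ i j k : Fin 4, j < k → F i j k = 0 := by
    intro i j k hjk
    rcases lt_trichotomy i j with h1 | rfl | h1
    · exact s0 i j k h1 hjk
    · exact z1 i k
    · rw [a1 j i k, neg_eq_zero]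
      rcases lt_trichotomy i k with h2 | rfl | h2
      · exact s0 j i k h1 h2
      · exact z2 j i
      · rw [a2 j k i, neg_eq_zero]
        exact s0 j k i hjk h2
  rcases lt_trichotomy j k with h1 | rfl | h1
  · exact s1 i j k h1
  · exact z2 i j
  · rw [a2 i k j, neg_eq_zero]
    exact s1 i k j h1

section sorted

theorem sorted3 {d : ℕ} (F : Fin d → Fin d → Fin d → ℂ) (a1 : ∀ i j k, F j i k = - F i j k)
    (a2 : ∀ i j k, F i k j = - F i j k) (s0 : ∀ i j k, i < j → j < k → F i j k = 0)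
    (i j k : Fin d) : F i j k = 0 := by
  have z1 : ∀ i k, F i i k = 0 := fun i k => by linear_combination (1/2) * a1 i i k
  have z2 : ∀ i k, F i k k = 0 := fun i k => by linear_combination (1/2) * a2 i k k
  have s1 : ∀ i j k : Fin d, j < k → F i j k = 0 := by
    intro i j k hjk
    rcases lt_trichotomy i j with h1 | rfl | h1
    · exact s0 i j k h1 hjk
    · exact z1 i k
    · rw [a1 j i k, neg_eq_zero]
      rcases lt_trichotomy i k with h2 | rfl | h2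
      · exact s0 j i k h1 h2
      · exact z2 j i
      · rw [a2 j k i, neg_eq_zero]
        exact s0 j k i hjk h2
  rcases lt_trichotomy j k with h1 | rfl | h1
  · exact s1 i j k h1
  · exact z2 i j
  · rw [a2 i k j, neg_eq_zero]
    exact s1 i k j h1

theorem sorted2 {d : ℕ} (F : Fin d → Fin d → ℂ) (a1 : ∀ i j, F j i = - F i j)
    (s0 : ∀ i j, i < j → F i j = 0) (i j : Fin d) : F i j = 0 := by
  rcases lt_trichotomy i j with h1 | rfl | h1
  · exact s0 i j h1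
  · linear_combination (1/2) * a1 i i
  · rw [a1 j i, s0 j i h1, neg_zero]

end sorted

theorem num31_6a (F : Fin 6 → Fin 6 → Fin 6 → Fin 2 → ℂ)
    (a1 : ∀ i j k l, F j i k l = - F i j k l)
    (a2 : ∀ i j k l, F i k j l = - F i j k l)
    (hw : ∀ i j k l, ((wt6a i + wt6a j + wt6a k + wt2 l : ℤ) : ℂ) * F i j k l = 0)
    (he : ∀ i j k l, (up6a i : ℂ) * F (i - 1) j k l + (up6a j : ℂ) * F i (j - 1) k l + (up6a k : ℂ) * F i j (k - 1) l + (up2 l : ℂ) * F i j k (l - 1) = 0)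
    (hc0 : ∀ k l, (1) * F 0 5 k l + (-1) * F 1 4 k l + (1) * F 2 3 k l = 0)
    : ∀ i j k l, F i j k l = 0 := by
  have z1 : ∀ i k l, F i i k l = 0 := fun i k l => by linear_combination (1/2) * a1 i i k l
  have z2 : ∀ i j l, F i j j l = 0 := fun i j l => by linear_combination (1/2) * a2 i j j l
  have h0 : 9 * F 0 2 5 1 + 5 * F 0 3 4 1 + 1 * F 0 3 5 0 = 0 := by
      simpa [up2, up6a, z1, z2] using he 0 3 5 1
  have h1 : 8 * F 0 3 5 0 = 0 := by
      simpa [up2, up6a, z1, z2] using he 0 4 5 0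
  have h2 : 5 * F 0 2 5 1 + 5 * F 1 2 4 1 + 1 * F 1 2 5 0 = 0 := by
      simpa [up2, up6a, z1, z2] using he 1 2 5 1
  have h3 : 5 * F 0 3 4 1 + 9 * F 1 2 4 1 + 1 * F 1 3 4 0 = 0 := by
      simpa [up2, up6a, z1, z2] using he 1 3 4 1
  have h4 : 5 * F 0 3 5 0 + 9 * F 1 2 5 0 + 5 * F 1 3 4 0 = 0 := by
      simpa [up2, up6a, z1, z2] using he 1 3 5 0
  have h5 : 8 * F 1 3 4 0 = 0 := by
      simpa [up2, up6a, z1, z2] using he 2 3 4 0
  have k0251 : F 0 2 5 1 = 0 := by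
      linear_combination (1/18) * h0 + (1/10) * h2 + (-1/18) * h3 + (-1/90) * h4 + (1/72) * h5
  have k0341 : F 0 3 4 1 = 0 := by
      linear_combination (-9/50) * h2 + (1/10) * h0 + (-1/40) * h1 + (1/10) * h3 + (1/50) * h4 + (-1/40) * h5
  have k0350 : F 0 3 5 0 = 0 := by
      linear_combination (1/8) * h1
  have k1241 : F 1 2 4 1 = 0 := by
      linear_combination (1/18) * h3 + (1/10) * h2 + (-1/18) * h0 + (1/72) * h1 + (-1/90) * h4
  have k1250 : F 1 2 5 0 = 0 := by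
      linear_combination (1/9) * h4 + (-5/72) * h1 + (-5/72) * h5
  have k1340 : F 1 3 4 0 = 0 := by
      linear_combination (1/8) * h5
  intro i j k l
  refine sorted3 (fun i j k => F i j k l) (fun i j k => a1 i j k l) (fun i j k => a2 i j k l) ?_ i j k
  intro i j k hij hjk
  show F i j k l = 0
  by_cases h0 : wt6a i + wt6a j + wt6a k + wt2 l = 0
  · have hcase : ∀ (i j k : Fin 6) (l : Fin 2), i < j → j < k →
        wt6a i + wt6a j + wt6a k + wt2 l = 0 →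
        (i, j, k, l) ∈ ([(0, 2, 5, 1), (0, 3, 4, 1), (0, 3, 5, 0), (1, 2, 4, 1), (1, 2, 5, 0), (1, 3, 4, 0)] :
          List (Fin 6 × Fin 6 × Fin 6 × Fin 2)) := by decide
    have hc2 := hcase i j k l hij hjk h0
    simp only [List.mem_cons, Prod.mk.injEq, List.not_mem_nil, or_false] at hc2
    rcases hc2 with ⟨rfl, rfl, rfl, rfl⟩ | ⟨rfl, rfl, rfl, rfl⟩ | ⟨rfl, rfl, rfl, rfl⟩ | ⟨rfl, rfl, rfl, rfl⟩ | ⟨rfl, rfl, rfl, rfl⟩ | ⟨rfl, rfl, rfl, rfl⟩
    · exact k0251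
    · exact k0341
    · exact k0350
    · exact k1241
    · exact k1250
    · exact k1340
  · refine (mul_eq_zero.mp (hw i j k l)).resolve_left ?_
    exact_mod_cast h0

theorem num31_6b (F : Fin 6 → Fin 6 → Fin 6 → Fin 2 → ℂ)
    (a1 : ∀ i j k l, F j i k l = - F i j k l)
    (a2 : ∀ i j k l, F i k j l = - F i j k l)
    (hw : ∀ i j k l, ((wt6b i + wt6b j + wt6b k + wt2 l : ℤ) : ℂ) * F i j k l = 0)
    (he : ∀ i j k l, (up6b i : ℂ) * F (i - 1) j k l + (up6b j : ℂ) * F i (j - 1) k l + (up6b k : ℂ) * F i j (k - 1) l + (up2 l : ℂ) * F i j k (l - 1) = 0)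
    (hc0 : ∀ k l, (1) * F 0 3 k l + (-1) * F 1 2 k l + (1) * F 4 5 k l = 0)
    : ∀ i j k l, F i j k l = 0 := by
  have z1 : ∀ i k l, F i i k l = 0 := fun i k l => by linear_combination (1/2) * a1 i i k l
  have z2 : ∀ i j l, F i j j l = 0 := fun i j l => by linear_combination (1/2) * a2 i j j l
  have h0 : 4 * F 0 1 3 1 + 1 * F 0 2 3 0 = 0 := by
      simpa [up2, up6b, z1, z2] using he 0 2 3 1
  have h1 : 3 * F 0 2 5 1 + 1 * F 0 3 4 1 + 1 * F 0 3 5 0 = 0 := by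
      simpa [up2, up6b, z1, z2] using he 0 3 5 1
  have h2 : 3 * F 0 2 3 0 = 0 := by
      simpa [up2, up6b, z1, z2] using he 1 2 3 0
  have h3 : 3 * F 0 2 5 1 + 1 * F 1 2 4 1 + 1 * F 1 2 5 0 = 0 := by
      simpa [up2, up6b, z1, z2] using he 1 2 5 1
  have h4 : 3 * F 0 3 4 1 + 3 * F 1 2 4 1 + 1 * F 1 3 4 0 = 0 := by
      simpa [up2, up6b, z1, z2] using he 1 3 4 1
  have h5 : 3 * F 0 3 5 0 + 3 * F 1 2 5 0 + 1 * F 1 3 4 0 = 0 := by
      simpa [up2, up6b, z1, z2] using he 1 3 5 0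
  have h6 : 4 * F 1 3 4 0 = 0 := by
      simpa [up2, up6b, z1, z2] using he 2 3 4 0
  have h8 : 3 * F 2 4 5 0 = 0 := by
      simpa [up2, up6b, z1, z2] using he 3 4 5 0
  have h9 : (-1) * F 0 1 3 1 + 1 * F 1 4 5 1 = 0 := by
      linear_combination hc0 1 1 - 1 * a2 0 1 3 1 - (-1) * a2 1 1 2 1 - (1/2) * a1 1 1 2 1 - 1 * a2 4 1 5 1 - (-1) * a1 1 4 5 1
  have h11 : 1 * F 0 3 4 1 + (-1) * F 1 2 4 1 = 0 := by
      linear_combination hc0 4 1 - 1 * a2 4 4 5 1 - (-1/2) * a1 4 4 5 1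
  have k0131 : F 0 1 3 1 = 0 := by
      linear_combination (1/4) * h0 + (-1/12) * h2
  have k0230 : F 0 2 3 0 = 0 := by
      linear_combination (1/3) * h2
  have k0251 : F 0 2 5 1 = 0 := by
      linear_combination (1/6) * h1 + (1/6) * h3 + (-1/18) * h5 + (-1/18) * h4 + (1/36) * h6
  have k0341 : F 0 3 4 1 = 0 := by
      linear_combination (1/6) * h4 + (1/2) * h11 + (-1/24) * h6
  have k0350 : F 0 3 5 0 = 0 := by
      linear_combination (-1/2) * h3 + (1/2) * h1 + (1/6) * h5 + (-1/2) * h11 + (-1/24) * h6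
  have k1241 : F 1 2 4 1 = 0 := by
      linear_combination (1/6) * h4 + (-1/2) * h11 + (-1/24) * h6
  have k1250 : F 1 2 5 0 = 0 := by
      linear_combination (1/2) * h11 + (1/2) * h3 + (-1/2) * h1 + (1/6) * h5 + (-1/24) * h6
  have k1340 : F 1 3 4 0 = 0 := by
      linear_combination (1/4) * h6
  have k1451 : F 1 4 5 1 = 0 := by
      linear_combination 1 * h9 + (1/4) * h0 + (-1/12) * h2
  have k2450 : F 2 4 5 0 = 0 := by
      linear_combination (1/3) * h8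
  intro i j k l
  refine sorted3 (fun i j k => F i j k l) (fun i j k => a1 i j k l) (fun i j k => a2 i j k l) ?_ i j k
  intro i j k hij hjk
  show F i j k l = 0
  by_cases h0 : wt6b i + wt6b j + wt6b k + wt2 l = 0
  · have hcase : ∀ (i j k : Fin 6) (l : Fin 2), i < j → j < k →
        wt6b i + wt6b j + wt6b k + wt2 l = 0 →
        (i, j, k, l) ∈ ([(0, 1, 3, 1), (0, 2, 3, 0), (0, 2, 5, 1), (0, 3, 4, 1), (0, 3, 5, 0), (1, 2, 4, 1), (1, 2, 5, 0), (1, 3, 4, 0), (1, 4, 5, 1), (2, 4, 5, 0)] :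
          List (Fin 6 × Fin 6 × Fin 6 × Fin 2)) := by decide
    have hc2 := hcase i j k l hij hjk h0
    simp only [List.mem_cons, Prod.mk.injEq, List.not_mem_nil, or_false] at hc2
    rcases hc2 with ⟨rfl, rfl, rfl, rfl⟩ | ⟨rfl, rfl, rfl, rfl⟩ | ⟨rfl, rfl, rfl, rfl⟩ | ⟨rfl, rfl, rfl, rfl⟩ | ⟨rfl, rfl, rfl, rfl⟩ | ⟨rfl, rfl, rfl, rfl⟩ | ⟨rfl, rfl, rfl, rfl⟩ | ⟨rfl, rfl, rfl, rfl⟩ | ⟨rfl, rfl, rfl, rfl⟩ | ⟨rfl, rfl, rfl, rfl⟩
    · exact k0131
    · exact k0230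
    · exact k0251
    · exact k0341
    · exact k0350
    · exact k1241
    · exact k1250
    · exact k1340
    · exact k1451
    · exact k2450
  · refine (mul_eq_zero.mp (hw i j k l)).resolve_left ?_
    exact_mod_cast h0

lemma g4_alt : ∀ i j, g4 i j = - g4 j i := by decide

theorem num22 (F : Fin 4 → Fin 4 → Fin 4 → Fin 4 → ℂ)
    (a1 : ∀ i j k l, F j i k l = - F i j k l)
    (a3 : ∀ i j k l, F i j l k = - F i j k l)
    (hw : ∀ i j k l, ((wt4 i + wt4 j + wt4 k + wt4 l : ℤ) : ℂ) * F i j k l = 0)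
    (he : ∀ i j k l, (up4 i : ℂ) * F (i - 1) j k l + (up4 j : ℂ) * F i (j - 1) k l + (up4 k : ℂ) * F i j (k - 1) l + (up4 l : ℂ) * F i j k (l - 1) = 0)
    (hc0 : ∀ k l, (1) * F 0 3 k l + (-1) * F 1 2 k l = 0)
    (hc1 : ∀ i j, (1) * F i j 0 3 + (-1) * F i j 1 2 = 0)
    : ∃ t : ℂ, ∀ i j k l, F i j k l = t * ((2 * (g4 i k * g4 j l - g4 i l * g4 j k) - g4 i j * g4 k l : ℤ) : ℂ) := by
  have z1 : ∀ i k l, F i i k l = 0 := fun i k l => by linear_combination (1/2) * a1 i i k l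
  have z3 : ∀ i j k, F i j k k = 0 := fun i j k => by linear_combination (1/2) * a3 i j k k
  have h0 : 4 * F 0 1 2 3 + 4 * F 0 2 1 3 = 0 := by
      simpa [up4, z1, z3] using he 0 2 2 3
  have h1 : 3 * F 0 2 1 3 + 3 * F 0 3 0 3 + 3 * F 0 3 1 2 = 0 := by
      simpa [up4, z1, z3] using he 0 3 1 3
  have h2 : 3 * F 0 2 1 3 + 3 * F 1 2 0 3 + 3 * F 1 2 1 2 = 0 := by
      simpa [up4, z1, z3] using he 1 2 1 3
  have h3 : 3 * F 0 3 0 3 + 3 * F 1 2 0 3 + 3 * F 1 3 0 2 = 0 := by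
      simpa [up4, z1, z3] using he 1 3 0 3
  have h4 : 3 * F 0 3 1 2 + 3 * F 1 2 1 2 + 3 * F 1 3 0 2 = 0 := by
      simpa [up4, z1, z3] using he 1 3 1 2
  have h5 : 4 * F 1 3 0 2 + 4 * F 2 3 0 1 = 0 := by
      simpa [up4, z1, z3] using he 2 3 0 2
  have h6 : 1 * F 0 3 0 3 + (-1) * F 1 2 0 3 = 0 := by
      linear_combination hc0 0 3
  have k0123 : F 0 1 2 3 = 1 * F 2 3 0 1 := by
      linear_combination (1/4) * h0 + (-1/6) * h1 + (-1/6) * h2 + (1/6) * h4 + (1/6) * h3 + (-1/4) * h5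
  have k0213 : F 0 2 1 3 = (-1) * F 2 3 0 1 := by
      linear_combination (1/6) * h1 + (1/6) * h2 + (-1/6) * h4 + (-1/6) * h3 + (1/4) * h5
  have k0303 : F 0 3 0 3 = (1/2) * F 2 3 0 1 := by
      linear_combination (1/6) * h3 + (1/2) * h6 + (-1/8) * h5
  have k0312 : F 0 3 1 2 = (1/2) * F 2 3 0 1 := by
      linear_combination (-1/6) * h2 + (1/6) * h1 + (1/6) * h4 + (-1/2) * h6 + (-1/8) * h5
  have k1203 : F 1 2 0 3 = (1/2) * F 2 3 0 1 := by
      linear_combination (1/6) * h3 + (-1/2) * h6 + (-1/8) * h5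
  have k1212 : F 1 2 1 2 = (1/2) * F 2 3 0 1 := by
      linear_combination (1/2) * h6 + (1/6) * h2 + (-1/6) * h1 + (1/6) * h4 + (-1/8) * h5
  have k1302 : F 1 3 0 2 = (-1) * F 2 3 0 1 := by
      linear_combination (1/4) * h5
  refine ⟨F 2 3 0 1 / 2, ?_⟩
  have hz : ∀ i j k l, F i j k l - F 2 3 0 1 / 2 *
      ((2 * (g4 i k * g4 j l - g4 i l * g4 j k) - g4 i j * g4 k l : ℤ) : ℂ) = 0 := by
    intro i j k l
    refine sorted2 (fun i j => F i j k l - F 2 3 0 1 / 2 *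
      ((2 * (g4 i k * g4 j l - g4 i l * g4 j k) - g4 i j * g4 k l : ℤ) : ℂ)) ?_ ?_ i j
    · intro i j
      show F j i k l - F 2 3 0 1 / 2 *
        ((2 * (g4 j k * g4 i l - g4 j l * g4 i k) - g4 j i * g4 k l : ℤ) : ℂ) = _
      rw [a1 i j k l, g4_alt j i]; push_cast; ring
    intro i j hij
    refine sorted2 (fun k l => F i j k l - F 2 3 0 1 / 2 *
      ((2 * (g4 i k * g4 j l - g4 i l * g4 j k) - g4 i j * g4 k l : ℤ) : ℂ)) ?_ ?_ k l
    · intro k l
      show F i j l k - F 2 3 0 1 / 2 *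
        ((2 * (g4 i l * g4 j k - g4 i k * g4 j l) - g4 i j * g4 l k : ℤ) : ℂ) = _
      rw [a3 i j k l, g4_alt l k]; push_cast; ring
    intro k l hkl
    show F i j k l - F 2 3 0 1 / 2 *
      ((2 * (g4 i k * g4 j l - g4 i l * g4 j k) - g4 i j * g4 k l : ℤ) : ℂ) = 0
    by_cases h0 : wt4 i + wt4 j + wt4 k + wt4 l = 0
    · have hcase : ∀ (i j k l : Fin 4), i < j → k < l → wt4 i + wt4 j + wt4 k + wt4 l = 0 →
          (i, j, k, l) ∈ ([(0, 1, 2, 3), (0, 2, 1, 3), (0, 3, 0, 3), (0, 3, 1, 2), (1, 2, 0, 3), (1, 2, 1, 2), (1, 3, 0, 2), (2, 3, 0, 1)] :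
            List (Fin 4 × Fin 4 × Fin 4 × Fin 4)) := by decide
      have hc2 := hcase i j k l hij hkl h0
      simp only [List.mem_cons, Prod.mk.injEq, List.not_mem_nil, or_false] at hc2
      rcases hc2 with ⟨rfl, rfl, rfl, rfl⟩ | ⟨rfl, rfl, rfl, rfl⟩ | ⟨rfl, rfl, rfl, rfl⟩ | ⟨rfl, rfl, rfl, rfl⟩ | ⟨rfl, rfl, rfl, rfl⟩ | ⟨rfl, rfl, rfl, rfl⟩ | ⟨rfl, rfl, rfl, rfl⟩ | ⟨rfl, rfl, rfl, rfl⟩
      · have e : 2 * (g4 0 2 * g4 1 3 - g4 0 3 * g4 1 2) - g4 0 1 * g4 2 3 = 2 := by decide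
        rw [e, k0123]; push_cast; ring
      · have e : 2 * (g4 0 1 * g4 2 3 - g4 0 3 * g4 2 1) - g4 0 2 * g4 1 3 = -2 := by decide
        rw [e, k0213]; push_cast; ring
      · have e : 2 * (g4 0 0 * g4 3 3 - g4 0 3 * g4 3 0) - g4 0 3 * g4 0 3 = 1 := by decide
        rw [e, k0303]; push_cast; ring
      · have e : 2 * (g4 0 1 * g4 3 2 - g4 0 2 * g4 3 1) - g4 0 3 * g4 1 2 = 1 := by decide
        rw [e, k0312]; push_cast; ring
      · have e : 2 * (g4 1 0 * g4 2 3 - g4 1 3 * g4 2 0) - g4 1 2 * g4 0 3 = 1 := by decide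
        rw [e, k1203]; push_cast; ring
      · have e : 2 * (g4 1 1 * g4 2 2 - g4 1 2 * g4 2 1) - g4 1 2 * g4 1 2 = 1 := by decide
        rw [e, k1212]; push_cast; ring
      · have e : 2 * (g4 1 0 * g4 3 2 - g4 1 2 * g4 3 0) - g4 1 3 * g4 0 2 = -2 := by decide
        rw [e, k1302]; push_cast; ring
      · have e : 2 * (g4 2 0 * g4 3 1 - g4 2 1 * g4 3 0) - g4 2 3 * g4 0 1 = 2 := by decide
        rw [e]; push_cast; ring
    · have hF : F i j k l = 0 := by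
        refine (mul_eq_zero.mp (hw i j k l)).resolve_left ?_
        exact_mod_cast h0
      have hG : ∀ i j k l : Fin 4, i < j → k < l → wt4 i + wt4 j + wt4 k + wt4 l ≠ 0 →
          2 * (g4 i k * g4 j l - g4 i l * g4 j k) - g4 i j * g4 k l = 0 := by decide
      rw [hF, hG i j k l hij hkl h0]; simp
  intro i j k l
  exact sub_eq_zero.mp (hz i j k l)

theorem num211 (F : Fin 4 → Fin 4 → Fin 2 → Fin 2 → ℂ)
    (a1 : ∀ i j k l, F j i k l = - F i j k l)
    (hw : ∀ i j k l, ((wt4 i + wt4 j + wt2 k + wt2 l : ℤ) : ℂ) * F i j k l = 0)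
    (he : ∀ i j k l, (up4 i : ℂ) * F (i - 1) j k l + (up4 j : ℂ) * F i (j - 1) k l + (up2 k : ℂ) * F i j (k - 1) l + (up2 l : ℂ) * F i j k (l - 1) = 0)
    (hc0 : ∀ k l, (1) * F 0 3 k l + (-1) * F 1 2 k l = 0)
    : ∀ i j k l, F i j k l = 0 := by
  have z1 : ∀ i k l, F i i k l = 0 := fun i k l => by linear_combination (1/2) * a1 i i k l
  have h0 : 3 * F 0 2 1 1 + 1 * F 0 3 0 1 + 1 * F 0 3 1 0 = 0 := by
      simpa [up2, up4, z1] using he 0 3 1 1
  have h1 : 3 * F 0 2 1 1 + 1 * F 1 2 0 1 + 1 * F 1 2 1 0 = 0 := by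
      simpa [up2, up4, z1] using he 1 2 1 1
  have h2 : 3 * F 0 3 0 1 + 3 * F 1 2 0 1 + 1 * F 1 3 0 0 = 0 := by
      simpa [up2, up4, z1] using he 1 3 0 1
  have h3 : 3 * F 0 3 1 0 + 3 * F 1 2 1 0 + 1 * F 1 3 0 0 = 0 := by
      simpa [up2, up4, z1] using he 1 3 1 0
  have h4 : 4 * F 1 3 0 0 = 0 := by
      simpa [up2, up4, z1] using he 2 3 0 0
  have h5 : 1 * F 0 3 0 1 + (-1) * F 1 2 0 1 = 0 := by
      linear_combination hc0 0 1
  have k0211 : F 0 2 1 1 = 0 := by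
      linear_combination (1/6) * h0 + (1/6) * h1 + (-1/18) * h3 + (-1/18) * h2 + (1/36) * h4
  have k0301 : F 0 3 0 1 = 0 := by
      linear_combination (1/6) * h2 + (1/2) * h5 + (-1/24) * h4
  have k0310 : F 0 3 1 0 = 0 := by
      linear_combination (-1/2) * h1 + (1/2) * h0 + (1/6) * h3 + (-1/2) * h5 + (-1/24) * h4
  have k1201 : F 1 2 0 1 = 0 := by
      linear_combination (1/6) * h2 + (-1/2) * h5 + (-1/24) * h4
  have k1210 : F 1 2 1 0 = 0 := by
      linear_combination (1/2) * h5 + (1/2) * h1 + (-1/2) * h0 + (1/6) * h3 + (-1/24) * h4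
  have k1300 : F 1 3 0 0 = 0 := by
      linear_combination (1/4) * h4
  intro i j k l
  refine sorted2 (fun i j => F i j k l) (fun i j => a1 i j k l) ?_ i j
  intro i j hij
  show F i j k l = 0
  by_cases h0 : wt4 i + wt4 j + wt2 k + wt2 l = 0
  · have hcase : ∀ (i j : Fin 4) (k l : Fin 2), i < j → wt4 i + wt4 j + wt2 k + wt2 l = 0 →
        (i, j, k, l) ∈ ([(0, 2, 1, 1), (0, 3, 0, 1), (0, 3, 1, 0), (1, 2, 0, 1), (1, 2, 1, 0), (1, 3, 0, 0)] :
          List (Fin 4 × Fin 4 × Fin 2 × Fin 2)) := by decide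
    have hc2 := hcase i j k l hij h0
    simp only [List.mem_cons, Prod.mk.injEq, List.not_mem_nil, or_false] at hc2
    rcases hc2 with ⟨rfl, rfl, rfl, rfl⟩ | ⟨rfl, rfl, rfl, rfl⟩ | ⟨rfl, rfl, rfl, rfl⟩ | ⟨rfl, rfl, rfl, rfl⟩ | ⟨rfl, rfl, rfl, rfl⟩ | ⟨rfl, rfl, rfl, rfl⟩
    · exact k0211
    · exact k0301
    · exact k0310
    · exact k1201
    · exact k1210
    · exact k1300
  · refine (mul_eq_zero.mp (hw i j k l)).resolve_left ?_
    exact_mod_cast h0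

theorem num1111 (F : Fin 2 → Fin 2 → Fin 2 → Fin 2 → ℂ)
    (hw : ∀ i j k l, ((wt2 i + wt2 j + wt2 k + wt2 l : ℤ) : ℂ) * F i j k l = 0)
    (he : ∀ i j k l, (up2 i : ℂ) * F (i - 1) j k l + (up2 j : ℂ) * F i (j - 1) k l + (up2 k : ℂ) * F i j (k - 1) l + (up2 l : ℂ) * F i j k (l - 1) = 0)
    : ∃ a b : ℂ, ∀ i j k l, F i j k l = a * ((g2 i j * g2 k l : ℤ) : ℂ) + b * ((g2 i k * g2 j l : ℤ) : ℂ) := by
  have h0 : 1 * F 0 0 1 1 + 1 * F 0 1 0 1 + 1 * F 0 1 1 0 = 0 := by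
      simpa [up2] using he 0 1 1 1
  have h1 : 1 * F 0 0 1 1 + 1 * F 1 0 0 1 + 1 * F 1 0 1 0 = 0 := by
      simpa [up2] using he 1 0 1 1
  have h2 : 1 * F 0 1 0 1 + 1 * F 1 0 0 1 + 1 * F 1 1 0 0 = 0 := by
      simpa [up2] using he 1 1 0 1
  have h3 : 1 * F 0 1 1 0 + 1 * F 1 0 1 0 + 1 * F 1 1 0 0 = 0 := by
      simpa [up2] using he 1 1 1 0
  have k0011 : F 0 0 1 1 = 1 * F 1 1 0 0 := by
      linear_combination (1/2) * h0 + (1/2) * h1 + (-1/2) * h3 + (-1/2) * h2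
  have k0101 : F 0 1 0 1 = 1 * F 1 0 1 0 := by
      linear_combination (-1/2) * h1 + (1/2) * h0 + (1/2) * h2 + (-1/2) * h3
  have k0110 : F 0 1 1 0 = (-1) * F 1 0 1 0 + (-1) * F 1 1 0 0 := by
      linear_combination 1 * h3
  have k1001 : F 1 0 0 1 = (-1) * F 1 0 1 0 + (-1) * F 1 1 0 0 := by
      linear_combination (1/2) * h3 + (1/2) * h2 + (1/2) * h1 + (-1/2) * h0
  refine ⟨F 0 1 0 1, F 0 0 1 1, ?_⟩
  intro i j k l
  by_cases h0 : wt2 i + wt2 j + wt2 k + wt2 l = 0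
  · have hcase : ∀ i j k l : Fin 2, wt2 i + wt2 j + wt2 k + wt2 l = 0 →
        (i, j, k, l) ∈ ([(0, 0, 1, 1), (0, 1, 0, 1), (0, 1, 1, 0), (1, 0, 0, 1), (1, 0, 1, 0), (1, 1, 0, 0)] :
          List (Fin 2 × Fin 2 × Fin 2 × Fin 2)) := by decide
    have hc2 := hcase i j k l h0
    simp only [List.mem_cons, Prod.mk.injEq, List.not_mem_nil, or_false] at hc2
    rcases hc2 with ⟨rfl, rfl, rfl, rfl⟩ | ⟨rfl, rfl, rfl, rfl⟩ | ⟨rfl, rfl, rfl, rfl⟩ | ⟨rfl, rfl, rfl, rfl⟩ | ⟨rfl, rfl, rfl, rfl⟩ | ⟨rfl, rfl, rfl, rfl⟩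
    · have e1 : g2 0 0 * g2 1 1 = 0 := by decide
      have e2 : g2 0 1 * g2 0 1 = 1 := by decide
      simp only [e1, e2]
      push_cast
      linear_combination k0011 + (-1) * k0011
    · have e1 : g2 0 1 * g2 0 1 = 1 := by decide
      have e2 : g2 0 0 * g2 1 1 = 0 := by decide
      simp only [e1, e2]
      push_cast
      linear_combination k0101 + (-1) * k0101
    · have e1 : g2 0 1 * g2 1 0 = -1 := by decide
      have e2 : g2 0 1 * g2 1 0 = -1 := by decide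
      simp only [e1, e2]
      push_cast
      linear_combination k0110 + (1) * k0101 + (1) * k0011
    · have e1 : g2 1 0 * g2 0 1 = -1 := by decide
      have e2 : g2 1 0 * g2 0 1 = -1 := by decide
      simp only [e1, e2]
      push_cast
      linear_combination k1001 + (1) * k0101 + (1) * k0011
    · have e1 : g2 1 0 * g2 1 0 = 1 := by decide
      have e2 : g2 1 1 * g2 0 0 = 0 := by decide
      simp only [e1, e2]
      push_cast
      linear_combination (-1) * k0101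
    · have e1 : g2 1 1 * g2 0 0 = 0 := by decide
      have e2 : g2 1 0 * g2 1 0 = 1 := by decide
      simp only [e1, e2]
      push_cast
      linear_combination (-1) * k0011
  · have hF : F i j k l = 0 := by
      refine (mul_eq_zero.mp (hw i j k l)).resolve_left ?_
      exact_mod_cast h0
    have hG : ∀ i j k l : Fin 2, wt2 i + wt2 j + wt2 k + wt2 l ≠ 0 →
        g2 i j * g2 k l = 0 ∧ g2 i k * g2 j l = 0 := by decide
    rw [hF, (hG i j k l h0).1, (hG i j k l h0).2]; simp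

end Pool.Agent.Helper8
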