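import Pool.Agent.Helper8.Lie.FrameDefs
import Pool.Agent.Helper8.Lie.Frames8

/-!
Adapted bases of the symplectic representations of `sl_2` with odd weights and simple top weight,
in dimensions `2, 4, 6, 8` (part c).
-/

open Module

namespace Pool.Agent.Helper8

namespace SpSl2

variable {V : Type*} [AddCommGroup V] [Module ℂ V] (S : SpSl2 V)

section

variable {S} {x : V}

lemma frame8a  (T0 : S.Top x 7) 
    (hd : finrank ℂ V = 8) : Nonempty (S.Frame 8 up8a wt8a g8a) := by
  refine ⟨S.mkFrame ![(S.f ^ 0) x, (S.f ^ 1) x, (S.f ^ 2) x, (S.f ^ 3) x, (S.f ^ 4) x, (S.f ^ 5) x, (S.f ^ 6) x, (S.f ^ 7) x]
    ?_ ?_ ?_ ![7, 6, 5, 4, 3, 2, 1, 0] (by decide) (by decide) hd⟩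
  · intro j
    fin_cases j
    · have h := T0.e0
      simp only [pow_zero, Module.End.one_apply] at h
      simp [up8a, h]
    · have h := T0.e_pow 0
      norm_num at h
      simpa [up8a] using h
    · have h := T0.e_pow 1
      norm_num at h
      simpa [up8a] using h
    · have h := T0.e_pow 2
      norm_num at h
      simpa [up8a] using h
    · have h := T0.e_pow 3
      norm_num at h
      simpa [up8a] using h
    · have h := T0.e_pow 4
      norm_num at h
      simpa [up8a] using h
    · have h := T0.e_pow 5
      norm_num at h
      simpa [up8a] using h
    · have h := T0.e_pow 6
      norm_num at h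
      simpa [up8a] using h
  · intro j
    fin_cases j
    · have h := T0.h_pow 0
      norm_num at h
      simpa [wt8a] using h
    · have h := T0.h_pow 1
      norm_num at h
      simpa [wt8a] using h
    · have h := T0.h_pow 2
      norm_num at h
      simpa [wt8a] using h
    · have h := T0.h_pow 3
      norm_num at h
      simpa [wt8a] using h
    · have h := T0.h_pow 4
      norm_num at h
      simpa [wt8a] using h
    · have h := T0.h_pow 5
      norm_num at h
      simpa [wt8a] using h
    · have h := T0.h_pow 6
      norm_num at h
      simpa [wt8a] using h
    · have h := T0.h_pow 7
      norm_num at h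
      simpa [wt8a] using h
  · intro i j
    fin_cases i <;> fin_cases j
    · have h := T0.om 0 0
      norm_num at h
      simpa [g8a] using h
    · have h := T0.om 0 1
      norm_num at h
      simpa [g8a] using h
    · have h := T0.om 0 2
      norm_num at h
      simpa [g8a] using h
    · have h := T0.om 0 3
      norm_num at h
      simpa [g8a] using h
    · have h := T0.om 0 4
      norm_num at h
      simpa [g8a] using h
    · have h := T0.om 0 5
      norm_num at h
      simpa [g8a] using h
    · have h := T0.om 0 6
      norm_num at h
      simpa [g8a] using h
    · have h := T0.om 0 7
      norm_num at h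
      simpa [g8a] using h
    · have h := T0.om 1 0
      norm_num at h
      simpa [g8a] using h
    · have h := T0.om 1 1
      norm_num at h
      simpa [g8a] using h
    · have h := T0.om 1 2
      norm_num at h
      simpa [g8a] using h
    · have h := T0.om 1 3
      norm_num at h
      simpa [g8a] using h
    · have h := T0.om 1 4
      norm_num at h
      simpa [g8a] using h
    · have h := T0.om 1 5
      norm_num at h
      simpa [g8a] using h
    · have h := T0.om 1 6
      norm_num at h
      simpa [g8a] using h
    · have h := T0.om 1 7
      norm_num at h
      simpa [g8a] using h
    · have h := T0.om 2 0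
      norm_num at h
      simpa [g8a] using h
    · have h := T0.om 2 1
      norm_num at h
      simpa [g8a] using h
    · have h := T0.om 2 2
      norm_num at h
      simpa [g8a] using h
    · have h := T0.om 2 3
      norm_num at h
      simpa [g8a] using h
    · have h := T0.om 2 4
      norm_num at h
      simpa [g8a] using h
    · have h := T0.om 2 5
      norm_num at h
      simpa [g8a] using h
    · have h := T0.om 2 6
      norm_num at h
      simpa [g8a] using h
    · have h := T0.om 2 7
      norm_num at h
      simpa [g8a] using h
    · have h := T0.om 3 0
      norm_num at h
      simpa [g8a] using h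
    · have h := T0.om 3 1
      norm_num at h
      simpa [g8a] using h
    · have h := T0.om 3 2
      norm_num at h
      simpa [g8a] using h
    · have h := T0.om 3 3
      norm_num at h
      simpa [g8a] using h
    · have h := T0.om 3 4
      norm_num at h
      simpa [g8a] using h
    · have h := T0.om 3 5
      norm_num at h
      simpa [g8a] using h
    · have h := T0.om 3 6
      norm_num at h
      simpa [g8a] using h
    · have h := T0.om 3 7
      norm_num at h
      simpa [g8a] using h
    · have h := T0.om 4 0
      norm_num at h
      simpa [g8a] using h
    · have h := T0.om 4 1
      norm_num at h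
      simpa [g8a] using h
    · have h := T0.om 4 2
      norm_num at h
      simpa [g8a] using h
    · have h := T0.om 4 3
      norm_num at h
      simpa [g8a] using h
    · have h := T0.om 4 4
      norm_num at h
      simpa [g8a] using h
    · have h := T0.om 4 5
      norm_num at h
      simpa [g8a] using h
    · have h := T0.om 4 6
      norm_num at h
      simpa [g8a] using h
    · have h := T0.om 4 7
      norm_num at h
      simpa [g8a] using h
    · have h := T0.om 5 0
      norm_num at h
      simpa [g8a] using h
    · have h := T0.om 5 1
      norm_num at h
      simpa [g8a] using h
    · have h := T0.om 5 2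
      norm_num at h
      simpa [g8a] using h
    · have h := T0.om 5 3
      norm_num at h
      simpa [g8a] using h
    · have h := T0.om 5 4
      norm_num at h
      simpa [g8a] using h
    · have h := T0.om 5 5
      norm_num at h
      simpa [g8a] using h
    · have h := T0.om 5 6
      norm_num at h
      simpa [g8a] using h
    · have h := T0.om 5 7
      norm_num at h
      simpa [g8a] using h
    · have h := T0.om 6 0
      norm_num at h
      simpa [g8a] using h
    · have h := T0.om 6 1
      norm_num at h
      simpa [g8a] using h
    · have h := T0.om 6 2
      norm_num at h
      simpa [g8a] using h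
    · have h := T0.om 6 3
      norm_num at h
      simpa [g8a] using h
    · have h := T0.om 6 4
      norm_num at h
      simpa [g8a] using h
    · have h := T0.om 6 5
      norm_num at h
      simpa [g8a] using h
    · have h := T0.om 6 6
      norm_num at h
      simpa [g8a] using h
    · have h := T0.om 6 7
      norm_num at h
      simpa [g8a] using h
    · have h := T0.om 7 0
      norm_num at h
      simpa [g8a] using h
    · have h := T0.om 7 1
      norm_num at h
      simpa [g8a] using h
    · have h := T0.om 7 2
      norm_num at h
      simpa [g8a] using h
    · have h := T0.om 7 3
      norm_num at h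
      simpa [g8a] using h
    · have h := T0.om 7 4
      norm_num at h
      simpa [g8a] using h
    · have h := T0.om 7 5
      norm_num at h
      simpa [g8a] using h
    · have h := T0.om 7 6
      norm_num at h
      simpa [g8a] using h
    · have h := T0.om 7 7
      norm_num at h
      simpa [g8a] using h

end

end SpSl2

end Pool.Agent.Helper8
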