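import Pool.Agent.Helper8.Lie.FrameDefs
import Pool.Agent.Helper8.Lie.Frames8

/-!
Adapted bases of the symplectic representations of `sl_2` with odd weights and simple top weight,
in dimensions `2, 4, 6, 8` (part d).
-/

open Module

namespace Pool.Agent.Helper8

namespace SpSl2

variable {V : Type*} [AddCommGroup V] [Module ℂ V] (S : SpSl2 V)

section

variable {S} {x : V}

lemma frame8b {y : V} (T0 : S.Top x 5) (T1 : S.Top y 1) (c01 : ∀ i j, S.ω ((S.f ^ i) x) ((S.f ^ j) y) = 0)
    (hd : finrank ℂ V = 8) : Nonempty (S.Frame 8 up8b wt8b g8b) := by
  have c10 : ∀ i j, S.ω ((S.f ^ i) y) ((S.f ^ j) x) = 0 := fun i j => by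
    rw [S.alt, c01, neg_zero]
  refine ⟨S.mkFrame ![(S.f ^ 0) x, (S.f ^ 1) x, (S.f ^ 2) x, (S.f ^ 3) x, (S.f ^ 4) x, (S.f ^ 5) x, (S.f ^ 0) y, (S.f ^ 1) y]
    ?_ ?_ ?_ ![5, 4, 3, 2, 1, 0, 7, 6] (by decide) (by decide) hd⟩
  · intro j
    fin_cases j
    · have h := T0.e0
      simp only [pow_zero, Module.End.one_apply] at h
      simp [up8b, h]
    · have h := T0.e_pow 0
      norm_num at h
      simpa [up8b] using h
    · have h := T0.e_pow 1
      norm_num at h
      simpa [up8b] using h
    · have h := T0.e_pow 2
      norm_num at h
      simpa [up8b] using h
    · have h := T0.e_pow 3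
      norm_num at h
      simpa [up8b] using h
    · have h := T0.e_pow 4
      norm_num at h
      simpa [up8b] using h
    · have h := T1.e0
      simp only [pow_zero, Module.End.one_apply] at h
      simp [up8b, h]
    · have h := T1.e_pow 0
      norm_num at h
      simpa [up8b] using h
  · intro j
    fin_cases j
    · have h := T0.h_pow 0
      norm_num at h
      simpa [wt8b] using h
    · have h := T0.h_pow 1
      norm_num at h
      simpa [wt8b] using h
    · have h := T0.h_pow 2
      norm_num at h
      simpa [wt8b] using h
    · have h := T0.h_pow 3
      norm_num at h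
      simpa [wt8b] using h
    · have h := T0.h_pow 4
      norm_num at h
      simpa [wt8b] using h
    · have h := T0.h_pow 5
      norm_num at h
      simpa [wt8b] using h
    · have h := T1.h_pow 0
      norm_num at h
      simpa [wt8b] using h
    · have h := T1.h_pow 1
      norm_num at h
      simpa [wt8b] using h
  · intro i j
    fin_cases i <;> fin_cases j
    · have h := T0.om 0 0
      norm_num at h
      simpa [g8b] using h
    · have h := T0.om 0 1
      norm_num at h
      simpa [g8b] using h
    · have h := T0.om 0 2
      norm_num at h
      simpa [g8b] using h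
    · have h := T0.om 0 3
      norm_num at h
      simpa [g8b] using h
    · have h := T0.om 0 4
      norm_num at h
      simpa [g8b] using h
    · have h := T0.om 0 5
      norm_num at h
      simpa [g8b] using h
    · simpa [g8b] using c01 0 0
    · simpa [g8b] using c01 0 1
    · have h := T0.om 1 0
      norm_num at h
      simpa [g8b] using h
    · have h := T0.om 1 1
      norm_num at h
      simpa [g8b] using h
    · have h := T0.om 1 2
      norm_num at h
      simpa [g8b] using h
    · have h := T0.om 1 3
      norm_num at h
      simpa [g8b] using h
    · have h := T0.om 1 4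
      norm_num at h
      simpa [g8b] using h
    · have h := T0.om 1 5
      norm_num at h
      simpa [g8b] using h
    · simpa [g8b] using c01 1 0
    · simpa [g8b] using c01 1 1
    · have h := T0.om 2 0
      norm_num at h
      simpa [g8b] using h
    · have h := T0.om 2 1
      norm_num at h
      simpa [g8b] using h
    · have h := T0.om 2 2
      norm_num at h
      simpa [g8b] using h
    · have h := T0.om 2 3
      norm_num at h
      simpa [g8b] using h
    · have h := T0.om 2 4
      norm_num at h
      simpa [g8b] using h
    · have h := T0.om 2 5
      norm_num at h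
      simpa [g8b] using h
    · simpa [g8b] using c01 2 0
    · simpa [g8b] using c01 2 1
    · have h := T0.om 3 0
      norm_num at h
      simpa [g8b] using h
    · have h := T0.om 3 1
      norm_num at h
      simpa [g8b] using h
    · have h := T0.om 3 2
      norm_num at h
      simpa [g8b] using h
    · have h := T0.om 3 3
      norm_num at h
      simpa [g8b] using h
    · have h := T0.om 3 4
      norm_num at h
      simpa [g8b] using h
    · have h := T0.om 3 5
      norm_num at h
      simpa [g8b] using h
    · simpa [g8b] using c01 3 0
    · simpa [g8b] using c01 3 1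
    · have h := T0.om 4 0
      norm_num at h
      simpa [g8b] using h
    · have h := T0.om 4 1
      norm_num at h
      simpa [g8b] using h
    · have h := T0.om 4 2
      norm_num at h
      simpa [g8b] using h
    · have h := T0.om 4 3
      norm_num at h
      simpa [g8b] using h
    · have h := T0.om 4 4
      norm_num at h
      simpa [g8b] using h
    · have h := T0.om 4 5
      norm_num at h
      simpa [g8b] using h
    · simpa [g8b] using c01 4 0
    · simpa [g8b] using c01 4 1
    · have h := T0.om 5 0
      norm_num at h
      simpa [g8b] using h
    · have h := T0.om 5 1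
      norm_num at h
      simpa [g8b] using h
    · have h := T0.om 5 2
      norm_num at h
      simpa [g8b] using h
    · have h := T0.om 5 3
      norm_num at h
      simpa [g8b] using h
    · have h := T0.om 5 4
      norm_num at h
      simpa [g8b] using h
    · have h := T0.om 5 5
      norm_num at h
      simpa [g8b] using h
    · simpa [g8b] using c01 5 0
    · simpa [g8b] using c01 5 1
    · simpa [g8b] using c10 0 0
    · simpa [g8b] using c10 0 1
    · simpa [g8b] using c10 0 2
    · simpa [g8b] using c10 0 3
    · simpa [g8b] using c10 0 4
    · simpa [g8b] using c10 0 5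
    · have h := T1.om 0 0
      norm_num at h
      simpa [g8b] using h
    · have h := T1.om 0 1
      norm_num at h
      simpa [g8b] using h
    · simpa [g8b] using c10 1 0
    · simpa [g8b] using c10 1 1
    · simpa [g8b] using c10 1 2
    · simpa [g8b] using c10 1 3
    · simpa [g8b] using c10 1 4
    · simpa [g8b] using c10 1 5
    · have h := T1.om 1 0
      norm_num at h
      simpa [g8b] using h
    · have h := T1.om 1 1
      norm_num at h
      simpa [g8b] using h

end

end SpSl2

end Pool.Agent.Helper8
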