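import Pool.Agent.Helper8.Lie.FrameDefs
import Pool.Agent.Helper8.Lie.Frames8

/-!
Adapted bases of the symplectic representations of `sl_2` with odd weights and simple top weight,
in dimensions `2, 4, 6, 8` (part e).
-/

open Module

namespace Pool.Agent.Helper8

namespace SpSl2

variable {V : Type*} [AddCommGroup V] [Module ℂ V] (S : SpSl2 V)

section

variable {S} {x : V}

lemma frame8c {y : V} {z : V} (T0 : S.Top x 3) (T1 : S.Top y 1) (T2 : S.Top z 1) (c01 : ∀ i j, S.ω ((S.f ^ i) x) ((S.f ^ j) y) = 0) (c02 : ∀ i j, S.ω ((S.f ^ i) x) ((S.f ^ j) z) = 0) (c12 : ∀ i j, S.ω ((S.f ^ i) y) ((S.f ^ j) z) = 0)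
    (hd : finrank ℂ V = 8) : Nonempty (S.Frame 8 up8c wt8c g8c) := by
  have c10 : ∀ i j, S.ω ((S.f ^ i) y) ((S.f ^ j) x) = 0 := fun i j => by
    rw [S.alt, c01, neg_zero]
  have c20 : ∀ i j, S.ω ((S.f ^ i) z) ((S.f ^ j) x) = 0 := fun i j => by
    rw [S.alt, c02, neg_zero]
  have c21 : ∀ i j, S.ω ((S.f ^ i) z) ((S.f ^ j) y) = 0 := fun i j => by
    rw [S.alt, c12, neg_zero]
  refine ⟨S.mkFrame ![(S.f ^ 0) x, (S.f ^ 1) x, (S.f ^ 2) x, (S.f ^ 3) x, (S.f ^ 0) y, (S.f ^ 1) y, (S.f ^ 0) z, (S.f ^ 1) z]
    ?_ ?_ ?_ ![3, 2, 1, 0, 5, 4, 7, 6] (by decide) (by decide) hd⟩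
  · intro j
    fin_cases j
    · have h := T0.e0
      simp only [pow_zero, Module.End.one_apply] at h
      simp [up8c, h]
    · have h := T0.e_pow 0
      norm_num at h
      simpa [up8c] using h
    · have h := T0.e_pow 1
      norm_num at h
      simpa [up8c] using h
    · have h := T0.e_pow 2
      norm_num at h
      simpa [up8c] using h
    · have h := T1.e0
      simp only [pow_zero, Module.End.one_apply] at h
      simp [up8c, h]
    · have h := T1.e_pow 0
      norm_num at h
      simpa [up8c] using h
    · have h := T2.e0
      simp only [pow_zero, Module.End.one_apply] at h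
      simp [up8c, h]
    · have h := T2.e_pow 0
      norm_num at h
      simpa [up8c] using h
  · intro j
    fin_cases j
    · have h := T0.h_pow 0
      norm_num at h
      simpa [wt8c] using h
    · have h := T0.h_pow 1
      norm_num at h
      simpa [wt8c] using h
    · have h := T0.h_pow 2
      norm_num at h
      simpa [wt8c] using h
    · have h := T0.h_pow 3
      norm_num at h
      simpa [wt8c] using h
    · have h := T1.h_pow 0
      norm_num at h
      simpa [wt8c] using h
    · have h := T1.h_pow 1
      norm_num at h
      simpa [wt8c] using h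
    · have h := T2.h_pow 0
      norm_num at h
      simpa [wt8c] using h
    · have h := T2.h_pow 1
      norm_num at h
      simpa [wt8c] using h
  · intro i j
    fin_cases i <;> fin_cases j
    · have h := T0.om 0 0
      norm_num at h
      simpa [g8c] using h
    · have h := T0.om 0 1
      norm_num at h
      simpa [g8c] using h
    · have h := T0.om 0 2
      norm_num at h
      simpa [g8c] using h
    · have h := T0.om 0 3
      norm_num at h
      simpa [g8c] using h
    · simpa [g8c] using c01 0 0
    · simpa [g8c] using c01 0 1
    · simpa [g8c] using c02 0 0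
    · simpa [g8c] using c02 0 1
    · have h := T0.om 1 0
      norm_num at h
      simpa [g8c] using h
    · have h := T0.om 1 1
      norm_num at h
      simpa [g8c] using h
    · have h := T0.om 1 2
      norm_num at h
      simpa [g8c] using h
    · have h := T0.om 1 3
      norm_num at h
      simpa [g8c] using h
    · simpa [g8c] using c01 1 0
    · simpa [g8c] using c01 1 1
    · simpa [g8c] using c02 1 0
    · simpa [g8c] using c02 1 1
    · have h := T0.om 2 0
      norm_num at h
      simpa [g8c] using h
    · have h := T0.om 2 1
      norm_num at h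
      simpa [g8c] using h
    · have h := T0.om 2 2
      norm_num at h
      simpa [g8c] using h
    · have h := T0.om 2 3
      norm_num at h
      simpa [g8c] using h
    · simpa [g8c] using c01 2 0
    · simpa [g8c] using c01 2 1
    · simpa [g8c] using c02 2 0
    · simpa [g8c] using c02 2 1
    · have h := T0.om 3 0
      norm_num at h
      simpa [g8c] using h
    · have h := T0.om 3 1
      norm_num at h
      simpa [g8c] using h
    · have h := T0.om 3 2
      norm_num at h
      simpa [g8c] using h
    · have h := T0.om 3 3
      norm_num at h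
      simpa [g8c] using h
    · simpa [g8c] using c01 3 0
    · simpa [g8c] using c01 3 1
    · simpa [g8c] using c02 3 0
    · simpa [g8c] using c02 3 1
    · simpa [g8c] using c10 0 0
    · simpa [g8c] using c10 0 1
    · simpa [g8c] using c10 0 2
    · simpa [g8c] using c10 0 3
    · have h := T1.om 0 0
      norm_num at h
      simpa [g8c] using h
    · have h := T1.om 0 1
      norm_num at h
      simpa [g8c] using h
    · simpa [g8c] using c12 0 0
    · simpa [g8c] using c12 0 1
    · simpa [g8c] using c10 1 0
    · simpa [g8c] using c10 1 1
    · simpa [g8c] using c10 1 2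
    · simpa [g8c] using c10 1 3
    · have h := T1.om 1 0
      norm_num at h
      simpa [g8c] using h
    · have h := T1.om 1 1
      norm_num at h
      simpa [g8c] using h
    · simpa [g8c] using c12 1 0
    · simpa [g8c] using c12 1 1
    · simpa [g8c] using c20 0 0
    · simpa [g8c] using c20 0 1
    · simpa [g8c] using c20 0 2
    · simpa [g8c] using c20 0 3
    · simpa [g8c] using c21 0 0
    · simpa [g8c] using c21 0 1
    · have h := T2.om 0 0
      norm_num at h
      simpa [g8c] using h
    · have h := T2.om 0 1
      norm_num at h
      simpa [g8c] using h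
    · simpa [g8c] using c20 1 0
    · simpa [g8c] using c20 1 1
    · simpa [g8c] using c20 1 2
    · simpa [g8c] using c20 1 3
    · simpa [g8c] using c21 1 0
    · simpa [g8c] using c21 1 1
    · have h := T2.om 1 0
      norm_num at h
      simpa [g8c] using h
    · have h := T2.om 1 1
      norm_num at h
      simpa [g8c] using h

end

end SpSl2

end Pool.Agent.Helper8
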