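import Pool.Agent.Helper8.Lie.Frames9a
import Pool.Agent.Helper8.Lie.Frames9b
import Pool.Agent.Helper8.Lie.Frames9c
import Pool.Agent.Helper8.Lie.Frames9d
import Pool.Agent.Helper8.Lie.Frames9e

/-!
Adapted bases of the symplectic representations of `sl_2` with odd weights and simple top weight,
in dimensions `2, 4, 6, 8`.
-/
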