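import Mathlib
import Pool.Agent.Helper8.Lie.Frames9
import Pool.Agent.Helper8.Lie.IrrFrames

/-!
Irreducible symplectic modules of dimension `2, 4, 6, 8`: the possible adapted bases.
-/

open Module LieAlgebra LieModule

namespace Pool.Agent.Helper8

section

variable {L : Type*} [LieRing L] [LieAlgebra ℂ L] (p : Principal L) {V : Type*} [AddCommGroup V]
  [Module ℂ V] [LieRingModule L V] [LieModule ℂ L V] [FiniteDimensional ℂ V]
  [LieModule.IsIrreducible ℂ L V] {ω : V →ₗ[ℂ] V →ₗ[ℂ] ℂ} (hω : Symp L ω)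

lemma top_ne {V : Type*} [AddCommGroup V] [Module ℂ V] {S : SpSl2 V} {x : V} {m : ℕ}
    (T : S.Top x m) : x ≠ 0 := by
  rintro rfl
  have h1 := T.ω
  rw [map_zero] at h1
  exact zero_ne_one h1

/-- decomposition into at most two blocks, the rest being of smaller dimension -/
lemma Principal.blocks : ∃ (m : ℕ) (x : V), Odd m ∧ (p.rep hω).Top x m ∧
    (finrank ℂ V = m + 1 ∨
    ∃ (k : ℕ) (y : V), Odd k ∧ k < m ∧ (p.rep hω).Top y k ∧
      (∀ i j, ω (((p.rep hω).f ^ i) x) (((p.rep hω).f ^ j) y) = 0) ∧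
      (finrank ℂ V = m + 1 + (k + 1) ∨
      ∃ (l : ℕ) (z : V), Odd l ∧ l < m ∧ (p.rep hω).Top z l ∧
        (∀ i j, ω (((p.rep hω).f ^ i) x) (((p.rep hω).f ^ j) z) = 0) ∧
        (∀ i j, ω (((p.rep hω).f ^ i) y) (((p.rep hω).f ^ j) z) = 0) ∧
        m + 1 + (k + 1) + (l + 1) ≤ finrank ℂ V)) := by
  obtain ⟨m, x, hodd, T, hlt⟩ := p.first_block hω
  refine ⟨m, x, hodd, T, ?_⟩
  have hd := SpSl2.finrank_perp T
  rcases Nat.eq_zero_or_pos (finrank ℂ ((p.rep hω).perp x)) with h0 | hpos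
  · left
    omega
  right
  have hnt : Nontrivial ((p.rep hω).perp x) := Module.finrank_pos_iff.mp hpos
  obtain ⟨k, y, hk, Ty, -⟩ := (SpSl2.comp T).step'
  have hy0 : (y : V) ≠ 0 := fun h => top_ne Ty (Subtype.ext h)
  have Ty' := SpSl2.top_of_comp T Ty
  refine ⟨k, y, hk, hlt y k y.2 hy0 Ty', Ty', SpSl2.cross_comp T y, ?_⟩
  have hd2 := SpSl2.finrank_perp Ty
  rcases Nat.eq_zero_or_pos (finrank ℂ ((SpSl2.comp T).perp y)) with h0 | hpos2
  · left
    omega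
  right
  have hnt2 : Nontrivial ((SpSl2.comp T).perp y) := Module.finrank_pos_iff.mp hpos2
  obtain ⟨l, z, hl, Tz, -⟩ := (SpSl2.comp Ty).step'
  have Tz' := SpSl2.top_of_comp Ty Tz
  have Tz'' := SpSl2.top_of_comp T Tz'
  have hz0 : ((z : (p.rep hω).perp x) : V) ≠ 0 := top_ne Tz''
  refine ⟨l, z, hl, hlt _ l (z : (p.rep hω).perp x).2 hz0 Tz'', Tz'',
    SpSl2.cross_comp T (z : (p.rep hω).perp x), ?_, ?_⟩
  · intro i j
    have h1 := SpSl2.cross_comp Ty z i j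
    change (p.rep hω).ω ((((SpSl2.comp T).f ^ i) y : (p.rep hω).perp x) : V)
      ((((SpSl2.comp T).f ^ j) (z : (p.rep hω).perp x) : (p.rep hω).perp x) : V) = 0 at h1
    rw [SpSl2.comp_f_pow, SpSl2.comp_f_pow] at h1
    exact h1
  · have hd3 := SpSl2.finrank_perp Tz
    omega

theorem Principal.frame_dim2 (hd : finrank ℂ V = 2) :
    Nonempty ((p.rep hω).Frame 2 up2 wt2 g2) := by
  obtain ⟨m, x, ⟨a, rfl⟩, T, h⟩ := p.blocks hω
  rcases h with h | ⟨k, y, ⟨b, rfl⟩, hlt, -, -, h⟩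
  · obtain rfl : a = 0 := by omega
    exact SpSl2.frame2 T hd
  · rcases h with h | ⟨l, z, -, -, -, -, -, h⟩ <;> omega

theorem Principal.frame_dim4 (hd : finrank ℂ V = 4) :
    Nonempty ((p.rep hω).Frame 4 up4 wt4 g4) := by
  obtain ⟨m, x, ⟨a, rfl⟩, T, h⟩ := p.blocks hω
  rcases h with h | ⟨k, y, ⟨b, rfl⟩, hlt, -, -, h⟩
  · obtain rfl : a = 1 := by omega
    exact SpSl2.frame4 T hd
  · rcases h with h | ⟨l, z, -, -, -, -, -, h⟩ <;> omega

theorem Principal.frame_dim6 (hd : finrank ℂ V = 6) :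
    Nonempty ((p.rep hω).Frame 6 up6a wt6a g6a) ∨
      Nonempty ((p.rep hω).Frame 6 up6b wt6b g6b) := by
  obtain ⟨m, x, ⟨a, rfl⟩, T, h⟩ := p.blocks hω
  rcases h with h | ⟨k, y, ⟨b, rfl⟩, hlt, Ty, hxy, h⟩
  · obtain rfl : a = 2 := by omega
    exact Or.inl (SpSl2.frame6a T hd)
  · rcases h with h | ⟨l, z, -, -, -, -, -, h⟩
    · obtain rfl : a = 1 := by omega
      obtain rfl : b = 0 := by omega
      exact Or.inr (SpSl2.frame6b T Ty hxy hd)
    · omega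

theorem Principal.frame_dim8 (hd : finrank ℂ V = 8) :
    Nonempty ((p.rep hω).Frame 8 up8a wt8a g8a) ∨
      Nonempty ((p.rep hω).Frame 8 up8b wt8b g8b) ∨
      Nonempty ((p.rep hω).Frame 8 up8c wt8c g8c) := by
  obtain ⟨m, x, ⟨a, rfl⟩, T, h⟩ := p.blocks hω
  rcases h with h | ⟨k, y, ⟨b, rfl⟩, hlt, Ty, hxy, h⟩
  · obtain rfl : a = 3 := by omega
    exact Or.inl (SpSl2.frame8a T hd)
  · rcases h with h | ⟨l, z, ⟨c, rfl⟩, hlt', Tz, hxz, hyz, h⟩
    · obtain rfl : a = 2 := by omega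
      obtain rfl : b = 0 := by omega
      exact Or.inr (Or.inl (SpSl2.frame8b T Ty hxy hd))
    · obtain rfl : a = 1 := by omega
      obtain rfl : b = 0 := by omega
      obtain rfl : c = 0 := by omega
      exact Or.inr (Or.inr (SpSl2.frame8c T Ty Tz hxy hxz hyz hd))

end

end Pool.Agent.Helper8
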