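import Mathlib
import Pool.Agent.Helper8.Lie.FrameDefs

/-!
Numerical lemmas on `sl_2`-invariant primitive alternating forms, in coordinates.
-/

namespace Pool.Agent.Helper8

section sorted

variable {d : ℕ} (F : Fin d → Fin d → Fin d → Fin d → ℂ)
  (a1 : ∀ i j k l, F j i k l = - F i j k l) (a2 : ∀ i j k l, F i k j l = - F i j k l)
  (a3 : ∀ i j k l, F i j l k = - F i j k l)

include a1 a2 a3

theorem sorted4 (h : ∀ i j k l, i < j → j < k → k < l → F i j k l = 0) :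
    ∀ i j k l, F i j k l = 0 := by
  have z1 : ∀ i k l, F i i k l = 0 := fun i k l => by linear_combination (1/2) * a1 i i k l
  have z2 : ∀ i k l, F i k k l = 0 := fun i k l => by linear_combination (1/2) * a2 i k k l
  have z3 : ∀ i k l, F i k l l = 0 := fun i k l => by linear_combination (1/2) * a3 i k l l
  have s1 : ∀ i j k l, j < k → k < l → F i j k l = 0 := by
    intro i j k l hjk hkl
    rcases lt_trichotomy i j with h1 | rfl | h1
    · exact h i j k l h1 hjk hkl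
    · exact z1 i k l
    · rw [a1 j i k l, neg_eq_zero]
      rcases lt_trichotomy i k with h2 | rfl | h2
      · exact h j i k l h1 h2 hkl
      · exact z2 j i l
      · rw [a2 j k i l, neg_eq_zero]
        rcases lt_trichotomy i l with h3 | rfl | h3
        · exact h j k i l hjk h2 h3
        · exact z3 j k i
        · rw [a3 j k l i, neg_eq_zero]
          exact h j k l i hjk hkl h3
  have s2 : ∀ i j k l, k < l → F i j k l = 0 := by
    intro i j k l hkl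
    rcases lt_trichotomy j k with h1 | rfl | h1
    · exact s1 i j k l h1 hkl
    · exact z2 i j l
    · rw [a2 i k j l, neg_eq_zero]
      rcases lt_trichotomy j l with h2 | rfl | h2
      · exact s1 i k j l h1 h2
      · exact z3 i k j
      · rw [a3 i k l j, neg_eq_zero]
        exact s1 i k l j hkl h2
  intro i j k l
  rcases lt_trichotomy k l with h1 | rfl | h1
  · exact s2 i j k l h1
  · exact z3 i j k
  · rw [a3 i j l k, neg_eq_zero]
    exact s2 i j l k h1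

end sorted

/-- square of a form -/
def sq {d : ℕ} (g : Fin d → Fin d → ℤ) (i j k l : Fin d) : ℤ :=
  g i j * g k l - g i k * g j l + g i l * g j k

def t8c : Fin 8 → Fin 8 → ℤ := ![![0, 0, 0, 1, 0, 0, 0, 0], ![0, 0, -1, 0, 0, 0, 0, 0],
  ![0, 1, 0, 0, 0, 0, 0, 0], ![-1, 0, 0, 0, 0, 0, 0, 0], ![0, 0, 0, 0, 0, -1, 0, 0],
  ![0, 0, 0, 0, 1, 0, 0, 0], ![0, 0, 0, 0, 0, 0, 0, -1], ![0, 0, 0, 0, 0, 0, 1, 0]]

lemma g8c_alt : ∀ i j, g8c i j = - g8c j i := by decide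
lemma t8c_alt : ∀ i j, t8c i j = - t8c j i := by decide

theorem num4_6a (F : Fin 6 → Fin 6 → Fin 6 → Fin 6 → ℂ)
    (a1 : ∀ i j k l, F j i k l = - F i j k l) (a2 : ∀ i j k l, F i k j l = - F i j k l)
    (a3 : ∀ i j k l, F i j l k = - F i j k l)
    (hw : ∀ i j k l, ((wt6a i + wt6a j + wt6a k + wt6a l : ℤ) : ℂ) * F i j k l = 0)
    (he : ∀ i j k l, (up6a i : ℂ) * F (i - 1) j k l + (up6a j : ℂ) * F i (j - 1) k l +
      (up6a k : ℂ) * F i j (k - 1) l + (up6a l : ℂ) * F i j k (l - 1) = 0)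
    (hc : ∀ i j, (1) * F i j 0 5 + (-1) * F i j 1 4 + (1) * F i j 2 3 = 0) :
    ∀ i j k l, F i j k l = 0 := by
  have z1 : ∀ i k l, F i i k l = 0 := fun i k l => by linear_combination (1/2) * a1 i i k l
  have z2 : ∀ i k l, F i k k l = 0 := fun i k l => by linear_combination (1/2) * a2 i k k l
  have z3 : ∀ i k l, F i k l l = 0 := fun i k l => by linear_combination (1/2) * a3 i k l l
  have h0 : 8 * F 0 1 4 5 + 8 * F 0 2 3 5 = 0 := by
      simpa [up6a, z1, z2, z3] using he 0 2 4 5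
  have h1 : 5 * F 0 2 3 5 + 5 * F 1 2 3 4 = 0 := by
      simpa [up6a, z1, z2, z3] using he 1 2 3 5
  have h2 : (-1) * F 0 1 4 5 + 1 * F 0 2 3 5 = 0 := by
      linear_combination hc 0 5 - 1 * a2 0 0 5 5 - (-1/2) * a1 0 0 5 5 - (-1) * a2 0 1 5 4 - 1 * a3 0 1 4 5 - 1 * a2 0 2 5 3 - (-1) * a3 0 2 3 5
  have k0145 : F 0 1 4 5 = 0 := by
      linear_combination (1/16) * h0 + (-1/2) * h2
  have k0235 : F 0 2 3 5 = 0 := by
      linear_combination (1/2) * h2 + (1/16) * h0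
  have k1234 : F 1 2 3 4 = 0 := by
      linear_combination (-1/2) * h2 + (-1/16) * h0 + (1/5) * h1
  refine sorted4 F a1 a2 a3 ?_
  intro i j k l hij hjk hkl
  by_cases h0 : wt6a i + wt6a j + wt6a k + wt6a l = 0
  · have hcase : ∀ i j k l : Fin 6, i < j → j < k → k < l →
        wt6a i + wt6a j + wt6a k + wt6a l = 0 →
        (i, j, k, l) ∈ ([(0, 1, 4, 5), (0, 2, 3, 5), (1, 2, 3, 4)] :
          List (Fin 6 × Fin 6 × Fin 6 × Fin 6)) := by decide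
    have hc2 := hcase i j k l hij hjk hkl h0
    simp only [List.mem_cons, Prod.mk.injEq, List.not_mem_nil, or_false] at hc2
    rcases hc2 with ⟨rfl, rfl, rfl, rfl⟩ |
      ⟨rfl, rfl, rfl, rfl⟩ |
      ⟨rfl, rfl, rfl, rfl⟩
    · exact k0145
    · exact k0235
    · exact k1234
  · refine (mul_eq_zero.mp (hw i j k l)).resolve_left ?_
    exact_mod_cast h0

theorem num4_6b (F : Fin 6 → Fin 6 → Fin 6 → Fin 6 → ℂ)
    (a1 : ∀ i j k l, F j i k l = - F i j k l) (a2 : ∀ i j k l, F i k j l = - F i j k l)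
    (a3 : ∀ i j k l, F i j l k = - F i j k l)
    (hw : ∀ i j k l, ((wt6b i + wt6b j + wt6b k + wt6b l : ℤ) : ℂ) * F i j k l = 0)
    (he : ∀ i j k l, (up6b i : ℂ) * F (i - 1) j k l + (up6b j : ℂ) * F i (j - 1) k l +
      (up6b k : ℂ) * F i j (k - 1) l + (up6b l : ℂ) * F i j k (l - 1) = 0)
    (hc : ∀ i j, (1) * F i j 0 3 + (-1) * F i j 1 2 + (1) * F i j 4 5 = 0) :
    ∀ i j k l, F i j k l = 0 := by
  have z1 : ∀ i k l, F i i k l = 0 := fun i k l => by linear_combination (1/2) * a1 i i k l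
  have z2 : ∀ i k l, F i k k l = 0 := fun i k l => by linear_combination (1/2) * a2 i k k l
  have z3 : ∀ i k l, F i k l l = 0 := fun i k l => by linear_combination (1/2) * a3 i k l l
  have h0 : 4 * F 0 1 3 5 + 1 * F 0 2 3 4 = 0 := by
      simpa [up6b, z1, z2, z3] using he 0 2 3 5
  have h1 : 3 * F 0 2 3 4 = 0 := by
      simpa [up6b, z1, z2, z3] using he 1 2 3 4
  have h2 : 3 * F 0 3 4 5 + 3 * F 1 2 4 5 = 0 := by
      simpa [up6b, z1, z2, z3] using he 1 3 4 5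
  have h3 : (-1) * F 0 1 2 3 + 1 * F 0 3 4 5 = 0 := by
      linear_combination hc 0 3 - 1 * a2 0 0 3 3 - (-1/2) * a1 0 0 3 3 - (-1) * a2 0 1 3 2 - 1 * a3 0 1 2 3
  have h7 : 1 * F 0 3 4 5 + (-1) * F 1 2 4 5 = 0 := by
      linear_combination hc 4 5 - 1 * a2 4 0 5 3 - (-1) * a1 0 4 5 3 - 1 * a3 0 4 3 5 - (-1) * a2 0 3 4 5 - (-1) * a2 4 1 5 2 - 1 * a1 1 4 5 2 - (-1) * a3 1 4 2 5 - 1 * a2 1 2 4 5 - 1 * a2 4 4 5 5 - (-1/2) * a1 4 4 5 5
  have k0123 : F 0 1 2 3 = 0 := by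
      linear_combination (-1) * h3 + (1/6) * h2 + (1/2) * h7
  have k0135 : F 0 1 3 5 = 0 := by
      linear_combination (1/4) * h0 + (-1/12) * h1
  have k0234 : F 0 2 3 4 = 0 := by
      linear_combination (1/3) * h1
  have k0345 : F 0 3 4 5 = 0 := by
      linear_combination (1/6) * h2 + (1/2) * h7
  have k1245 : F 1 2 4 5 = 0 := by
      linear_combination (-1/2) * h7 + (1/6) * h2
  refine sorted4 F a1 a2 a3 ?_
  intro i j k l hij hjk hkl
  by_cases h0 : wt6b i + wt6b j + wt6b k + wt6b l = 0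
  · have hcase : ∀ i j k l : Fin 6, i < j → j < k → k < l →
        wt6b i + wt6b j + wt6b k + wt6b l = 0 →
        (i, j, k, l) ∈ ([(0, 1, 2, 3), (0, 1, 3, 5), (0, 2, 3, 4), (0, 3, 4, 5), (1, 2, 4, 5)] :
          List (Fin 6 × Fin 6 × Fin 6 × Fin 6)) := by decide
    have hc2 := hcase i j k l hij hjk hkl h0
    simp only [List.mem_cons, Prod.mk.injEq, List.not_mem_nil, or_false] at hc2
    rcases hc2 with ⟨rfl, rfl, rfl, rfl⟩ |
      ⟨rfl, rfl, rfl, rfl⟩ |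
      ⟨rfl, rfl, rfl, rfl⟩ |
      ⟨rfl, rfl, rfl, rfl⟩ |
      ⟨rfl, rfl, rfl, rfl⟩
    · exact k0123
    · exact k0135
    · exact k0234
    · exact k0345
    · exact k1245
  · refine (mul_eq_zero.mp (hw i j k l)).resolve_left ?_
    exact_mod_cast h0

theorem num4_8a (F : Fin 8 → Fin 8 → Fin 8 → Fin 8 → ℂ)
    (a1 : ∀ i j k l, F j i k l = - F i j k l) (a2 : ∀ i j k l, F i k j l = - F i j k l)
    (a3 : ∀ i j k l, F i j l k = - F i j k l)
    (hw : ∀ i j k l, ((wt8a i + wt8a j + wt8a k + wt8a l : ℤ) : ℂ) * F i j k l = 0)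
    (he : ∀ i j k l, (up8a i : ℂ) * F (i - 1) j k l + (up8a j : ℂ) * F i (j - 1) k l +
      (up8a k : ℂ) * F i j (k - 1) l + (up8a l : ℂ) * F i j k (l - 1) = 0)
    (hc : ∀ i j, (1) * F i j 0 7 + (-1) * F i j 1 6 + (1) * F i j 2 5 + (-1) * F i j 3 4 = 0) :
    ∀ i j k l, F i j k l = 0 := by
  have z1 : ∀ i k l, F i i k l = 0 := fun i k l => by linear_combination (1/2) * a1 i i k l
  have z2 : ∀ i k l, F i k k l = 0 := fun i k l => by linear_combination (1/2) * a2 i k k l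
  have z3 : ∀ i k l, F i k l l = 0 := fun i k l => by linear_combination (1/2) * a3 i k l l
  have h0 : 12 * F 0 1 6 7 + 12 * F 0 2 5 7 = 0 := by
      simpa [up8a, z1, z2, z3] using he 0 2 6 7
  have h1 : 15 * F 0 2 5 7 + 15 * F 0 3 4 7 + 7 * F 0 3 5 6 = 0 := by
      simpa [up8a, z1, z2, z3] using he 0 3 5 7
  have h2 : 16 * F 0 3 5 6 = 0 := by
      simpa [up8a, z1, z2, z3] using he 0 4 5 6
  have h3 : 7 * F 0 2 5 7 + 15 * F 1 2 4 7 + 7 * F 1 2 5 6 = 0 := by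
      simpa [up8a, z1, z2, z3] using he 1 2 5 7
  have h4 : 7 * F 0 3 4 7 + 15 * F 1 2 4 7 + 7 * F 1 3 4 6 = 0 := by
      simpa [up8a, z1, z2, z3] using he 1 3 4 7
  have h5 : 7 * F 0 3 5 6 + 15 * F 1 2 5 6 + 15 * F 1 3 4 6 = 0 := by
      simpa [up8a, z1, z2, z3] using he 1 3 5 6
  have h6 : 12 * F 1 3 4 6 + 12 * F 2 3 4 5 = 0 := by
      simpa [up8a, z1, z2, z3] using he 2 3 4 6
  have h7 : (-1) * F 0 1 6 7 + 1 * F 0 2 5 7 + (-1) * F 0 3 4 7 = 0 := by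
      linear_combination hc 0 7 - 1 * a2 0 0 7 7 - (-1/2) * a1 0 0 7 7 - (-1) * a2 0 1 7 6 - 1 * a3 0 1 6 7 - 1 * a2 0 2 7 5 - (-1) * a3 0 2 5 7 - (-1) * a2 0 3 7 4 - 1 * a3 0 3 4 7
  have k0167 : F 0 1 6 7 = 0 := by
      linear_combination (1/18) * h0 + (-1/45) * h1 + (7/720) * h2 + (-1/3) * h7
  have k0257 : F 0 2 5 7 = 0 := by
      linear_combination (1/45) * h1 + (-7/720) * h2 + (1/3) * h7 + (1/36) * h0
  have k0347 : F 0 3 4 7 = 0 := by
      linear_combination (2/45) * h1 + (-7/360) * h2 + (-1/3) * h7 + (-1/36) * h0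
  have k0356 : F 0 3 5 6 = 0 := by
      linear_combination (1/16) * h2
  have k1247 : F 1 2 4 7 = 0 := by
      linear_combination (1/30) * h4 + (1/30) * h3 + (-7/450) * h1 + (49/3600) * h2 + (-7/450) * h5
  have k1256 : F 1 2 5 6 = 0 := by
      linear_combination (1/30) * h5 + (-7/360) * h2 + (-1/3) * h7 + (-1/36) * h0 + (1/90) * h1 + (1/14) * h3 + (-1/14) * h4
  have k1346 : F 1 3 4 6 = 0 := by
      linear_combination (1/3) * h7 + (1/36) * h0 + (-1/90) * h1 + (-1/14) * h3 + (-7/720) * h2 + (1/14) * h4 + (1/30) * h5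
  have k2345 : F 2 3 4 5 = 0 := by
      linear_combination (-1/3) * h7 + (-1/36) * h0 + (1/90) * h1 + (1/14) * h3 + (7/720) * h2 + (-1/14) * h4 + (-1/30) * h5 + (1/12) * h6
  refine sorted4 F a1 a2 a3 ?_
  intro i j k l hij hjk hkl
  by_cases h0 : wt8a i + wt8a j + wt8a k + wt8a l = 0
  · have hcase : ∀ i j k l : Fin 8, i < j → j < k → k < l →
        wt8a i + wt8a j + wt8a k + wt8a l = 0 →
        (i, j, k, l) ∈ ([(0, 1, 6, 7), (0, 2, 5, 7), (0, 3, 4, 7), (0, 3, 5, 6), (1, 2, 4, 7), (1, 2, 5, 6), (1, 3, 4, 6), (2, 3, 4, 5)] :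
          List (Fin 8 × Fin 8 × Fin 8 × Fin 8)) := by decide
    have hc2 := hcase i j k l hij hjk hkl h0
    simp only [List.mem_cons, Prod.mk.injEq, List.not_mem_nil, or_false] at hc2
    rcases hc2 with ⟨rfl, rfl, rfl, rfl⟩ |
      ⟨rfl, rfl, rfl, rfl⟩ |
      ⟨rfl, rfl, rfl, rfl⟩ |
      ⟨rfl, rfl, rfl, rfl⟩ |
      ⟨rfl, rfl, rfl, rfl⟩ |
      ⟨rfl, rfl, rfl, rfl⟩ |
      ⟨rfl, rfl, rfl, rfl⟩ |
      ⟨rfl, rfl, rfl, rfl⟩
    · exact k0167
    · exact k0257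
    · exact k0347
    · exact k0356
    · exact k1247
    · exact k1256
    · exact k1346
    · exact k2345
  · refine (mul_eq_zero.mp (hw i j k l)).resolve_left ?_
    exact_mod_cast h0

theorem num4_8b (F : Fin 8 → Fin 8 → Fin 8 → Fin 8 → ℂ)
    (a1 : ∀ i j k l, F j i k l = - F i j k l) (a2 : ∀ i j k l, F i k j l = - F i j k l)
    (a3 : ∀ i j k l, F i j l k = - F i j k l)
    (hw : ∀ i j k l, ((wt8b i + wt8b j + wt8b k + wt8b l : ℤ) : ℂ) * F i j k l = 0)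
    (he : ∀ i j k l, (up8b i : ℂ) * F (i - 1) j k l + (up8b j : ℂ) * F i (j - 1) k l +
      (up8b k : ℂ) * F i j (k - 1) l + (up8b l : ℂ) * F i j k (l - 1) = 0)
    (hc : ∀ i j, (1) * F i j 0 5 + (-1) * F i j 1 4 + (1) * F i j 2 3 + (1) * F i j 6 7 = 0) :
    ∀ i j k l, F i j k l = 0 := by
  have z1 : ∀ i k l, F i i k l = 0 := fun i k l => by linear_combination (1/2) * a1 i i k l
  have z2 : ∀ i k l, F i k k l = 0 := fun i k l => by linear_combination (1/2) * a2 i k k l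
  have z3 : ∀ i k l, F i k l l = 0 := fun i k l => by linear_combination (1/2) * a3 i k l l
  have h0 : 8 * F 0 1 4 5 + 8 * F 0 2 3 5 = 0 := by
      simpa [up8b, z1, z2, z3] using he 0 2 4 5
  have h1 : 9 * F 0 2 5 7 + 5 * F 0 3 4 7 + 1 * F 0 3 5 6 = 0 := by
      simpa [up8b, z1, z2, z3] using he 0 3 5 7
  have h2 : 8 * F 0 3 5 6 = 0 := by
      simpa [up8b, z1, z2, z3] using he 0 4 5 6
  have h3 : 5 * F 0 2 3 5 + 5 * F 1 2 3 4 = 0 := by
      simpa [up8b, z1, z2, z3] using he 1 2 3 5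
  have h4 : 5 * F 0 2 5 7 + 5 * F 1 2 4 7 + 1 * F 1 2 5 6 = 0 := by
      simpa [up8b, z1, z2, z3] using he 1 2 5 7
  have h5 : 5 * F 0 3 4 7 + 9 * F 1 2 4 7 + 1 * F 1 3 4 6 = 0 := by
      simpa [up8b, z1, z2, z3] using he 1 3 4 7
  have h6 : 5 * F 0 3 5 6 + 9 * F 1 2 5 6 + 5 * F 1 3 4 6 = 0 := by
      simpa [up8b, z1, z2, z3] using he 1 3 5 6
  have h7 : 5 * F 0 5 6 7 + 5 * F 1 4 6 7 = 0 := by
      simpa [up8b, z1, z2, z3] using he 1 5 6 7
  have h8 : 8 * F 1 3 4 6 = 0 := by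
      simpa [up8b, z1, z2, z3] using he 2 3 4 6
  have h9 : 8 * F 1 4 6 7 + 8 * F 2 3 6 7 = 0 := by
      simpa [up8b, z1, z2, z3] using he 2 4 6 7
  have h10 : (-1) * F 0 1 4 5 + 1 * F 0 2 3 5 + 1 * F 0 5 6 7 = 0 := by
      linear_combination hc 0 5 - 1 * a2 0 0 5 5 - (-1/2) * a1 0 0 5 5 - (-1) * a2 0 1 5 4 - 1 * a3 0 1 4 5 - 1 * a2 0 2 5 3 - (-1) * a3 0 2 3 5
  have h15 : 1 * F 0 5 6 7 + (-1) * F 1 4 6 7 + 1 * F 2 3 6 7 = 0 := by
      linear_combination hc 6 7 - 1 * a2 6 0 7 5 - (-1) * a1 0 6 7 5 - 1 * a3 0 6 5 7 - (-1) * a2 0 5 6 7 - (-1) * a2 6 1 7 4 - 1 * a1 1 6 7 4 - (-1) * a3 1 6 4 7 - 1 * a2 1 4 6 7 - 1 * a2 6 2 7 3 - (-1) * a1 2 6 7 3 - 1 * a3 2 6 3 7 - (-1) * a2 2 3 6 7 - 1 * a2 6 6 7 7 - (-1/2) * a1 6 6 7 7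
  have k0145 : F 0 1 4 5 = 0 := by
      linear_combination (1/16) * h0 + (-1/2) * h10 + (1/15) * h7 + (-1/48) * h9 + (1/6) * h15
  have k0235 : F 0 2 3 5 = 0 := by
      linear_combination (1/2) * h10 + (1/16) * h0 + (-1/15) * h7 + (1/48) * h9 + (-1/6) * h15
  have k0257 : F 0 2 5 7 = 0 := by
      linear_combination (1/18) * h1 + (1/10) * h4 + (-1/18) * h5 + (-1/90) * h6 + (1/72) * h8
  have k0347 : F 0 3 4 7 = 0 := by
      linear_combination (-9/50) * h4 + (1/10) * h1 + (-1/40) * h2 + (1/10) * h5 + (1/50) * h6 + (-1/40) * h8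
  have k0356 : F 0 3 5 6 = 0 := by
      linear_combination (1/8) * h2
  have k0567 : F 0 5 6 7 = 0 := by
      linear_combination (2/15) * h7 + (-1/24) * h9 + (1/3) * h15
  have k1234 : F 1 2 3 4 = 0 := by
      linear_combination (-1/2) * h10 + (-1/16) * h0 + (1/5) * h3 + (1/15) * h7 + (-1/48) * h9 + (1/6) * h15
  have k1247 : F 1 2 4 7 = 0 := by
      linear_combination (1/18) * h5 + (1/10) * h4 + (-1/18) * h1 + (1/72) * h2 + (-1/90) * h6
  have k1256 : F 1 2 5 6 = 0 := by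
      linear_combination (1/9) * h6 + (-5/72) * h2 + (-5/72) * h8
  have k1346 : F 1 3 4 6 = 0 := by
      linear_combination (1/8) * h8
  have k1467 : F 1 4 6 7 = 0 := by
      linear_combination (1/24) * h9 + (-1/3) * h15 + (1/15) * h7
  have k2367 : F 2 3 6 7 = 0 := by
      linear_combination (1/3) * h15 + (-1/15) * h7 + (1/12) * h9
  refine sorted4 F a1 a2 a3 ?_
  intro i j k l hij hjk hkl
  by_cases h0 : wt8b i + wt8b j + wt8b k + wt8b l = 0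
  · have hcase : ∀ i j k l : Fin 8, i < j → j < k → k < l →
        wt8b i + wt8b j + wt8b k + wt8b l = 0 →
        (i, j, k, l) ∈ ([(0, 1, 4, 5), (0, 2, 3, 5), (0, 2, 5, 7), (0, 3, 4, 7), (0, 3, 5, 6), (0, 5, 6, 7), (1, 2, 3, 4), (1, 2, 4, 7), (1, 2, 5, 6), (1, 3, 4, 6), (1, 4, 6, 7), (2, 3, 6, 7)] :
          List (Fin 8 × Fin 8 × Fin 8 × Fin 8)) := by decide
    have hc2 := hcase i j k l hij hjk hkl h0
    simp only [List.mem_cons, Prod.mk.injEq, List.not_mem_nil, or_false] at hc2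
    rcases hc2 with ⟨rfl, rfl, rfl, rfl⟩ |
      ⟨rfl, rfl, rfl, rfl⟩ |
      ⟨rfl, rfl, rfl, rfl⟩ |
      ⟨rfl, rfl, rfl, rfl⟩ |
      ⟨rfl, rfl, rfl, rfl⟩ |
      ⟨rfl, rfl, rfl, rfl⟩ |
      ⟨rfl, rfl, rfl, rfl⟩ |
      ⟨rfl, rfl, rfl, rfl⟩ |
      ⟨rfl, rfl, rfl, rfl⟩ |
      ⟨rfl, rfl, rfl, rfl⟩ |
      ⟨rfl, rfl, rfl, rfl⟩ |
      ⟨rfl, rfl, rfl, rfl⟩
    · exact k0145
    · exact k0235
    · exact k0257
    · exact k0347
    · exact k0356
    · exact k0567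
    · exact k1234
    · exact k1247
    · exact k1256
    · exact k1346
    · exact k1467
    · exact k2367
  · refine (mul_eq_zero.mp (hw i j k l)).resolve_left ?_
    exact_mod_cast h0

theorem num4_8c (F : Fin 8 → Fin 8 → Fin 8 → Fin 8 → ℂ)
    (a1 : ∀ i j k l, F j i k l = - F i j k l) (a2 : ∀ i j k l, F i k j l = - F i j k l)
    (a3 : ∀ i j k l, F i j l k = - F i j k l)
    (hw : ∀ i j k l, ((wt8c i + wt8c j + wt8c k + wt8c l : ℤ) : ℂ) * F i j k l = 0)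
    (he : ∀ i j k l, (up8c i : ℂ) * F (i - 1) j k l + (up8c j : ℂ) * F i (j - 1) k l +
      (up8c k : ℂ) * F i j (k - 1) l + (up8c l : ℂ) * F i j k (l - 1) = 0)
    (hc : ∀ i j, (1) * F i j 0 3 + (-1) * F i j 1 2 + (1) * F i j 4 5 + (1) * F i j 6 7 = 0) :
    ∃ t : ℂ, ∀ i j k l, F i j k l = t * ((sq g8c i j k l + 3 * sq t8c i j k l : ℤ) : ℂ) := by
  have z1 : ∀ i k l, F i i k l = 0 := fun i k l => by linear_combination (1/2) * a1 i i k l
  have z2 : ∀ i k l, F i k k l = 0 := fun i k l => by linear_combination (1/2) * a2 i k k l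
  have z3 : ∀ i k l, F i k l l = 0 := fun i k l => by linear_combination (1/2) * a3 i k l l
  have h0 : 4 * F 0 1 3 5 + 1 * F 0 2 3 4 = 0 := by
      simpa [up8c, z1, z2, z3] using he 0 2 3 5
  have h1 : 4 * F 0 1 3 7 + 1 * F 0 2 3 6 = 0 := by
      simpa [up8c, z1, z2, z3] using he 0 2 3 7
  have h2 : 3 * F 0 2 5 7 + 1 * F 0 3 4 7 + 1 * F 0 3 5 6 = 0 := by
      simpa [up8c, z1, z2, z3] using he 0 3 5 7
  have h3 : 3 * F 0 2 3 4 = 0 := by
      simpa [up8c, z1, z2, z3] using he 1 2 3 4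
  have h4 : 3 * F 0 2 3 6 = 0 := by
      simpa [up8c, z1, z2, z3] using he 1 2 3 6
  have h5 : 3 * F 0 2 5 7 + 1 * F 1 2 4 7 + 1 * F 1 2 5 6 = 0 := by
      simpa [up8c, z1, z2, z3] using he 1 2 5 7
  have h6 : 3 * F 0 3 4 5 + 3 * F 1 2 4 5 = 0 := by
      simpa [up8c, z1, z2, z3] using he 1 3 4 5
  have h7 : 3 * F 0 3 4 7 + 3 * F 1 2 4 7 + 1 * F 1 3 4 6 = 0 := by
      simpa [up8c, z1, z2, z3] using he 1 3 4 7
  have h8 : 3 * F 0 3 5 6 + 3 * F 1 2 5 6 + 1 * F 1 3 4 6 = 0 := by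
      simpa [up8c, z1, z2, z3] using he 1 3 5 6
  have h9 : 3 * F 0 3 6 7 + 3 * F 1 2 6 7 = 0 := by
      simpa [up8c, z1, z2, z3] using he 1 3 6 7
  have h10 : 4 * F 1 3 4 6 = 0 := by
      simpa [up8c, z1, z2, z3] using he 2 3 4 6
  have h11 : 4 * F 1 4 5 7 + 1 * F 2 4 5 6 = 0 := by
      simpa [up8c, z1, z2, z3] using he 2 4 5 7
  have h15 : (-1) * F 0 1 2 3 + 1 * F 0 3 4 5 + 1 * F 0 3 6 7 = 0 := by
      linear_combination hc 0 3 - 1 * a2 0 0 3 3 - (-1/2) * a1 0 0 3 3 - (-1) * a2 0 1 3 2 - 1 * a3 0 1 2 3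
  have h17 : (-1) * F 0 1 3 5 + 1 * F 1 5 6 7 = 0 := by
      linear_combination hc 1 5 - 1 * a2 1 0 5 3 - (-1) * a1 0 1 5 3 - 1 * a3 0 1 3 5 - (-1) * a2 1 1 5 2 - (1/2) * a1 1 1 5 2 - 1 * a2 1 4 5 5 - (-1/2) * a3 1 4 5 5
  have h18 : (-1) * F 0 1 3 7 + 1 * F 1 4 5 7 = 0 := by
      linear_combination hc 1 7 - 1 * a2 1 0 7 3 - (-1) * a1 0 1 7 3 - 1 * a3 0 1 3 7 - (-1) * a2 1 1 7 2 - (1/2) * a1 1 1 7 2 - 1 * a2 1 4 7 5 - (-1) * a3 1 4 5 7 - 1 * a2 1 6 7 7 - (-1/2) * a3 1 6 7 7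
  have h19 : (-1) * F 0 2 3 4 + 1 * F 2 4 6 7 = 0 := by
      linear_combination hc 2 4 - 1 * a2 2 0 4 3 - (-1) * a1 0 2 4 3 - 1 * a3 0 2 3 4 - (-1) * a2 2 1 4 2 - 1 * a1 1 2 4 2 - (-1) * a3 1 2 2 4 - (1/2) * a2 1 2 2 4 - (1/2) * a2 2 4 4 5
  have h21 : 1 * F 0 3 4 5 + (-1) * F 1 2 4 5 + 1 * F 4 5 6 7 = 0 := by
      linear_combination hc 4 5 - 1 * a2 4 0 5 3 - (-1) * a1 0 4 5 3 - 1 * a3 0 4 3 5 - (-1) * a2 0 3 4 5 - (-1) * a2 4 1 5 2 - 1 * a1 1 4 5 2 - (-1) * a3 1 4 2 5 - 1 * a2 1 2 4 5 - 1 * a2 4 4 5 5 - (-1/2) * a1 4 4 5 5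
  have h22 : 1 * F 0 3 4 7 + (-1) * F 1 2 4 7 = 0 := by
      linear_combination hc 4 7 - 1 * a2 4 0 7 3 - (-1) * a1 0 4 7 3 - 1 * a3 0 4 3 7 - (-1) * a2 0 3 4 7 - (-1) * a2 4 1 7 2 - 1 * a1 1 4 7 2 - (-1) * a3 1 4 2 7 - 1 * a2 1 2 4 7 - 1 * a2 4 4 7 5 - (-1/2) * a1 4 4 7 5 - 1 * a2 4 6 7 7 - (-1/2) * a3 4 6 7 7
  have h24 : 1 * F 0 3 6 7 + (-1) * F 1 2 6 7 + 1 * F 4 5 6 7 = 0 := by
      linear_combination hc 6 7 - 1 * a2 6 0 7 3 - (-1) * a1 0 6 7 3 - 1 * a3 0 6 3 7 - (-1) * a2 0 3 6 7 - (-1) * a2 6 1 7 2 - 1 * a1 1 6 7 2 - (-1) * a3 1 6 2 7 - 1 * a2 1 2 6 7 - 1 * a2 6 4 7 5 - (-1) * a1 4 6 7 5 - 1 * a3 4 6 5 7 - (-1) * a2 4 5 6 7 - 1 * a2 6 6 7 7 - (-1/2) * a1 6 6 7 7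
  have k0123 : F 0 1 2 3 = (-1) * F 4 5 6 7 := by
      linear_combination (-1) * h15 + (1/6) * h6 + (1/6) * h9 + (1/2) * h21 + (1/2) * h24
  have k0135 : F 0 1 3 5 = 0 := by
      linear_combination (1/4) * h0 + (-1/12) * h3
  have k0137 : F 0 1 3 7 = 0 := by
      linear_combination (1/4) * h1 + (-1/12) * h4
  have k0234 : F 0 2 3 4 = 0 := by
      linear_combination (1/3) * h3
  have k0236 : F 0 2 3 6 = 0 := by
      linear_combination (1/3) * h4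
  have k0257 : F 0 2 5 7 = 0 := by
      linear_combination (1/6) * h5 + (1/6) * h2 + (-1/18) * h7 + (-1/18) * h8 + (1/36) * h10
  have k0345 : F 0 3 4 5 = (-1/2) * F 4 5 6 7 := by
      linear_combination (1/6) * h6 + (1/2) * h21
  have k0347 : F 0 3 4 7 = 0 := by
      linear_combination (1/6) * h7 + (1/2) * h22 + (-1/24) * h10
  have k0356 : F 0 3 5 6 = 0 := by
      linear_combination (1/6) * h8 + (-1/2) * h22 + (1/2) * h2 + (-1/2) * h5 + (-1/24) * h10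
  have k0367 : F 0 3 6 7 = (-1/2) * F 4 5 6 7 := by
      linear_combination (1/6) * h9 + (1/2) * h24
  have k1245 : F 1 2 4 5 = (1/2) * F 4 5 6 7 := by
      linear_combination (-1/2) * h21 + (1/6) * h6
  have k1247 : F 1 2 4 7 = 0 := by
      linear_combination (1/6) * h7 + (-1/2) * h22 + (-1/24) * h10
  have k1256 : F 1 2 5 6 = 0 := by
      linear_combination (1/2) * h22 + (-1/2) * h2 + (1/2) * h5 + (1/6) * h8 + (-1/24) * h10
  have k1267 : F 1 2 6 7 = (1/2) * F 4 5 6 7 := by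
      linear_combination (-1/2) * h24 + (1/6) * h9
  have k1346 : F 1 3 4 6 = 0 := by
      linear_combination (1/4) * h10
  have k1457 : F 1 4 5 7 = 0 := by
      linear_combination 1 * h18 + (1/4) * h1 + (-1/12) * h4
  have k1567 : F 1 5 6 7 = 0 := by
      linear_combination 1 * h17 + (1/4) * h0 + (-1/12) * h3
  have k2456 : F 2 4 5 6 = 0 := by
      linear_combination (-4) * h18 + (-1) * h1 + (1/3) * h4 + 1 * h11
  have k2467 : F 2 4 6 7 = 0 := by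
      linear_combination 1 * h19 + (1/3) * h3
  refine ⟨F 4 5 6 7 / 4, ?_⟩
  have hz : ∀ i j k l, F i j k l - F 4 5 6 7 / 4 *
      ((sq g8c i j k l + 3 * sq t8c i j k l : ℤ) : ℂ) = 0 := by
    have hg1 : ∀ i j k l, sq g8c j i k l + 3 * sq t8c j i k l =
        -(sq g8c i j k l + 3 * sq t8c i j k l) := by
      intro i j k l
      simp only [sq]
      rw [g8c_alt j i, t8c_alt j i]; ring
    have hg2 : ∀ i j k l, sq g8c i k j l + 3 * sq t8c i k j l =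
        -(sq g8c i j k l + 3 * sq t8c i j k l) := by
      intro i j k l
      simp only [sq]
      rw [g8c_alt k j, t8c_alt k j]; ring
    have hg3 : ∀ i j k l, sq g8c i j l k + 3 * sq t8c i j l k =
        -(sq g8c i j k l + 3 * sq t8c i j k l) := by
      intro i j k l
      simp only [sq]
      rw [g8c_alt l k, t8c_alt l k]; ring
    refine sorted4 _ ?_ ?_ ?_ ?_
    · intro i j k l
      rw [a1 i j k l, hg1 i j k l]; push_cast; ring
    · intro i j k l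
      rw [a2 i j k l, hg2 i j k l]; push_cast; ring
    · intro i j k l
      rw [a3 i j k l, hg3 i j k l]; push_cast; ring
    intro i j k l hij hjk hkl
    by_cases h0 : wt8c i + wt8c j + wt8c k + wt8c l = 0
    · have hcase : ∀ i j k l : Fin 8, i < j → j < k → k < l →
          wt8c i + wt8c j + wt8c k + wt8c l = 0 →
          (i, j, k, l) ∈ ([(0, 1, 2, 3), (0, 1, 3, 5), (0, 1, 3, 7), (0, 2, 3, 4), (0, 2, 3, 6), (0, 2, 5, 7), (0, 3, 4, 5), (0, 3, 4, 7), (0, 3, 5, 6), (0, 3, 6, 7), (1, 2, 4, 5), (1, 2, 4, 7), (1, 2, 5, 6), (1, 2, 6, 7), (1, 3, 4, 6), (1, 4, 5, 7), (1, 5, 6, 7), (2, 4, 5, 6), (2, 4, 6, 7), (4, 5, 6, 7)] :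
            List (Fin 8 × Fin 8 × Fin 8 × Fin 8)) := by decide
      have hc2 := hcase i j k l hij hjk hkl h0
      simp only [List.mem_cons, Prod.mk.injEq, List.not_mem_nil, or_false] at hc2
      rcases hc2 with ⟨rfl, rfl, rfl, rfl⟩ |
        ⟨rfl, rfl, rfl, rfl⟩ |
        ⟨rfl, rfl, rfl, rfl⟩ |
        ⟨rfl, rfl, rfl, rfl⟩ |
        ⟨rfl, rfl, rfl, rfl⟩ |
        ⟨rfl, rfl, rfl, rfl⟩ |
        ⟨rfl, rfl, rfl, rfl⟩ |
        ⟨rfl, rfl, rfl, rfl⟩ |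
        ⟨rfl, rfl, rfl, rfl⟩ |
        ⟨rfl, rfl, rfl, rfl⟩ |
        ⟨rfl, rfl, rfl, rfl⟩ |
        ⟨rfl, rfl, rfl, rfl⟩ |
        ⟨rfl, rfl, rfl, rfl⟩ |
        ⟨rfl, rfl, rfl, rfl⟩ |
        ⟨rfl, rfl, rfl, rfl⟩ |
        ⟨rfl, rfl, rfl, rfl⟩ |
        ⟨rfl, rfl, rfl, rfl⟩ |
        ⟨rfl, rfl, rfl, rfl⟩ |
        ⟨rfl, rfl, rfl, rfl⟩ |
        ⟨rfl, rfl, rfl, rfl⟩
      · have e : sq g8c 0 1 2 3 + 3 * sq t8c 0 1 2 3 = -4 := by decide
        rw [e, k0123]; push_cast; ring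
      · have e : sq g8c 0 1 3 5 + 3 * sq t8c 0 1 3 5 = 0 := by decide
        rw [e, k0135]; push_cast; ring
      · have e : sq g8c 0 1 3 7 + 3 * sq t8c 0 1 3 7 = 0 := by decide
        rw [e, k0137]; push_cast; ring
      · have e : sq g8c 0 2 3 4 + 3 * sq t8c 0 2 3 4 = 0 := by decide
        rw [e, k0234]; push_cast; ring
      · have e : sq g8c 0 2 3 6 + 3 * sq t8c 0 2 3 6 = 0 := by decide
        rw [e, k0236]; push_cast; ring
      · have e : sq g8c 0 2 5 7 + 3 * sq t8c 0 2 5 7 = 0 := by decide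
        rw [e, k0257]; push_cast; ring
      · have e : sq g8c 0 3 4 5 + 3 * sq t8c 0 3 4 5 = -2 := by decide
        rw [e, k0345]; push_cast; ring
      · have e : sq g8c 0 3 4 7 + 3 * sq t8c 0 3 4 7 = 0 := by decide
        rw [e, k0347]; push_cast; ring
      · have e : sq g8c 0 3 5 6 + 3 * sq t8c 0 3 5 6 = 0 := by decide
        rw [e, k0356]; push_cast; ring
      · have e : sq g8c 0 3 6 7 + 3 * sq t8c 0 3 6 7 = -2 := by decide
        rw [e, k0367]; push_cast; ring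
      · have e : sq g8c 1 2 4 5 + 3 * sq t8c 1 2 4 5 = 2 := by decide
        rw [e, k1245]; push_cast; ring
      · have e : sq g8c 1 2 4 7 + 3 * sq t8c 1 2 4 7 = 0 := by decide
        rw [e, k1247]; push_cast; ring
      · have e : sq g8c 1 2 5 6 + 3 * sq t8c 1 2 5 6 = 0 := by decide
        rw [e, k1256]; push_cast; ring
      · have e : sq g8c 1 2 6 7 + 3 * sq t8c 1 2 6 7 = 2 := by decide
        rw [e, k1267]; push_cast; ring
      · have e : sq g8c 1 3 4 6 + 3 * sq t8c 1 3 4 6 = 0 := by decide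
        rw [e, k1346]; push_cast; ring
      · have e : sq g8c 1 4 5 7 + 3 * sq t8c 1 4 5 7 = 0 := by decide
        rw [e, k1457]; push_cast; ring
      · have e : sq g8c 1 5 6 7 + 3 * sq t8c 1 5 6 7 = 0 := by decide
        rw [e, k1567]; push_cast; ring
      · have e : sq g8c 2 4 5 6 + 3 * sq t8c 2 4 5 6 = 0 := by decide
        rw [e, k2456]; push_cast; ring
      · have e : sq g8c 2 4 6 7 + 3 * sq t8c 2 4 6 7 = 0 := by decide
        rw [e, k2467]; push_cast; ring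
      · have e : sq g8c 4 5 6 7 + 3 * sq t8c 4 5 6 7 = 4 := by decide
        rw [e]; push_cast; ring
    · have hF : F i j k l = 0 := by
        refine (mul_eq_zero.mp (hw i j k l)).resolve_left ?_
        exact_mod_cast h0
      have hG : ∀ i j k l : Fin 8, i < j → j < k → k < l →
          wt8c i + wt8c j + wt8c k + wt8c l ≠ 0 → sq g8c i j k l + 3 * sq t8c i j k l = 0 := by
        decide
      rw [hF, hG i j k l hij hjk hkl h0]; simp
  intro i j k l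
  exact sub_eq_zero.mp (hz i j k l)

end Pool.Agent.Helper8
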