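import Mathlib
import Pool.Agent.Helper8.Lie.ModLemmas

/-!
Invariant alternating functions of four vectors of an irreducible symplectic module of dimension
at most `8`.
-/

open Module LieAlgebra LieModule

set_option linter.unusedVariables false
set_option linter.unusedSectionVars false

namespace Pool.Agent.Helper8

/-- square of an alternating form -/
def sqw {V : Type*} [AddCommGroup V] [Module ℂ V] (ω : V →ₗ[ℂ] V →ₗ[ℂ] ℂ) (x y z w : V) : ℂ :=
  ω x y * ω z w - ω x z * ω y w + ω x w * ω y z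

section sq

variable {V : Type*} [AddCommGroup V] [Module ℂ V] (ω : V →ₗ[ℂ] V →ₗ[ℂ] ℂ)

lemma sqw_ml : ML4 (sqw ω) :=
  ((ML4.prod1 (ML2.of ω) (ML2.of ω)).sub (ML4.prod2 (ML2.of ω) (ML2.of ω))).add
    (ML4.prod3 (ML2.of ω) (ML2.of ω))

variable {ω} (alt : ∀ x y, ω x y = - ω y x)

include alt

lemma sqw_a1 (x y z w : V) : sqw ω y x z w = - sqw ω x y z w := by
  simp only [sqw]; rw [alt y x]; ring

lemma sqw_a2 (x y z w : V) : sqw ω x z y w = - sqw ω x y z w := by
  simp only [sqw]; rw [alt z y]; ring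

lemma sqw_a3 (x y z w : V) : sqw ω x y w z = - sqw ω x y z w := by
  simp only [sqw]; rw [alt w z]; ring

lemma sqw_contr {d : ℕ} {b c : Fin d → V} (D : Dual ω b c) (x y : V) :
    ∑ i, sqw ω x y (b i) (c i) = (d - 2) * ω x y := by
  simp only [sqw, Finset.sum_add_distrib, Finset.sum_sub_distrib, ← Finset.mul_sum]
  have h1 : ∑ i, ω x (b i) * ω y (c i) = ω x y := by
    rw [← D.sum1 (ω x).isLinear y]
    exact Finset.sum_congr rfl fun i _ => mul_comm _ _
  have h2 : ∑ i, ω x (c i) * ω y (b i) = ω y x := D.sum1 (ω y).isLinear x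
  rw [D.trace, h1, h2, alt y x]; ring

end sq

section

variable {L : Type*} [LieRing L] [LieAlgebra ℂ L] {p : Principal L}
  {V : Type*} [AddCommGroup V] [Module ℂ V] [LieRingModule L V] [LieModule ℂ L V]
  {ω : V →ₗ[ℂ] V →ₗ[ℂ] ℂ} (hω : Symp L ω)

include hω

lemma sqw_inv : Inv4 L (sqw ω) := by
  intro a x y z w
  simp only [sqw, hω.inv]; ring

lemma contr34_inv {V1 V2 : Type*} [AddCommGroup V1] [Module ℂ V1] [LieRingModule L V1]
    [AddCommGroup V2] [Module ℂ V2] [LieRingModule L V2] {d : ℕ} {b c : Fin d → V}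
    (D : Dual ω b c) {G : V1 → V2 → V → V → ℂ} (hG : ML4 G) (hI : Inv4 L G) :
    Inv2 L (fun x y => ∑ i, G x y (b i) (c i)) := by
  intro a x y
  have h1 := D.inv (g := fun z w => G x y z w) ⟨fun w => hG.l3 x y w, fun z => hG.l4 x y z⟩
    (fun z => ⁅a, z⁆) (fun z => ⁅a, z⁆) (fun u v => hω.inv a u v)
  show ∑ i, G ⁅a, x⁆ y (b i) (c i) + ∑ i, G x ⁅a, y⁆ (b i) (c i) = 0
  rw [← Finset.sum_add_distrib]
  have h2 : ∀ i, G ⁅a, x⁆ y (b i) (c i) + G x ⁅a, y⁆ (b i) (c i) =
      - (G x y ⁅a, b i⁆ (c i) + G x y (b i) ⁅a, c i⁆) := fun i => by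
    linear_combination hI a x y (b i) (c i)
  rw [Finset.sum_congr rfl fun i _ => h2 i, Finset.sum_neg_distrib, h1, neg_zero]

lemma contr12_inv {V1 V2 : Type*} [AddCommGroup V1] [Module ℂ V1] [LieRingModule L V1]
    [AddCommGroup V2] [Module ℂ V2] [LieRingModule L V2] {d : ℕ} {b c : Fin d → V}
    (D : Dual ω b c) {G : V → V → V1 → V2 → ℂ} (hG : ML4 G) (hI : Inv4 L G) :
    Inv2 L (fun z w => ∑ i, G (b i) (c i) z w) := by
  intro a z w
  have h1 := D.inv (g := fun x y => G x y z w) ⟨fun y => hG.l1 y z w, fun x => hG.l2 x z w⟩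
    (fun z => ⁅a, z⁆) (fun z => ⁅a, z⁆) (fun u v => hω.inv a u v)
  show ∑ i, G (b i) (c i) ⁅a, z⁆ w + ∑ i, G (b i) (c i) z ⁅a, w⁆ = 0
  rw [← Finset.sum_add_distrib]
  have h2 : ∀ i, G (b i) (c i) ⁅a, z⁆ w + G (b i) (c i) z ⁅a, w⁆ =
      - (G ⁅a, b i⁆ (c i) z w + G (b i) ⁅a, c i⁆ z w) := fun i => by
    linear_combination hI a (b i) (c i) z w
  rw [Finset.sum_congr rfl fun i _ => h2 i, Finset.sum_neg_distrib, h1, neg_zero]

end

lemma contr34_ml {V V1 V2 : Type*} [AddCommGroup V] [Module ℂ V] [AddCommGroup V1] [Module ℂ V1]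
    [AddCommGroup V2] [Module ℂ V2] {d : ℕ} {b c : Fin d → V}
    {G : V1 → V2 → V → V → ℂ} (hG : ML4 G) : ML2 (fun x y => ∑ i, G x y (b i) (c i)) :=
  ⟨fun y => isLin_sum _ fun i => hG.l1 y (b i) (c i),
    fun x => isLin_sum _ fun i => hG.l2 x (b i) (c i)⟩

lemma contr12_ml {V V1 V2 : Type*} [AddCommGroup V] [Module ℂ V] [AddCommGroup V1] [Module ℂ V1]
    [AddCommGroup V2] [Module ℂ V2] {d : ℕ} {b c : Fin d → V}
    {G : V → V → V1 → V2 → ℂ} (hG : ML4 G) : ML2 (fun z w => ∑ i, G (b i) (c i) z w) :=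
  ⟨fun w => isLin_sum _ fun i => hG.l3 (b i) (c i) w,
    fun z => isLin_sum _ fun i => hG.l4 (b i) (c i) z⟩

/-- an alternating form whose square is invariant is invariant -/
theorem inv_of_sq {L : Type*} [LieRing L] [LieAlgebra ℂ L]
    {V : Type*} [AddCommGroup V] [Module ℂ V] [LieRingModule L V] [LieModule ℂ L V]
    (τ : V →ₗ[ℂ] V →ₗ[ℂ] ℂ) (alt : ∀ x y, τ x y = - τ y x) {d : ℕ} {b c : Fin d → V}
    (D : Dual τ b c) (hd : 4 < d) (hI : Inv4 L (sqw τ)) : Inv2 L (fun x y => τ x y) := by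
  intro a
  set g : V → V → ℂ := fun x y => τ ⁅a, x⁆ y + τ x ⁅a, y⁆ with hg
  have galt : ∀ x y, g x y = - g y x := by
    intro x y
    simp only [hg]
    rw [alt ⁅a, x⁆ y, alt x ⁅a, y⁆]; ring
  have gml : ML2 g := by
    refine ⟨fun y => ⟨fun u v => ?_, fun r u => ?_⟩, fun x => ⟨fun u v => ?_, fun r u => ?_⟩⟩
    · simp only [hg, lie_add, map_add, LinearMap.add_apply]; ring
    · simp only [hg, lie_smul, map_smul, LinearMap.smul_apply, smul_eq_mul]; ring
    · simp only [hg, lie_add, map_add]; ring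
    · simp only [hg, lie_smul, map_smul, smul_eq_mul]; ring
  have hE : ∀ x y z w, g x y * τ z w + τ x y * g z w - (τ x z * g y w + τ y w * g x z) +
      (τ x w * g y z + τ y z * g x w) = 0 := by
    intro x y z w
    have h := hI a x y z w
    simp only [sqw] at h
    simp only [hg]
    linear_combination h
  set t := ∑ i, g (b i) (c i) with ht
  have hxy : ∀ x y, ((d : ℂ) - 4) * g x y + t * τ x y = 0 := by
    intro x y
    have hsum : ∑ i, (g x y * τ (b i) (c i) + τ x y * g (b i) (c i) -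
        (τ x (b i) * g y (c i) + τ y (c i) * g x (b i)) +
        (τ x (c i) * g y (b i) + τ y (b i) * g x (c i))) = 0 :=
      Finset.sum_eq_zero fun i _ => hE x y (b i) (c i)
    simp only [Finset.sum_add_distrib, Finset.sum_sub_distrib, ← Finset.mul_sum] at hsum
    have h1 : ∑ i, τ x (b i) * g y (c i) = - g y x := by
      have h := D.sum2 (gml.l2 y) x
      have h' : ∀ i, τ x (b i) * g y (c i) = - (τ (b i) x * g y (c i)) := fun i => by
        rw [alt x]; ring
      rw [Finset.sum_congr rfl fun i _ => h' i, Finset.sum_neg_distrib, h]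
    have h2 : ∑ i, τ y (c i) * g x (b i) = g x y := D.sum1 (gml.l2 x) y
    have h3 : ∑ i, τ x (c i) * g y (b i) = g y x := D.sum1 (gml.l2 y) x
    have h4 : ∑ i, τ y (b i) * g x (c i) = - g x y := by
      have h := D.sum2 (gml.l2 x) y
      have h' : ∀ i, τ y (b i) * g x (c i) = - (τ (b i) y * g x (c i)) := fun i => by
        rw [alt y]; ring
      rw [Finset.sum_congr rfl fun i _ => h' i, Finset.sum_neg_distrib, h]
    rw [D.trace, h1, h2, h3, h4, ← ht, galt y x] at hsum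
    linear_combination hsum
  have ht0 : t = 0 := by
    have hsum : ∑ i, (((d : ℂ) - 4) * g (b i) (c i) + t * τ (b i) (c i)) = 0 :=
      Finset.sum_eq_zero fun i _ => hxy _ _
    rw [Finset.sum_add_distrib, ← Finset.mul_sum, ← Finset.mul_sum, D.trace, ← ht] at hsum
    have h1 : (2 * (d : ℂ) - 4) * t = 0 := by linear_combination hsum
    refine (mul_eq_zero.mp h1).resolve_left ?_
    intro h2
    have h3 : ((2 * d - 4 : ℤ) : ℂ) = 0 := by push_cast; exact h2
    have h4 : (2 * (d : ℤ) - 4) = 0 := by exact_mod_cast h3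
    omega
  intro x y
  have h1 := hxy x y
  rw [ht0, zero_mul, add_zero] at h1
  refine (mul_eq_zero.mp h1).resolve_left ?_
  intro h2
  have h3 : ((d - 4 : ℤ) : ℂ) = 0 := by push_cast; exact h2
  have h4 : ((d : ℤ) - 4) = 0 := by exact_mod_cast h3
  omega

end Pool.Agent.Helper8
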