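import Mathlib
import Pool.Agent.Helper8.Lie.Coord
import Pool.Agent.Helper8.Lie.FrameDefs
import Pool.Agent.Helper8.Lie.Num4
import Pool.Agent.Helper8.Lie.P4

/-!
Invariant alternating functions of four vectors of an irreducible symplectic module of dimension
at most `8`: they are multiples of the square of the form.
-/

open Module LieAlgebra LieModule

set_option linter.unusedVariables false
set_option linter.unusedSectionVars false

namespace Pool.Agent.Helper8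

section

variable {L : Type*} [LieRing L] [LieAlgebra ℂ L] (p : Principal L)
  {V : Type*} [AddCommGroup V] [Module ℂ V] [LieRingModule L V] [LieModule ℂ L V]
  [FiniteDimensional ℂ V] [LieModule.IsIrreducible ℂ L V]
  {ω : V →ₗ[ℂ] V →ₗ[ℂ] ℂ} (hω : Symp L ω) {G : V → V → V → V → ℂ}
  (hG : ML4 G) (hI : Inv4 L G) (a1 : ∀ x y z w, G y x z w = - G x y z w)
  (a2 : ∀ x y z w, G x z y w = - G x y z w) (a3 : ∀ x y z w, G x y w z = - G x y z w)

include hω hG hI a1 a2 a3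

/-- in dimension 4 -/
lemma P4_dim4 {up wt : Fin 4 → ℤ} (Fr : Adapted p ω 4 up wt g4) :
    ∃ c : ℂ, ∀ x y z w, G x y z w = c * sqw ω x y z w := by
  refine ⟨- G (Fr.b 0) (Fr.b 1) (Fr.b 2) (Fr.b 3), fun x y z w => ?_⟩
  rw [← sub_eq_zero]
  have hml : ML4 (fun x y z w => G x y z w - (- G (Fr.b 0) (Fr.b 1) (Fr.b 2) (Fr.b 3)) *
      sqw ω x y z w) := hG.sub ((sqw_ml ω).const_mul _)
  refine hml.ext Fr.b Fr.b Fr.b Fr.b ?_ x y z w
  refine sorted4 (fun i j k l => G (Fr.b i) (Fr.b j) (Fr.b k) (Fr.b l) -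
    (- G (Fr.b 0) (Fr.b 1) (Fr.b 2) (Fr.b 3)) * sqw ω (Fr.b i) (Fr.b j) (Fr.b k) (Fr.b l))
    ?_ ?_ ?_ ?_
  · intro i j k l
    simp only [a1 (Fr.b i), sqw_a1 hω.alt (Fr.b i)]; ring
  · intro i j k l
    simp only [a2 _ (Fr.b j), sqw_a2 hω.alt _ (Fr.b j)]; ring
  · intro i j k l
    simp only [a3 _ _ (Fr.b k), sqw_a3 hω.alt _ _ (Fr.b k)]; ring
  · intro i j k l hij hjk hkl
    have hcase : ∀ i j k l : Fin 4, i < j → j < k → k < l → i = 0 ∧ j = 1 ∧ k = 2 ∧ l = 3 := by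
      decide
    obtain ⟨rfl, rfl, rfl, rfl⟩ := hcase i j k l hij hjk hkl
    simp only [sqw, Fr.g_b]
    have e1 : g4 0 1 = 0 := by decide
    have e2 : g4 2 3 = 0 := by decide
    have e3 : g4 0 2 = 0 := by decide
    have e4 : g4 1 3 = 0 := by decide
    have e5 : g4 0 3 = 1 := by decide
    have e6 : g4 1 2 = -1 := by decide
    rw [e1, e2, e3, e4, e5, e6]
    push_cast; ring

/-- the primitive part -/
lemma P4_prim {d : ℕ} [NeZero d] {up wt : Fin d → ℤ} {g : Fin d → Fin d → ℤ}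
    (Fr : Adapted p ω d up wt g) (σ : Fin d → Fin d) (D : Dual ω Fr.b (Fr.c σ)) (hd : 2 < d) :
    ∃ c : ℂ, ∀ x y, ∑ i, (G x y (Fr.b i) (Fr.c σ i) - c * sqw ω x y (Fr.b i) (Fr.c σ i)) = 0 := by
  obtain ⟨t, ht⟩ := schur hω (contr34_ml (b := Fr.b) (c := Fr.c σ) hG) (contr34_inv hω D hG hI)
  have hd' : ((d : ℂ) - 2) ≠ 0 := by
    intro h
    have h3 : ((d - 2 : ℤ) : ℂ) = 0 := by push_cast; exact h
    have h4 : ((d : ℤ) - 2) = 0 := by exact_mod_cast h3
    omega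
  refine ⟨t / (d - 2), fun x y => ?_⟩
  rw [Finset.sum_sub_distrib, ht, ← Finset.mul_sum, sqw_contr hω.alt D]
  field_simp
  ring

end

end Pool.Agent.Helper8
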