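import Mathlib
import Pool.Agent.Helper8.Lie.Classify
import Pool.Agent.Helper8.Lie.P4Main

/-!
Invariant alternating functions of four vectors of an irreducible symplectic module of dimension
at most `8`: conclusion.
-/

open Module LieAlgebra LieModule

set_option linter.unusedVariables false
set_option linter.unusedSectionVars false

namespace Pool.Agent.Helper8

def s2 : Fin 2 → Fin 2 := ![1, 0]
def s4 : Fin 4 → Fin 4 := ![3, 2, 1, 0]
def s6a : Fin 6 → Fin 6 := ![5, 4, 3, 2, 1, 0]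
def s6b : Fin 6 → Fin 6 := ![3, 2, 1, 0, 5, 4]
def s8a : Fin 8 → Fin 8 := ![7, 6, 5, 4, 3, 2, 1, 0]
def s8b : Fin 8 → Fin 8 := ![5, 4, 3, 2, 1, 0, 7, 6]
def s8c : Fin 8 → Fin 8 := ![3, 2, 1, 0, 5, 4, 7, 6]

section

variable {L : Type*} [LieRing L] [LieAlgebra ℂ L] {p : Principal L}
  {V : Type*} [AddCommGroup V] [Module ℂ V] [LieRingModule L V]
  {ω : V →ₗ[ℂ] V →ₗ[ℂ] ℂ}

lemma dual2 (alt : ∀ x y, ω x y = - ω y x) (Fr : Adapted p ω 2 up2 wt2 g2) :
    Dual ω Fr.b (Fr.c s2) := Fr.dual alt s2 (by decide) (by decide) (by decide)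

lemma dual4 (alt : ∀ x y, ω x y = - ω y x) (Fr : Adapted p ω 4 up4 wt4 g4) :
    Dual ω Fr.b (Fr.c s4) := Fr.dual alt s4 (by decide) (by decide) (by decide)

lemma dual6a (alt : ∀ x y, ω x y = - ω y x) (Fr : Adapted p ω 6 up6a wt6a g6a) :
    Dual ω Fr.b (Fr.c s6a) := Fr.dual alt s6a (by decide) (by decide) (by decide)

lemma dual6b (alt : ∀ x y, ω x y = - ω y x) (Fr : Adapted p ω 6 up6b wt6b g6b) :
    Dual ω Fr.b (Fr.c s6b) := Fr.dual alt s6b (by decide) (by decide) (by decide)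

lemma dual8a (alt : ∀ x y, ω x y = - ω y x) (Fr : Adapted p ω 8 up8a wt8a g8a) :
    Dual ω Fr.b (Fr.c s8a) := Fr.dual alt s8a (by decide) (by decide) (by decide)

lemma dual8b (alt : ∀ x y, ω x y = - ω y x) (Fr : Adapted p ω 8 up8b wt8b g8b) :
    Dual ω Fr.b (Fr.c s8b) := Fr.dual alt s8b (by decide) (by decide) (by decide)

lemma dual8c (alt : ∀ x y, ω x y = - ω y x) (Fr : Adapted p ω 8 up8c wt8c g8c) :
    Dual ω Fr.b (Fr.c s8c) := Fr.dual alt s8c (by decide) (by decide) (by decide)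

end

section

variable {L : Type*} [LieRing L] [LieAlgebra ℂ L] (p : Principal L)
  {V : Type*} [AddCommGroup V] [Module ℂ V] [LieRingModule L V] [LieModule ℂ L V]
  [FiniteDimensional ℂ V] [LieModule.IsIrreducible ℂ L V]
  {ω : V →ₗ[ℂ] V →ₗ[ℂ] ℂ} (hω : Symp L ω) {G : V → V → V → V → ℂ}
  (hG : ML4 G) (hI : Inv4 L G) (a1 : ∀ x y z w, G y x z w = - G x y z w)
  (a2 : ∀ x y z w, G x z y w = - G x y z w) (a3 : ∀ x y z w, G x y w z = - G x y z w)

include hω hG hI a1 a2 a3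

lemma P4_6a (Fr : Adapted p ω 6 up6a wt6a g6a) :
    ∃ c : ℂ, ∀ x y z w, G x y z w = c * sqw ω x y z w := by
  have D := dual6a hω.alt Fr
  obtain ⟨c, hc⟩ := P4_prim p hω hG hI a1 a2 a3 Fr s6a D (by norm_num)
  set G' : V → V → V → V → ℂ := fun x y z w => G x y z w - c * sqw ω x y z w with hG'
  have hml : ML4 G' := hG.sub ((sqw_ml ω).const_mul _)
  have hinv : Inv4 L G' := hI.sub ((sqw_inv hω).const_mul _)
  have b1 : ∀ x y z w, G' y x z w = - G' x y z w := by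
    intro x y z w
    simp only [hG', a1 x, sqw_a1 hω.alt x]; ring
  have b2 : ∀ x y z w, G' x z y w = - G' x y z w := by
    intro x y z w
    simp only [hG', a2 x y, sqw_a2 hω.alt x y]; ring
  have b3 : ∀ x y z w, G' x y w z = - G' x y z w := by
    intro x y z w
    simp only [hG', a3 x y z, sqw_a3 hω.alt x y z]; ring
  have hc' : ∀ x y, (1) * G' x y (Fr.b 0) (Fr.b 5) + (-1) * G' x y (Fr.b 1) (Fr.b 4) + (1) * G' x y (Fr.b 2) (Fr.b 3) + (-1) * G' x y (Fr.b 3) (Fr.b 2) + (1) * G' x y (Fr.b 4) (Fr.b 1) + (-1) * G' x y (Fr.b 5) (Fr.b 0) = 0 := by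
    intro x y
    have h := hc x y
    have h' : ∀ i, G x y (Fr.b i) (Fr.c s6a i) - c * sqw ω x y (Fr.b i) (Fr.c s6a i) =
        (g6a i (s6a i) : ℂ) * G' x y (Fr.b i) (Fr.b (s6a i)) := fun i => by
      show G' x y (Fr.b i) (Fr.c s6a i) = _
      rw [Adapted.c, (hml.l4 _ _ _).map_smul, smul_eq_mul]
    rw [Finset.sum_congr rfl fun i _ => h' i] at h
    simpa [Fin.sum_univ_six, g6a, s6a] using h
  have hcc : ∀ x y, (1) * G' x y (Fr.b 0) (Fr.b 5) + (-1) * G' x y (Fr.b 1) (Fr.b 4) + (1) * G' x y (Fr.b 2) (Fr.b 3) = 0 := by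
    intro x y
    linear_combination (1/2 : ℂ) * hc' x y + (1/2 : ℂ) * b3 x y (Fr.b 0) (Fr.b 5) + (-1/2 : ℂ) * b3 x y (Fr.b 1) (Fr.b 4) + (1/2 : ℂ) * b3 x y (Fr.b 2) (Fr.b 3)
  have hz := num4_6a (fun i j k l => G' (Fr.b i) (Fr.b j) (Fr.b k) (Fr.b l))
    (fun i j k l => b1 _ _ _ _) (fun i j k l => b2 _ _ _ _) (fun i j k l => b3 _ _ _ _)
    (fun i j k l => coord_h Fr Fr Fr Fr hml hinv i j k l)
    (fun i j k l => coord_e Fr Fr Fr Fr hml hinv i j k l)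
    (fun i j => hcc (Fr.b i) (Fr.b j))
  refine ⟨c, fun x y z w => ?_⟩
  have h := hml.ext Fr.b Fr.b Fr.b Fr.b hz x y z w
  exact sub_eq_zero.mp h

lemma P4_6b (Fr : Adapted p ω 6 up6b wt6b g6b) :
    ∃ c : ℂ, ∀ x y z w, G x y z w = c * sqw ω x y z w := by
  have D := dual6b hω.alt Fr
  obtain ⟨c, hc⟩ := P4_prim p hω hG hI a1 a2 a3 Fr s6b D (by norm_num)
  set G' : V → V → V → V → ℂ := fun x y z w => G x y z w - c * sqw ω x y z w with hG'
  have hml : ML4 G' := hG.sub ((sqw_ml ω).const_mul _)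
  have hinv : Inv4 L G' := hI.sub ((sqw_inv hω).const_mul _)
  have b1 : ∀ x y z w, G' y x z w = - G' x y z w := by
    intro x y z w
    simp only [hG', a1 x, sqw_a1 hω.alt x]; ring
  have b2 : ∀ x y z w, G' x z y w = - G' x y z w := by
    intro x y z w
    simp only [hG', a2 x y, sqw_a2 hω.alt x y]; ring
  have b3 : ∀ x y z w, G' x y w z = - G' x y z w := by
    intro x y z w
    simp only [hG', a3 x y z, sqw_a3 hω.alt x y z]; ring
  have hc' : ∀ x y, (1) * G' x y (Fr.b 0) (Fr.b 3) + (-1) * G' x y (Fr.b 1) (Fr.b 2) + (1) * G' x y (Fr.b 2) (Fr.b 1) + (-1) * G' x y (Fr.b 3) (Fr.b 0) + (1) * G' x y (Fr.b 4) (Fr.b 5) + (-1) * G' x y (Fr.b 5) (Fr.b 4) = 0 := by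
    intro x y
    have h := hc x y
    have h' : ∀ i, G x y (Fr.b i) (Fr.c s6b i) - c * sqw ω x y (Fr.b i) (Fr.c s6b i) =
        (g6b i (s6b i) : ℂ) * G' x y (Fr.b i) (Fr.b (s6b i)) := fun i => by
      show G' x y (Fr.b i) (Fr.c s6b i) = _
      rw [Adapted.c, (hml.l4 _ _ _).map_smul, smul_eq_mul]
    rw [Finset.sum_congr rfl fun i _ => h' i] at h
    simpa [Fin.sum_univ_six, g6b, s6b] using h
  have hcc : ∀ x y, (1) * G' x y (Fr.b 0) (Fr.b 3) + (-1) * G' x y (Fr.b 1) (Fr.b 2) + (1) * G' x y (Fr.b 4) (Fr.b 5) = 0 := by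
    intro x y
    linear_combination (1/2 : ℂ) * hc' x y + (1/2 : ℂ) * b3 x y (Fr.b 0) (Fr.b 3) + (-1/2 : ℂ) * b3 x y (Fr.b 1) (Fr.b 2) + (1/2 : ℂ) * b3 x y (Fr.b 4) (Fr.b 5)
  have hz := num4_6b (fun i j k l => G' (Fr.b i) (Fr.b j) (Fr.b k) (Fr.b l))
    (fun i j k l => b1 _ _ _ _) (fun i j k l => b2 _ _ _ _) (fun i j k l => b3 _ _ _ _)
    (fun i j k l => coord_h Fr Fr Fr Fr hml hinv i j k l)
    (fun i j k l => coord_e Fr Fr Fr Fr hml hinv i j k l)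
    (fun i j => hcc (Fr.b i) (Fr.b j))
  refine ⟨c, fun x y z w => ?_⟩
  have h := hml.ext Fr.b Fr.b Fr.b Fr.b hz x y z w
  exact sub_eq_zero.mp h

lemma P4_8a (Fr : Adapted p ω 8 up8a wt8a g8a) :
    ∃ c : ℂ, ∀ x y z w, G x y z w = c * sqw ω x y z w := by
  have D := dual8a hω.alt Fr
  obtain ⟨c, hc⟩ := P4_prim p hω hG hI a1 a2 a3 Fr s8a D (by norm_num)
  set G' : V → V → V → V → ℂ := fun x y z w => G x y z w - c * sqw ω x y z w with hG'
  have hml : ML4 G' := hG.sub ((sqw_ml ω).const_mul _)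
  have hinv : Inv4 L G' := hI.sub ((sqw_inv hω).const_mul _)
  have b1 : ∀ x y z w, G' y x z w = - G' x y z w := by
    intro x y z w
    simp only [hG', a1 x, sqw_a1 hω.alt x]; ring
  have b2 : ∀ x y z w, G' x z y w = - G' x y z w := by
    intro x y z w
    simp only [hG', a2 x y, sqw_a2 hω.alt x y]; ring
  have b3 : ∀ x y z w, G' x y w z = - G' x y z w := by
    intro x y z w
    simp only [hG', a3 x y z, sqw_a3 hω.alt x y z]; ring
  have hc' : ∀ x y, (1) * G' x y (Fr.b 0) (Fr.b 7) + (-1) * G' x y (Fr.b 1) (Fr.b 6) + (1) * G' x y (Fr.b 2) (Fr.b 5) + (-1) * G' x y (Fr.b 3) (Fr.b 4) + (1) * G' x y (Fr.b 4) (Fr.b 3) + (-1) * G' x y (Fr.b 5) (Fr.b 2) + (1) * G' x y (Fr.b 6) (Fr.b 1) + (-1) * G' x y (Fr.b 7) (Fr.b 0) = 0 := by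
    intro x y
    have h := hc x y
    have h' : ∀ i, G x y (Fr.b i) (Fr.c s8a i) - c * sqw ω x y (Fr.b i) (Fr.c s8a i) =
        (g8a i (s8a i) : ℂ) * G' x y (Fr.b i) (Fr.b (s8a i)) := fun i => by
      show G' x y (Fr.b i) (Fr.c s8a i) = _
      rw [Adapted.c, (hml.l4 _ _ _).map_smul, smul_eq_mul]
    rw [Finset.sum_congr rfl fun i _ => h' i] at h
    simpa [Fin.sum_univ_eight, g8a, s8a] using h
  have hcc : ∀ x y, (1) * G' x y (Fr.b 0) (Fr.b 7) + (-1) * G' x y (Fr.b 1) (Fr.b 6) + (1) * G' x y (Fr.b 2) (Fr.b 5) + (-1) * G' x y (Fr.b 3) (Fr.b 4) = 0 := by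
    intro x y
    linear_combination (1/2 : ℂ) * hc' x y + (1/2 : ℂ) * b3 x y (Fr.b 0) (Fr.b 7) + (-1/2 : ℂ) * b3 x y (Fr.b 1) (Fr.b 6) + (1/2 : ℂ) * b3 x y (Fr.b 2) (Fr.b 5) + (-1/2 : ℂ) * b3 x y (Fr.b 3) (Fr.b 4)
  have hz := num4_8a (fun i j k l => G' (Fr.b i) (Fr.b j) (Fr.b k) (Fr.b l))
    (fun i j k l => b1 _ _ _ _) (fun i j k l => b2 _ _ _ _) (fun i j k l => b3 _ _ _ _)
    (fun i j k l => coord_h Fr Fr Fr Fr hml hinv i j k l)
    (fun i j k l => coord_e Fr Fr Fr Fr hml hinv i j k l)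
    (fun i j => hcc (Fr.b i) (Fr.b j))
  refine ⟨c, fun x y z w => ?_⟩
  have h := hml.ext Fr.b Fr.b Fr.b Fr.b hz x y z w
  exact sub_eq_zero.mp h

lemma P4_8b (Fr : Adapted p ω 8 up8b wt8b g8b) :
    ∃ c : ℂ, ∀ x y z w, G x y z w = c * sqw ω x y z w := by
  have D := dual8b hω.alt Fr
  obtain ⟨c, hc⟩ := P4_prim p hω hG hI a1 a2 a3 Fr s8b D (by norm_num)
  set G' : V → V → V → V → ℂ := fun x y z w => G x y z w - c * sqw ω x y z w with hG'
  have hml : ML4 G' := hG.sub ((sqw_ml ω).const_mul _)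
  have hinv : Inv4 L G' := hI.sub ((sqw_inv hω).const_mul _)
  have b1 : ∀ x y z w, G' y x z w = - G' x y z w := by
    intro x y z w
    simp only [hG', a1 x, sqw_a1 hω.alt x]; ring
  have b2 : ∀ x y z w, G' x z y w = - G' x y z w := by
    intro x y z w
    simp only [hG', a2 x y, sqw_a2 hω.alt x y]; ring
  have b3 : ∀ x y z w, G' x y w z = - G' x y z w := by
    intro x y z w
    simp only [hG', a3 x y z, sqw_a3 hω.alt x y z]; ring
  have hc' : ∀ x y, (1) * G' x y (Fr.b 0) (Fr.b 5) + (-1) * G' x y (Fr.b 1) (Fr.b 4) + (1) * G' x y (Fr.b 2) (Fr.b 3) + (-1) * G' x y (Fr.b 3) (Fr.b 2) + (1) * G' x y (Fr.b 4) (Fr.b 1) + (-1) * G' x y (Fr.b 5) (Fr.b 0) + (1) * G' x y (Fr.b 6) (Fr.b 7) + (-1) * G' x y (Fr.b 7) (Fr.b 6) = 0 := by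
    intro x y
    have h := hc x y
    have h' : ∀ i, G x y (Fr.b i) (Fr.c s8b i) - c * sqw ω x y (Fr.b i) (Fr.c s8b i) =
        (g8b i (s8b i) : ℂ) * G' x y (Fr.b i) (Fr.b (s8b i)) := fun i => by
      show G' x y (Fr.b i) (Fr.c s8b i) = _
      rw [Adapted.c, (hml.l4 _ _ _).map_smul, smul_eq_mul]
    rw [Finset.sum_congr rfl fun i _ => h' i] at h
    simpa [Fin.sum_univ_eight, g8b, s8b] using h
  have hcc : ∀ x y, (1) * G' x y (Fr.b 0) (Fr.b 5) + (-1) * G' x y (Fr.b 1) (Fr.b 4) + (1) * G' x y (Fr.b 2) (Fr.b 3) + (1) * G' x y (Fr.b 6) (Fr.b 7) = 0 := by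
    intro x y
    linear_combination (1/2 : ℂ) * hc' x y + (1/2 : ℂ) * b3 x y (Fr.b 0) (Fr.b 5) + (-1/2 : ℂ) * b3 x y (Fr.b 1) (Fr.b 4) + (1/2 : ℂ) * b3 x y (Fr.b 2) (Fr.b 3) + (1/2 : ℂ) * b3 x y (Fr.b 6) (Fr.b 7)
  have hz := num4_8b (fun i j k l => G' (Fr.b i) (Fr.b j) (Fr.b k) (Fr.b l))
    (fun i j k l => b1 _ _ _ _) (fun i j k l => b2 _ _ _ _) (fun i j k l => b3 _ _ _ _)
    (fun i j k l => coord_h Fr Fr Fr Fr hml hinv i j k l)
    (fun i j k l => coord_e Fr Fr Fr Fr hml hinv i j k l)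
    (fun i j => hcc (Fr.b i) (Fr.b j))
  refine ⟨c, fun x y z w => ?_⟩
  have h := hml.ext Fr.b Fr.b Fr.b Fr.b hz x y z w
  exact sub_eq_zero.mp h

lemma P4_8c (Fr : Adapted p ω 8 up8c wt8c g8c) :
    ∃ c : ℂ, ∀ x y z w, G x y z w = c * sqw ω x y z w := by
  have D := dual8c hω.alt Fr
  obtain ⟨c, hc⟩ := P4_prim p hω hG hI a1 a2 a3 Fr s8c D (by norm_num)
  set G' : V → V → V → V → ℂ := fun x y z w => G x y z w - c * sqw ω x y z w with hG'
  have hml : ML4 G' := hG.sub ((sqw_ml ω).const_mul _)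
  have hinv : Inv4 L G' := hI.sub ((sqw_inv hω).const_mul _)
  have b1 : ∀ x y z w, G' y x z w = - G' x y z w := by
    intro x y z w
    simp only [hG', a1 x, sqw_a1 hω.alt x]; ring
  have b2 : ∀ x y z w, G' x z y w = - G' x y z w := by
    intro x y z w
    simp only [hG', a2 x y, sqw_a2 hω.alt x y]; ring
  have b3 : ∀ x y z w, G' x y w z = - G' x y z w := by
    intro x y z w
    simp only [hG', a3 x y z, sqw_a3 hω.alt x y z]; ring
  have hc' : ∀ x y, (1) * G' x y (Fr.b 0) (Fr.b 3) + (-1) * G' x y (Fr.b 1) (Fr.b 2) + (1) * G' x y (Fr.b 2) (Fr.b 1) + (-1) * G' x y (Fr.b 3) (Fr.b 0) + (1) * G' x y (Fr.b 4) (Fr.b 5) + (-1) * G' x y (Fr.b 5) (Fr.b 4) + (1) * G' x y (Fr.b 6) (Fr.b 7) + (-1) * G' x y (Fr.b 7) (Fr.b 6) = 0 := by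
    intro x y
    have h := hc x y
    have h' : ∀ i, G x y (Fr.b i) (Fr.c s8c i) - c * sqw ω x y (Fr.b i) (Fr.c s8c i) =
        (g8c i (s8c i) : ℂ) * G' x y (Fr.b i) (Fr.b (s8c i)) := fun i => by
      show G' x y (Fr.b i) (Fr.c s8c i) = _
      rw [Adapted.c, (hml.l4 _ _ _).map_smul, smul_eq_mul]
    rw [Finset.sum_congr rfl fun i _ => h' i] at h
    simpa [Fin.sum_univ_eight, g8c, s8c] using h
  have hcc : ∀ x y, (1) * G' x y (Fr.b 0) (Fr.b 3) + (-1) * G' x y (Fr.b 1) (Fr.b 2) + (1) * G' x y (Fr.b 4) (Fr.b 5) + (1) * G' x y (Fr.b 6) (Fr.b 7) = 0 := by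
    intro x y
    linear_combination (1/2 : ℂ) * hc' x y + (1/2 : ℂ) * b3 x y (Fr.b 0) (Fr.b 3) + (-1/2 : ℂ) * b3 x y (Fr.b 1) (Fr.b 2) + (1/2 : ℂ) * b3 x y (Fr.b 4) (Fr.b 5) + (1/2 : ℂ) * b3 x y (Fr.b 6) (Fr.b 7)
  obtain ⟨t, ht⟩ := num4_8c (fun i j k l => G' (Fr.b i) (Fr.b j) (Fr.b k) (Fr.b l))
    (fun i j k l => b1 _ _ _ _) (fun i j k l => b2 _ _ _ _) (fun i j k l => b3 _ _ _ _)
    (fun i j k l => coord_h Fr Fr Fr Fr hml hinv i j k l)
    (fun i j k l => coord_e Fr Fr Fr Fr hml hinv i j k l)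
    (fun i j => hcc (Fr.b i) (Fr.b j))
  -- the form with changed signs
  let ε : Fin 8 → ℤ := ![1, 1, 1, 1, -1, -1, -1, -1]
  let T : V →ₗ[ℂ] V := Fr.b.constr ℂ (fun i => (ε i : ℂ) • Fr.b i)
  let τ : V →ₗ[ℂ] V →ₗ[ℂ] ℂ := ω ∘ₗ T
  have hτ : ∀ i j, τ (Fr.b i) (Fr.b j) = (t8c i j : ℂ) := by
    intro i j
    show ω (T (Fr.b i)) (Fr.b j) = _
    rw [Basis.constr_basis, map_smul, LinearMap.smul_apply, Fr.g_b, smul_eq_mul]
    have h : ∀ i j, ε i * g8c i j = t8c i j := by decide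
    rw [← h i j]; push_cast; rfl
  have hτalt : ∀ x y, τ x y = - τ y x := by
    intro x y
    have h1 : ∀ i j, τ (Fr.b i) (Fr.b j) + τ (Fr.b j) (Fr.b i) = 0 := by
      intro i j
      rw [hτ, hτ, t8c_alt i j]; push_cast; ring
    have h2 : ∀ x y, τ x y + τ y x = 0 := by
      intro x y
      refine lin_ext Fr.b (g := fun x => τ x y + τ y x)
        (isLin_add ((ML2.of τ).l1 y) ((ML2.of τ).l2 y)) (fun i => ?_) x
      refine lin_ext Fr.b (g := fun y => τ (Fr.b i) y + τ y (Fr.b i))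
        (isLin_add ((ML2.of τ).l2 _) ((ML2.of τ).l1 _)) (fun j => h1 i j) y
    linear_combination h2 x y
  have hmain : ∀ x y z w, G' x y z w = t * (sqw ω x y z w + 3 * sqw τ x y z w) := by
    intro x y z w
    rw [← sub_eq_zero]
    have hml2 : ML4 (fun x y z w => G' x y z w - t * (sqw ω x y z w + 3 * sqw τ x y z w)) :=
      hml.sub (((sqw_ml ω).add ((sqw_ml τ).const_mul 3)).const_mul t)
    refine hml2.ext Fr.b Fr.b Fr.b Fr.b ?_ x y z w
    intro i j k l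
    have h := ht i j k l
    simp only [h, sqw, hτ, Fr.g_b, sq]
    push_cast; ring
  by_cases ht0 : t = 0
  · refine ⟨c, fun x y z w => ?_⟩
    have h := hmain x y z w
    rw [ht0, zero_mul] at h
    exact sub_eq_zero.mp h
  exfalso
  have hsq : Inv4 L (sqw τ) := by
    intro a x y z w
    have h1 := hinv a x y z w
    rw [hmain, hmain, hmain, hmain] at h1
    have h2 := sqw_inv hω a x y z w
    have h3 : (3 * t) * (sqw τ ⁅a, x⁆ y z w + sqw τ x ⁅a, y⁆ z w + sqw τ x y ⁅a, z⁆ w +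
        sqw τ x y z ⁅a, w⁆) = 0 := by linear_combination h1 - t * h2
    exact (mul_eq_zero.mp h3).resolve_left (mul_ne_zero (by norm_num) ht0)
  -- dual family for τ
  let c' : Fin 8 → V := fun i => (ε i : ℂ) • Fr.c s8c i
  have hε : ∀ i, (ε i : ℂ) * (ε i : ℂ) = 1 := by
    intro i
    have h : ∀ i, ε i * ε i = 1 := by decide
    exact_mod_cast congrArg (fun z : ℤ => (z : ℂ)) (h i)
  have hτω : ∀ i v, τ (Fr.b i) v = (ε i : ℂ) * ω (Fr.b i) v := by
    intro i v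
    show ω (T (Fr.b i)) v = _
    rw [Basis.constr_basis, map_smul, LinearMap.smul_apply, smul_eq_mul]
  have D' : Dual τ Fr.b c' := by
    have d3 : ∀ i j, τ (Fr.b i) (c' j) = if i = j then 1 else 0 := by
      intro i j
      rw [hτω, map_smul, D.d3, smul_eq_mul]
      split_ifs with h
      · subst h; rw [mul_one, hε]
      · ring
    refine ⟨fun v => ?_, fun w => ?_, d3⟩
    · have h1 : ∀ v, ∑ i, τ v (c' i) • Fr.b i = v := by
        intro v
        conv_rhs => rw [← Fr.b.sum_repr v]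
        refine Finset.sum_congr rfl fun i _ => ?_
        congr 1
        conv_lhs => rw [← Fr.b.sum_repr v]
        rw [map_sum, LinearMap.sum_apply, Finset.sum_eq_single i]
        · rw [LinearMap.map_smul₂, d3, if_pos rfl, smul_eq_mul, mul_one]
        · intro j _ hj
          rw [LinearMap.map_smul₂, d3, if_neg hj, smul_zero]
        · intro h; exact absurd (Finset.mem_univ _) h
      exact (h1 v).symm
    · conv_lhs => rw [D.d2 w]
      refine Finset.sum_congr rfl fun i _ => ?_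
      show _ = τ (Fr.b i) w • ((ε i : ℂ) • Fr.c s8c i)
      rw [hτω, smul_smul]
      congr 1
      linear_combination (- ω (Fr.b i) w) * hε i
  have hτinv := inv_of_sq τ hτalt D' (by norm_num) hsq
  obtain ⟨r, hr⟩ := schur hω (ML2.of τ) hτinv
  have e1 := hr (Fr.b 0) (Fr.b 3)
  have e2 := hr (Fr.b 4) (Fr.b 5)
  rw [hτ, Fr.g_b] at e1 e2
  have f1 : t8c 0 3 = 1 := by decide
  have f2 : g8c 0 3 = 1 := by decide
  have f3 : t8c 4 5 = -1 := by decide
  have f4 : g8c 4 5 = 1 := by decide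
  rw [f1, f2] at e1
  rw [f3, f4] at e2
  push_cast at e1 e2
  have : (2 : ℂ) = 0 := by linear_combination e1 - e2
  exact two_ne_zero this

end

/-- invariant alternating functions of four vectors of an irreducible symplectic module of
dimension `2`, `4`, `6` or `8` -/
theorem P4 {L : Type*} [LieRing L] [LieAlgebra ℂ L] (p : Principal L)
    {V : Type*} [AddCommGroup V] [Module ℂ V] [LieRingModule L V] [LieModule ℂ L V]
    [FiniteDimensional ℂ V] [LieModule.IsIrreducible ℂ L V]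
    {ω : V →ₗ[ℂ] V →ₗ[ℂ] ℂ} (hω : Symp L ω)
    (hd : finrank ℂ V = 2 ∨ finrank ℂ V = 4 ∨ finrank ℂ V = 6 ∨ finrank ℂ V = 8)
    {G : V → V → V → V → ℂ}
    (hG : ML4 G) (hI : Inv4 L G) (a1 : ∀ x y z w, G y x z w = - G x y z w)
    (a2 : ∀ x y z w, G x z y w = - G x y z w) (a3 : ∀ x y z w, G x y w z = - G x y z w) :
    ∃ c : ℂ, ∀ x y z w, G x y z w = c * sqw ω x y z w := by
  rcases hd with hd | hd | hd | hd
  · obtain ⟨F⟩ := p.frame_dim2 hω hd
    have Fr := Adapted.of hω F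
    refine ⟨0, fun x y z w => ?_⟩
    rw [zero_mul]
    refine hG.ext Fr.b Fr.b Fr.b Fr.b ?_ x y z w
    refine sorted4 (fun i j k l => G (Fr.b i) (Fr.b j) (Fr.b k) (Fr.b l))
      (fun i j k l => a1 _ _ _ _) (fun i j k l => a2 _ _ _ _) (fun i j k l => a3 _ _ _ _) ?_
    intro i j k l hij hjk hkl
    exfalso
    have h : ∀ i j k : Fin 2, i < j → j < k → False := by decide
    exact h i j k hij hjk
  · obtain ⟨F⟩ := p.frame_dim4 hω hd
    exact P4_dim4 p hω hG hI a1 a2 a3 (Adapted.of hω F)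
  · rcases p.frame_dim6 hω hd with ⟨⟨F⟩⟩ | ⟨⟨F⟩⟩
    · exact P4_6a p hω hG hI a1 a2 a3 (Adapted.of hω F)
    · exact P4_6b p hω hG hI a1 a2 a3 (Adapted.of hω F)
  · rcases p.frame_dim8 hω hd with ⟨⟨F⟩⟩ | ⟨⟨F⟩⟩ | ⟨⟨F⟩⟩
    · exact P4_8a p hω hG hI a1 a2 a3 (Adapted.of hω F)
    · exact P4_8b p hω hG hI a1 a2 a3 (Adapted.of hω F)
    · exact P4_8c p hω hG hI a1 a2 a3 (Adapted.of hω F)

end Pool.Agent.Helper8
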