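import Mathlib
import Pool.Agent.Helper8.Lie.NumRest
import Pool.Agent.Helper8.Lie.P4Final

/-!
Invariant functions of four vectors of mixed type.
-/

open Module LieAlgebra LieModule

set_option linter.unusedVariables false
set_option linter.unusedSectionVars false

namespace Pool.Agent.Helper8

section

variable {L : Type*} [LieRing L] [LieAlgebra ℂ L] (p : Principal L)
  {V : Type*} [AddCommGroup V] [Module ℂ V] [LieRingModule L V] [LieModule ℂ L V]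
  [FiniteDimensional ℂ V] [LieModule.IsIrreducible ℂ L V]
  {ω : V →ₗ[ℂ] V →ₗ[ℂ] ℂ} (hω : Symp L ω)
  {W : Type*} [AddCommGroup W] [Module ℂ W] [LieRingModule L W] [LieModule ℂ L W]
  [FiniteDimensional ℂ W] [LieModule.IsIrreducible ℂ L W]
  {ω' : W →ₗ[ℂ] W →ₗ[ℂ] ℂ} (hω' : Symp L ω')

/-- alternating functions on a plane -/
lemma alt_plane (Fr : Adapted p ω 2 up2 wt2 g2) {f : V → V → ℂ} (hf : ML2 f)
    (a : ∀ x y, f y x = - f x y) (x y : V) : f x y = ω x y * f (Fr.b 0) (Fr.b 1) := by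
  rw [← sub_eq_zero]
  have h2 : ∀ x y, f x y - ω x y * f (Fr.b 0) (Fr.b 1) = 0 := by
    intro x y
    refine lin_ext Fr.b (g := fun x => f x y - ω x y * f (Fr.b 0) (Fr.b 1))
      (isLin_sub (hf.l1 y) (isLin_mul_const _ ((ML2.of ω).l1 y))) (fun i => ?_) x
    refine lin_ext Fr.b (g := fun y => f (Fr.b i) y - ω (Fr.b i) y * f (Fr.b 0) (Fr.b 1))
      (isLin_sub (hf.l2 _) (isLin_mul_const _ ((ML2.of ω).l2 _))) (fun j => ?_) y
    show f (Fr.b i) (Fr.b j) - ω (Fr.b i) (Fr.b j) * f (Fr.b 0) (Fr.b 1) = 0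
    rw [Fr.g_b]
    have h00 := a (Fr.b 0) (Fr.b 0)
    have h11 := a (Fr.b 1) (Fr.b 1)
    have h01 := a (Fr.b 0) (Fr.b 1)
    have e00 : g2 0 0 = 0 := by decide
    have e01 : g2 0 1 = 1 := by decide
    have e10 : g2 1 0 = -1 := by decide
    have e11 : g2 1 1 = 0 := by decide
    fin_cases i <;> fin_cases j
    · simp only [Fin.zero_eta, Fin.isValue, e00]; push_cast; linear_combination (1/2 : ℂ) * h00
    · simp only [Fin.zero_eta, Fin.mk_one, Fin.isValue, e01]; push_cast; ring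
    · simp only [Fin.zero_eta, Fin.mk_one, Fin.isValue, e10]; push_cast; linear_combination h01
    · simp only [Fin.mk_one, Fin.isValue, e11]; push_cast; linear_combination (1/2 : ℂ) * h11
  exact h2 x y

include p hω in
/-- two slots in a plane -/
theorem P211_plane {V1 V2 : Type*} [AddCommGroup V1] [Module ℂ V1] [LieRingModule L V1]
    [AddCommGroup V2] [Module ℂ V2] [LieRingModule L V2] (hd : finrank ℂ V = 2)
    {G : V → V → V1 → V2 → ℂ} (hG : ML4 G) (hI : Inv4 L G)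
    (a1 : ∀ x y z w, G y x z w = - G x y z w) :
    ∃ γ : V1 → V2 → ℂ, ML2 γ ∧ Inv2 L γ ∧ ∀ x y z w, G x y z w = ω x y * γ z w := by
  obtain ⟨F⟩ := p.frame_dim2 hω hd
  have Fr := Adapted.of hω F
  have h1 : ∀ x y z w, G x y z w = ω x y * G (Fr.b 0) (Fr.b 1) z w := fun x y z w =>
    alt_plane p Fr (f := fun x y => G x y z w) ⟨fun y => hG.l1 y z w, fun x => hG.l2 x z w⟩
      (fun x y => a1 x y z w) x y
  refine ⟨fun z w => G (Fr.b 0) (Fr.b 1) z w, ⟨fun w => hG.l3 _ _ w, fun z => hG.l4 _ _ z⟩, ?_, h1⟩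
  intro a z w
  have h2 := hI a (Fr.b 0) (Fr.b 1) z w
  rw [h1 ⁅a, Fr.b 0⁆, h1 (Fr.b 0) ⁅a, Fr.b 1⁆, hω.inv] at h2
  linear_combination h2

include p hω in
/-- two slots in a module of dimension 4, the others in planes -/
theorem P211_four {V1 V2 : Type*} [AddCommGroup V1] [Module ℂ V1] [LieRingModule L V1]
    [LieModule ℂ L V1] [FiniteDimensional ℂ V1] [LieModule.IsIrreducible ℂ L V1]
    [AddCommGroup V2] [Module ℂ V2] [LieRingModule L V2]
    [LieModule ℂ L V2] [FiniteDimensional ℂ V2] [LieModule.IsIrreducible ℂ L V2]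
    {ω1 : V1 →ₗ[ℂ] V1 →ₗ[ℂ] ℂ} (hω1 : Symp L ω1) {ω2 : V2 →ₗ[ℂ] V2 →ₗ[ℂ] ℂ} (hω2 : Symp L ω2)
    (hd : finrank ℂ V = 4) (hd1 : finrank ℂ V1 = 2) (hd2 : finrank ℂ V2 = 2)
    {G : V → V → V1 → V2 → ℂ} (hG : ML4 G) (hI : Inv4 L G)
    (a1 : ∀ x y z w, G y x z w = - G x y z w) :
    ∃ γ : V1 → V2 → ℂ, ML2 γ ∧ Inv2 L γ ∧ ∀ x y z w, G x y z w = ω x y * γ z w := by
  obtain ⟨F⟩ := p.frame_dim4 hω hd
  obtain ⟨F1⟩ := p.frame_dim2 hω1 hd1
  obtain ⟨F2⟩ := p.frame_dim2 hω2 hd2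
  have Fr := Adapted.of hω F
  have Fr1 := Adapted.of hω1 F1
  have Fr2 := Adapted.of hω2 F2
  have D := dual4 hω.alt Fr
  set γ : V1 → V2 → ℂ := fun z w => ∑ i, G (Fr.b i) (Fr.c s4 i) z w with hγ
  have hγml : ML2 γ := contr12_ml hG
  have hγinv : Inv2 L γ := contr12_inv hω D hG hI
  set G' : V → V → V1 → V2 → ℂ := fun x y z w => G x y z w - (1/4) * (ω x y * γ z w) with hG'
  have hml : ML4 G' := hG.sub ((ML4.prod1 (ML2.of ω) hγml).const_mul _)
  have hinv : Inv4 L G' := hI.sub ((Inv4.prod1 hω.inv2 hγinv).const_mul _)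
  have b1 : ∀ x y z w, G' y x z w = - G' x y z w := by
    intro x y z w
    simp only [hG', a1 x y, hω.alt y x]; ring
  have hc' : ∀ z w, 1 * G' (Fr.b 0) (Fr.b 3) z w + -1 * G' (Fr.b 1) (Fr.b 2) z w +
      1 * G' (Fr.b 2) (Fr.b 1) z w + -1 * G' (Fr.b 3) (Fr.b 0) z w = 0 := by
    intro z w
    have h : ∑ i, G' (Fr.b i) (Fr.c s4 i) z w = 0 := by
      simp only [hG', Finset.sum_sub_distrib, ← Finset.mul_sum, ← Finset.sum_mul, D.trace]
      push_cast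
      ring
    have h' : ∀ i, G' (Fr.b i) (Fr.c s4 i) z w = (g4 i (s4 i) : ℂ) * G' (Fr.b i) (Fr.b (s4 i)) z w :=
      fun i => by rw [Adapted.c, (hml.l2 _ _ _).map_smul, smul_eq_mul]
    rw [Finset.sum_congr rfl fun i _ => h' i] at h
    simpa [Fin.sum_univ_four, g4, s4] using h
  have hz := num211 (fun i j k l => G' (Fr.b i) (Fr.b j) (Fr1.b k) (Fr2.b l))
    (fun i j k l => b1 _ _ _ _)
    (fun i j k l => coord_h Fr Fr Fr1 Fr2 hml hinv i j k l)
    (fun i j k l => coord_e Fr Fr Fr1 Fr2 hml hinv i j k l)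
    (fun k l => by
      have h1 := hc' (Fr1.b k) (Fr2.b l)
      have h2 := b1 (Fr.b 0) (Fr.b 3) (Fr1.b k) (Fr2.b l)
      have h3 := b1 (Fr.b 1) (Fr.b 2) (Fr1.b k) (Fr2.b l)
      linear_combination (1/2 : ℂ) * h1 + (1/2 : ℂ) * h2 - (1/2 : ℂ) * h3)
  refine ⟨fun z w => (1/4) * γ z w, ⟨fun w => isLin_const_mul _ (hγml.l1 w),
    fun z => isLin_const_mul _ (hγml.l2 z)⟩, fun a z w => ?_, fun x y z w => ?_⟩
  · linear_combination (1/4 : ℂ) * hγinv a z w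
  · have h := hml.ext Fr.b Fr.b Fr1.b Fr2.b hz x y z w
    simp only [hG'] at h
    linear_combination h

end

end Pool.Agent.Helper8
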