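import Mathlib
import Pool.Agent.Helper8.Lie.PMixed

/-!
Invariant functions of four vectors of type (2,2).
-/

open Module LieAlgebra LieModule

set_option linter.unusedVariables false
set_option linter.unusedSectionVars false

namespace Pool.Agent.Helper8

/-- exterior square of a pairing -/
def wsq {V W : Type*} (β : V → W → ℂ) (x y : V) (z w : W) : ℂ := β x z * β y w - β x w * β y z

section

variable {V W : Type*} [AddCommGroup V] [Module ℂ V] [AddCommGroup W] [Module ℂ W]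

lemma wsq_ml {β : V → W → ℂ} (hβ : ML2 β) : ML4 (wsq β) :=
  (ML4.prod2 hβ hβ).sub (ML4.prod3 hβ hβ)

end

/-- a pairing whose exterior square is invariant is invariant -/
theorem inv_of_wsq {L : Type*} [LieRing L] [LieAlgebra ℂ L]
    {V : Type*} [AddCommGroup V] [Module ℂ V] [LieRingModule L V] [LieModule ℂ L V]
    {W : Type*} [AddCommGroup W] [Module ℂ W] [LieRingModule L W] [LieModule ℂ L W]
    (β : V →ₗ[ℂ] W →ₗ[ℂ] ℂ) {d : ℕ} {b : Fin d → V} {c : Fin d → W}
    (D : Dual β b c) (hd : 2 < d) (hI : Inv4 L (wsq (fun x z => β x z))) :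
    Inv2 L (fun x z => β x z) := by
  intro a
  set g : V → W → ℂ := fun x z => β ⁅a, x⁆ z + β x ⁅a, z⁆ with hg
  have gml : ML2 g := by
    refine ⟨fun y => ⟨fun u v => ?_, fun r u => ?_⟩, fun x => ⟨fun u v => ?_, fun r u => ?_⟩⟩
    · simp only [hg, lie_add, map_add, LinearMap.add_apply]; ring
    · simp only [hg, lie_smul, map_smul, LinearMap.smul_apply, smul_eq_mul]; ring
    · simp only [hg, lie_add, map_add]; ring
    · simp only [hg, lie_smul, map_smul, smul_eq_mul]; ring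
  have hE : ∀ x y z w, g x z * β y w + β x z * g y w - (g x w * β y z + β x w * g y z) = 0 := by
    intro x y z w
    have h := hI a x y z w
    simp only [wsq] at h
    simp only [hg]
    linear_combination h
  set t := ∑ i, g (b i) (c i) with ht
  have hxz : ∀ x z, ((d : ℂ) - 2) * g x z + t * β x z = 0 := by
    intro x z
    have hsum : ∑ i, (g x z * β (b i) (c i) + β x z * g (b i) (c i) -
        (β (b i) z * g x (c i) + β x (c i) * g (b i) z)) = 0 :=
      Finset.sum_eq_zero fun i _ => by linear_combination hE x (b i) z (c i)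
    simp only [Finset.sum_add_distrib, Finset.sum_sub_distrib, ← Finset.mul_sum] at hsum
    have h1 : ∑ i, β (b i) z * g x (c i) = g x z := D.sum2 (gml.l2 x) z
    have h2 : ∑ i, β x (c i) * g (b i) z = g x z := D.sum1 (gml.l1 z) x
    rw [D.trace, h1, h2, ← ht] at hsum
    linear_combination hsum
  have ht0 : t = 0 := by
    have hsum : ∑ i, (((d : ℂ) - 2) * g (b i) (c i) + t * β (b i) (c i)) = 0 :=
      Finset.sum_eq_zero fun i _ => hxz _ _
    rw [Finset.sum_add_distrib, ← Finset.mul_sum, ← Finset.mul_sum, D.trace, ← ht] at hsum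
    have h1 : (2 * (d : ℂ) - 2) * t = 0 := by linear_combination hsum
    refine (mul_eq_zero.mp h1).resolve_left ?_
    intro h2
    have h3 : ((2 * d - 2 : ℤ) : ℂ) = 0 := by push_cast; exact h2
    have h4 : (2 * (d : ℤ) - 2) = 0 := by exact_mod_cast h3
    omega
  intro x z
  have h1 := hxz x z
  rw [ht0, zero_mul, add_zero] at h1
  refine (mul_eq_zero.mp h1).resolve_left ?_
  intro h2
  have h3 : ((d - 2 : ℤ) : ℂ) = 0 := by push_cast; exact h2
  have h4 : ((d : ℤ) - 2) = 0 := by exact_mod_cast h3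
  omega

section

variable {L : Type*} [LieRing L] [LieAlgebra ℂ L] (p : Principal L)
  {V : Type*} [AddCommGroup V] [Module ℂ V] [LieRingModule L V] [LieModule ℂ L V]
  [FiniteDimensional ℂ V] [LieModule.IsIrreducible ℂ L V]
  {ω : V →ₗ[ℂ] V →ₗ[ℂ] ℂ} (hω : Symp L ω)
  {W : Type*} [AddCommGroup W] [Module ℂ W] [LieRingModule L W] [LieModule ℂ L W]
  [FiniteDimensional ℂ W] [LieModule.IsIrreducible ℂ L W]
  {ω' : W →ₗ[ℂ] W →ₗ[ℂ] ℂ} (hω' : Symp L ω')

include p hω hω' in
/-- type (2,2), first module a plane -/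
theorem P22_plane (hd : finrank ℂ V = 2) {G : V → V → W → W → ℂ} (hG : ML4 G) (hI : Inv4 L G)
    (a1 : ∀ x y z w, G y x z w = - G x y z w) :
    ∃ c : ℂ, ∀ x y z w, G x y z w = c * (ω x y * ω' z w) := by
  obtain ⟨γ, hγ, hγI, h⟩ := P211_plane p hω hd hG hI a1
  obtain ⟨c, hc⟩ := schur hω' hγ hγI
  exact ⟨c, fun x y z w => by rw [h, hc]; ring⟩

include p hω hω' in
/-- type (2,2), second module a plane -/
theorem P22_plane' (hd : finrank ℂ W = 2) {G : V → V → W → W → ℂ} (hG : ML4 G) (hI : Inv4 L G)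
    (a3 : ∀ x y z w, G x y w z = - G x y z w) :
    ∃ c : ℂ, ∀ x y z w, G x y z w = c * (ω x y * ω' z w) := by
  obtain ⟨c, hc⟩ := P22_plane p hω' hω hd (G := fun z w x y => G x y z w)
    ⟨fun y z w => hG.l3 z w y, fun x z w => hG.l4 z w x, fun x y w => hG.l1 w x y,
      fun x y z => hG.l2 z x y⟩ (fun a z w x y => by linear_combination hI a x y z w)
    (fun z w x y => a3 x y z w)
  exact ⟨c, fun x y z w => by rw [hc z w x y]; ring⟩

include p hω hω' in
/-- type (2,2), dimension 4 -/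
theorem P22_four (hd : finrank ℂ V = 4) (hdW : finrank ℂ W = 4) {G : V → V → W → W → ℂ}
    (hG : ML4 G) (hI : Inv4 L G)
    (a1 : ∀ x y z w, G y x z w = - G x y z w) (a3 : ∀ x y z w, G x y w z = - G x y z w) :
    ∃ (c c' : ℂ) (β : V → W → ℂ), ML2 β ∧ Inv2 L β ∧
      ∀ x y z w, G x y z w = c * (ω x y * ω' z w) + c' * wsq β x y z w := by
  obtain ⟨F⟩ := p.frame_dim4 hω hd
  obtain ⟨F'⟩ := p.frame_dim4 hω' hdW
  have Fr := Adapted.of hω F
  have Fr' := Adapted.of hω' F'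
  have D := dual4 hω.alt Fr
  have D' := dual4 hω'.alt Fr'
  obtain ⟨t1, ht1⟩ := schur hω' (contr12_ml (b := Fr.b) (c := Fr.c s4) hG) (contr12_inv hω D hG hI)
  obtain ⟨t2, ht2⟩ := schur hω (contr34_ml (b := Fr'.b) (c := Fr'.c s4) hG)
    (contr34_inv hω' D' hG hI)
  have ht : t1 = t2 := by
    have h1 : ∑ k, ∑ i, G (Fr.b i) (Fr.c s4 i) (Fr'.b k) (Fr'.c s4 k) = 4 * t1 := by
      rw [Finset.sum_congr rfl fun k _ => ht1 (Fr'.b k) (Fr'.c s4 k), ← Finset.mul_sum, D'.trace]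
      push_cast; ring
    have h2 : ∑ k, ∑ i, G (Fr.b i) (Fr.c s4 i) (Fr'.b k) (Fr'.c s4 k) = 4 * t2 := by
      rw [Finset.sum_comm, Finset.sum_congr rfl fun i _ => ht2 (Fr.b i) (Fr.c s4 i),
        ← Finset.mul_sum, D.trace]
      push_cast; ring
    have h3 : (4 : ℂ) * (t1 - t2) = 0 := by rw [h1] at h2; linear_combination h2
    have h4 := (mul_eq_zero.mp h3).resolve_left (by norm_num)
    exact sub_eq_zero.mp h4
  have hωω : ML4 (fun x y z w => ω x y * ω' z w) := ML4.prod1 (ML2.of ω) (ML2.of ω')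
  have hωωI : Inv4 L (fun x y z w => ω x y * ω' z w) := Inv4.prod1 hω.inv2 hω'.inv2
  set G' : V → V → W → W → ℂ := fun x y z w => G x y z w - (t1 / 4) * (ω x y * ω' z w) with hG'
  have hml : ML4 G' := hG.sub (hωω.const_mul _)
  have hinv : Inv4 L G' := hI.sub (hωωI.const_mul _)
  have b1 : ∀ x y z w, G' y x z w = - G' x y z w := by
    intro x y z w
    simp only [hG', a1 x y, hω.alt y x]; ring
  have b3 : ∀ x y z w, G' x y w z = - G' x y z w := by
    intro x y z w
    simp only [hG']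
    rw [a3 x y z w, hω'.alt w z]; ring
  have hc1 : ∀ z w, 1 * G' (Fr.b 0) (Fr.b 3) z w + -1 * G' (Fr.b 1) (Fr.b 2) z w +
      1 * G' (Fr.b 2) (Fr.b 1) z w + -1 * G' (Fr.b 3) (Fr.b 0) z w = 0 := by
    intro z w
    have h : ∑ i, G' (Fr.b i) (Fr.c s4 i) z w = 0 := by
      simp only [hG', Finset.sum_sub_distrib, ← Finset.mul_sum, ← Finset.sum_mul, D.trace, ht1]
      push_cast; ring
    have h' : ∀ i, G' (Fr.b i) (Fr.c s4 i) z w = (g4 i (s4 i) : ℂ) * G' (Fr.b i) (Fr.b (s4 i)) z w :=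
      fun i => by rw [Adapted.c, (hml.l2 _ _ _).map_smul, smul_eq_mul]
    rw [Finset.sum_congr rfl fun i _ => h' i] at h
    simpa [Fin.sum_univ_four, g4, s4] using h
  have hc2 : ∀ x y, 1 * G' x y (Fr'.b 0) (Fr'.b 3) + -1 * G' x y (Fr'.b 1) (Fr'.b 2) +
      1 * G' x y (Fr'.b 2) (Fr'.b 1) + -1 * G' x y (Fr'.b 3) (Fr'.b 0) = 0 := by
    intro x y
    have h : ∑ i, G' x y (Fr'.b i) (Fr'.c s4 i) = 0 := by
      have e1 : ∑ i, G' x y (Fr'.b i) (Fr'.c s4 i) = ∑ i, G x y (Fr'.b i) (Fr'.c s4 i) -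
          (t1 / 4) * (ω x y * ∑ i, ω' (Fr'.b i) (Fr'.c s4 i)) := by
        simp only [hG', Finset.sum_sub_distrib, ← Finset.mul_sum]
      have e2 : ∑ i, G x y (Fr'.b i) (Fr'.c s4 i) = t2 * ω x y := ht2 x y
      rw [e1, e2, D'.trace, ← ht]
      push_cast; ring
    have h' : ∀ i, G' x y (Fr'.b i) (Fr'.c s4 i) =
        (g4 i (s4 i) : ℂ) * G' x y (Fr'.b i) (Fr'.b (s4 i)) :=
      fun i => by rw [Adapted.c, (hml.l4 _ _ _).map_smul, smul_eq_mul]
    rw [Finset.sum_congr rfl fun i _ => h' i] at h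
    simpa [Fin.sum_univ_four, g4, s4] using h
  obtain ⟨t, hφ⟩ := num22 (fun i j k l => G' (Fr.b i) (Fr.b j) (Fr'.b k) (Fr'.b l))
    (fun i j k l => b1 _ _ _ _) (fun i j k l => b3 _ _ _ _)
    (fun i j k l => coord_h Fr Fr Fr' Fr' hml hinv i j k l)
    (fun i j k l => coord_e Fr Fr Fr' Fr' hml hinv i j k l)
    (fun k l => by
      have h1 := hc1 (Fr'.b k) (Fr'.b l)
      have h2 := b1 (Fr.b 0) (Fr.b 3) (Fr'.b k) (Fr'.b l)
      have h3 := b1 (Fr.b 1) (Fr.b 2) (Fr'.b k) (Fr'.b l)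
      linear_combination (1/2 : ℂ) * h1 + (1/2 : ℂ) * h2 - (1/2 : ℂ) * h3)
    (fun i j => by
      have h1 := hc2 (Fr.b i) (Fr.b j)
      have h2 := b3 (Fr.b i) (Fr.b j) (Fr'.b 0) (Fr'.b 3)
      have h3 := b3 (Fr.b i) (Fr.b j) (Fr'.b 1) (Fr'.b 2)
      linear_combination (1/2 : ℂ) * h1 + (1/2 : ℂ) * h2 - (1/2 : ℂ) * h3)
  -- the pairing
  let T : V →ₗ[ℂ] W := Fr.b.constr ℂ (fun i => Fr'.b i)
  let β : V →ₗ[ℂ] W →ₗ[ℂ] ℂ := ω' ∘ₗ T
  have hβ : ∀ i j, β (Fr.b i) (Fr'.b j) = (g4 i j : ℂ) := by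
    intro i j
    show ω' (T (Fr.b i)) (Fr'.b j) = _
    rw [Basis.constr_basis, Fr'.g_b]
  have hmain : ∀ x y z w, G' x y z w =
      t * (2 * wsq (fun x z => β x z) x y z w - ω x y * ω' z w) := by
    intro x y z w
    rw [← sub_eq_zero]
    have hml2 : ML4 (fun x y z w => G' x y z w -
        t * (2 * wsq (fun x z => β x z) x y z w - ω x y * ω' z w)) :=
      hml.sub ((((wsq_ml (ML2.of β)).const_mul 2).sub hωω).const_mul t)
    refine hml2.ext Fr.b Fr.b Fr'.b Fr'.b ?_ x y z w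
    intro i j k l
    have h := hφ i j k l
    simp only [h, wsq, hβ, Fr.g_b, Fr'.g_b]
    push_cast; ring
  by_cases ht0 : t = 0
  · refine ⟨t1 / 4, 0, fun _ _ => 0, ⟨fun y => ⟨fun _ _ => (add_zero 0).symm,
      fun _ _ => (smul_zero _).symm⟩, fun x => ⟨fun _ _ => (add_zero 0).symm,
      fun _ _ => (smul_zero _).symm⟩⟩, fun a x y => add_zero 0, fun x y z w => ?_⟩
    have h := hmain x y z w
    rw [ht0, zero_mul] at h
    simp only [hG'] at h
    linear_combination h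
  have hsq : Inv4 L (wsq (fun x z => β x z)) := by
    intro a x y z w
    have h1 := hinv a x y z w
    rw [hmain, hmain, hmain, hmain] at h1
    have h2 := hωωI a x y z w
    have h3 : (2 * t) * (wsq (fun x z => β x z) ⁅a, x⁆ y z w + wsq (fun x z => β x z) x ⁅a, y⁆ z w +
        wsq (fun x z => β x z) x y ⁅a, z⁆ w + wsq (fun x z => β x z) x y z ⁅a, w⁆) = 0 := by
      linear_combination h1 + t * h2
    exact (mul_eq_zero.mp h3).resolve_left (mul_ne_zero (by norm_num) ht0)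
  have Dβ : Dual β Fr.b (Fr'.c s4) := by
    have d3 : ∀ i j, β (Fr.b i) (Fr'.c s4 j) = if i = j then 1 else 0 := by
      intro i j
      show ω' (T (Fr.b i)) _ = _
      rw [Basis.constr_basis, D'.d3]
    refine ⟨fun v => ?_, fun w => ?_, d3⟩
    · have h1 : ∀ v, ∑ i, β v (Fr'.c s4 i) • Fr.b i = v := by
        intro v
        conv_rhs => rw [← Fr.b.sum_repr v]
        refine Finset.sum_congr rfl fun i _ => ?_
        congr 1
        conv_lhs => rw [← Fr.b.sum_repr v]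
        rw [map_sum, LinearMap.sum_apply, Finset.sum_eq_single i]
        · rw [LinearMap.map_smul₂, d3, if_pos rfl, smul_eq_mul, mul_one]
        · intro j _ hj
          rw [LinearMap.map_smul₂, d3, if_neg hj, smul_zero]
        · intro h; exact absurd (Finset.mem_univ _) h
      exact (h1 v).symm
    · conv_lhs => rw [D'.d2 w]
      refine Finset.sum_congr rfl fun i _ => ?_
      show _ = ω' (T (Fr.b i)) w • Fr'.c s4 i
      rw [Basis.constr_basis]
  refine ⟨t1 / 4 - t, 2 * t, fun x z => β x z, ML2.of β, inv_of_wsq β Dβ (by norm_num) hsq,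
    fun x y z w => ?_⟩
  have h := hmain x y z w
  simp only [hG'] at h
  linear_combination h

end

end Pool.Agent.Helper8
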