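import Mathlib

/-!
Lie algebras acting irreducibly and faithfully on a family of spaces, with trace zero.
-/

open Module LieAlgebra LieModule

namespace Pool.Agent.Helper8

section

variable {L : Type*} [LieRing L] [LieAlgebra ℂ L] [FiniteDimensional ℂ L]

theorem trivialRadical_of_family {S : Type*} (V : S → Type*) [∀ s, AddCommGroup (V s)]
    [∀ s, Module ℂ (V s)] [∀ s, FiniteDimensional ℂ (V s)] [∀ s, LieRingModule L (V s)]
    [∀ s, LieModule ℂ L (V s)] [∀ s, LieModule.IsIrreducible ℂ L (V s)]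
    (htr : ∀ s (x : L), LinearMap.trace ℂ _ (toEnd ℂ L (V s) x) = 0)
    (hf : ∀ x : L, (∀ s (v : V s), ⁅x, v⁆ = 0) → x = 0) : HasTrivialRadical ℂ L := by
  rw [hasTrivialRadical_iff, LieSubmodule.eq_bot_iff]
  intro x hx
  apply hf
  intro s
  have _i := nontrivial_of_isIrreducible ℂ L (V s)
  obtain ⟨χ, hχ⟩ : ∃ χ : Module.Dual ℂ (radical ℂ L), Nontrivial (weightSpace (V s) χ) :=
    exists_nontrivial_weightSpace_of_isSolvable ℂ (radical ℂ L) (V s)
  let N : LieSubmodule ℂ L (V s) := weightSpaceOfIsLieTower ℂ (V s) χ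
  replace hχ : Nontrivial N := hχ
  replace hχ : N = ⊤ := N.eq_top_of_isIrreducible ℂ L (V s)
  replace hχ (x : L) (hx : x ∈ radical ℂ L) :
      toEnd ℂ _ (V s) x = χ ⟨x, hx⟩ • LinearMap.id := by
    ext m
    have hm : ∀ (y : L) (hy : y ∈ radical ℂ L), ⁅y, m⁆ = χ ⟨y, hy⟩ • m := by
      simpa [N, weightSpaceOfIsLieTower, mem_weightSpace] using (hχ ▸ LieSubmodule.mem_top _ : m ∈ N)
    simpa using hm x hx
  have h1 := hχ x hx
  have h2 := htr s x
  rw [h1, map_smul, LinearMap.trace_id, smul_eq_mul] at h2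
  have h3 : ((finrank ℂ (V s) : ℕ) : ℂ) ≠ 0 := by
    have : finrank ℂ (V s) ≠ 0 := (finrank_pos).ne'
    exact_mod_cast this
  have h4 : χ ⟨x, hx⟩ = 0 := (mul_eq_zero.mp h2).resolve_right h3
  intro v
  have h5 := congrArg (fun T : Module.End ℂ (V s) => T v) h1
  rw [h4, zero_smul] at h5
  exact h5

theorem perfect_of_killing [IsKilling ℂ L] (x : L) :
    x ∈ Submodule.span ℂ {z : L | ∃ a b : L, ⁅a, b⁆ = z} := by
  set D : LieIdeal ℂ L := ⁅(⊤ : LieIdeal ℂ L), (⊤ : LieIdeal ℂ L)⁆ with hD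
  have h1 := LieIdeal.isCompl_killingCompl D
  have h2 : IsLieAbelian D.killingCompl := by
    rw [LieSubmodule.lie_abelian_iff_lie_self_eq_bot]
    rw [eq_bot_iff]
    refine le_trans (le_inf ?_ ?_) (le_of_eq (disjoint_iff.mp h1.disjoint))
    · exact LieSubmodule.mono_lie le_top le_top
    · exact LieSubmodule.lie_le_right _ _
  have h3 : D.killingCompl = ⊥ := IsKilling.ideal_eq_bot_of_isLieAbelian _
  have h4 : D = ⊤ := by
    have h5 := h1.sup_eq_top
    rw [h3, sup_bot_eq] at h5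
    exact h5
  have h5 : x ∈ D.toSubmodule := by rw [h4]; trivial
  rw [hD, LieSubmodule.lieIdeal_oper_eq_linear_span'] at h5
  refine Submodule.span_mono ?_ h5
  rintro z ⟨a, -, b, -, hz⟩
  exact ⟨a, b, hz⟩

end

end Pool.Agent.Helper8
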