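import Mathlib
import Pool.Agent.Helper8.Lie.NumRest
import Pool.Agent.Helper8.Lie.P4Final

/-!
Invariant functions of four vectors of type (3,1) and (2,2).
-/

open Module LieAlgebra LieModule

set_option linter.unusedVariables false
set_option linter.unusedSectionVars false

namespace Pool.Agent.Helper8

section

variable {L : Type*} [LieRing L] [LieAlgebra ℂ L] (p : Principal L)
  {V : Type*} [AddCommGroup V] [Module ℂ V] [LieRingModule L V] [LieModule ℂ L V]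
  [FiniteDimensional ℂ V] [LieModule.IsIrreducible ℂ L V]
  {ω : V →ₗ[ℂ] V →ₗ[ℂ] ℂ} (hω : Symp L ω)
  {W : Type*} [AddCommGroup W] [Module ℂ W] [LieRingModule L W] [LieModule ℂ L W]
  [FiniteDimensional ℂ W] [LieModule.IsIrreducible ℂ L W]
  {ω' : W →ₗ[ℂ] W →ₗ[ℂ] ℂ} (hω' : Symp L ω')

/-- the function of type (3,1) attached to a bilinear function -/
def ext31 (ω : V →ₗ[ℂ] V →ₗ[ℂ] ℂ) (β : V → W → ℂ) (x y z : V) (w : W) : ℂ :=
  ω x y * β z w - ω x z * β y w + ω y z * β x w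

omit [LieRingModule L V] [LieModule ℂ L V] [FiniteDimensional ℂ V] [LieModule.IsIrreducible ℂ L V]
  [LieRingModule L W] [LieModule ℂ L W] [FiniteDimensional ℂ W] [LieModule.IsIrreducible ℂ L W] in
lemma ext31_ml {β : V → W → ℂ} (hβ : ML2 β) : ML4 (ext31 ω β) := by
  have hω2 := ML2.of ω
  refine ((ML4.prod1 hω2 hβ).sub (ML4.prod2 hω2 hβ)).add ?_
  exact ⟨fun y z w => isLin_const_mul _ (hβ.l1 w), fun x z w => isLin_mul_const _ (hω2.l1 z),
    fun x y w => isLin_mul_const _ (hω2.l2 y), fun x y z => isLin_const_mul _ (hβ.l2 x)⟩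

include hω in
lemma ext31_inv {β : V → W → ℂ} (hβ : Inv2 L β) : Inv4 L (ext31 ω β) := by
  intro a x y z w
  simp only [ext31]
  linear_combination (β z w) * hω.inv2 a x y - (β y w) * hω.inv2 a x z +
    (β x w) * hω.inv2 a y z + (ω x y) * hβ a z w - (ω x z) * hβ a y w + (ω y z) * hβ a x w

include hω in
lemma ext31_contr {d : ℕ} {b c : Fin d → V} (D : Dual ω b c) {β : V → W → ℂ} (hβ : ML2 β)
    (z : V) (w : W) : ∑ i, ext31 ω β (b i) (c i) z w = (d - 2) * β z w := by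
  simp only [ext31, Finset.sum_add_distrib, Finset.sum_sub_distrib, ← Finset.sum_mul]
  have h1 : ∑ i, ω (b i) z * β (c i) w = β z w := D.sum2 (hβ.l1 w) z
  have h2 : ∑ i, ω (c i) z * β (b i) w = - β z w := by
    have h' : ∀ i, ω (c i) z * β (b i) w = - (ω z (c i) * β (b i) w) := fun i => by
      rw [hω.alt (c i)]; ring
    rw [Finset.sum_congr rfl fun i _ => h' i, Finset.sum_neg_distrib, D.sum1 (hβ.l1 w) z]
  rw [D.trace, h1, h2]; ring

include p hω in
/-- type (3,1), dimension 4 -/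
theorem P31_four (hd : finrank ℂ V = 4) {G : V → V → V → W → ℂ} (hG : ML4 G) (hI : Inv4 L G)
    (a1 : ∀ x y z w, G y x z w = - G x y z w) (a2 : ∀ x y z w, G x z y w = - G x y z w) :
    ∃ β : V → W → ℂ, ML2 β ∧ Inv2 L β ∧ ∀ x y z w, G x y z w = ext31 ω β x y z w := by
  obtain ⟨F⟩ := p.frame_dim4 hω hd
  have Fr := Adapted.of hω F
  have D := dual4 hω.alt Fr
  set γ : V → W → ℂ := fun z w => ∑ i, G (Fr.b i) (Fr.c s4 i) z w with hγ
  have hγml : ML2 γ := contr12_ml hG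
  have hγinv : Inv2 L γ := contr12_inv hω D hG hI
  have hβml : ML2 (fun z w => (1/2) * γ z w) :=
    ⟨fun w => isLin_const_mul _ (hγml.l1 w), fun z => isLin_const_mul _ (hγml.l2 z)⟩
  have hβinv : Inv2 L (fun z w => (1/2) * γ z w) := fun a z w => by
    linear_combination (1/2 : ℂ) * hγinv a z w
  refine ⟨fun z w => (1/2) * γ z w, hβml, hβinv, ?_⟩
  set G' : V → V → V → W → ℂ := fun x y z w =>
    G x y z w - ext31 ω (fun z w => (1/2) * γ z w) x y z w with hG'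
  have hml : ML4 G' := hG.sub (ext31_ml hβml)
  have b1 : ∀ x y z w, G' y x z w = - G' x y z w := by
    intro x y z w
    simp only [hG', a1 x y, ext31, hω.alt y x]; ring
  have b2 : ∀ x y z w, G' x z y w = - G' x y z w := by
    intro x y z w
    simp only [hG', a2 x y, ext31, hω.alt z y]; ring
  have hc' : ∀ z w, 1 * G' (Fr.b 0) (Fr.b 3) z w + -1 * G' (Fr.b 1) (Fr.b 2) z w +
      1 * G' (Fr.b 2) (Fr.b 1) z w + -1 * G' (Fr.b 3) (Fr.b 0) z w = 0 := by
    intro z w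
    have h : ∑ i, G' (Fr.b i) (Fr.c s4 i) z w = 0 := by
      simp only [hG', Finset.sum_sub_distrib]
      rw [ext31_contr hω D hβml]
      show γ z w - ((4 : ℕ) - 2) * (1/2 * γ z w) = 0
      push_cast
      ring
    have h' : ∀ i, G' (Fr.b i) (Fr.c s4 i) z w = (g4 i (s4 i) : ℂ) * G' (Fr.b i) (Fr.b (s4 i)) z w :=
      fun i => by rw [Adapted.c, (hml.l2 _ _ _).map_smul, smul_eq_mul]
    rw [Finset.sum_congr rfl fun i _ => h' i] at h
    simpa [Fin.sum_univ_four, g4, s4] using h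
  intro x y z w
  rw [← sub_eq_zero]
  show G' x y z w = 0
  have hz := num3 (fun i j k => G' (Fr.b i) (Fr.b j) (Fr.b k) w)
    (fun i j k => b1 _ _ _ _) (fun i j k => b2 _ _ _ _) (fun i => by
      have h1 := hc' (Fr.b i) w
      have e1 := b1 (Fr.b 0) (Fr.b 3) (Fr.b i) w
      have e2 := b1 (Fr.b 1) (Fr.b 2) (Fr.b i) w
      have e3 := b1 (Fr.b 0) (Fr.b i) (Fr.b 3) w
      have e4 := b2 (Fr.b 0) (Fr.b 3) (Fr.b i) w
      have e5 := b1 (Fr.b 1) (Fr.b i) (Fr.b 2) w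
      have e6 := b2 (Fr.b 1) (Fr.b 2) (Fr.b i) w
      show G' (Fr.b i) (Fr.b 0) (Fr.b 3) w - G' (Fr.b i) (Fr.b 1) (Fr.b 2) w = 0
      linear_combination (1/2 : ℂ) * h1 + (1/2 : ℂ) * e1 - (1/2 : ℂ) * e2 + e3 - e5 - e4 + e6)
  refine lin_ext Fr.b (hml.l1 y z w) (fun i => ?_) x
  refine lin_ext Fr.b (hml.l2 _ z w) (fun j => ?_) y
  exact lin_ext Fr.b (hml.l3 _ _ w) (fun k => hz i j k) z

include hω in
/-- invariant pairings of modules of different dimension -/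
lemma pair_zero (hd : finrank ℂ W < finrank ℂ V) {β : V → W → ℂ} (hβ : ML2 β) (hI : Inv2 L β)
    (x : V) (y : W) : β x y = 0 := by
  obtain ⟨B, hB⟩ := exists_linear hβ
  rcases irr_cases (L := L) (LinearMap.ker B) (fun a v hv => by
    rw [LinearMap.mem_ker] at hv ⊢
    ext w
    rw [hB, LinearMap.zero_apply]
    have h1 := hI a v w
    rw [← hB v, hv, LinearMap.zero_apply, add_zero] at h1
    exact h1) with h | h
  · exfalso
    have h1 := LinearMap.finrank_le_finrank_of_injective (LinearMap.ker_eq_bot.mp h)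
    rw [Subspace.dual_finrank_eq] at h1
    omega
  · have h1 : x ∈ LinearMap.ker B := by rw [h]; trivial
    rw [← hB, LinearMap.mem_ker.mp h1]; rfl

include p hω hω' in
/-- type (3,1), dimensions 6 and 2 -/
theorem P31_six (hd : finrank ℂ V = 6) (hdW : finrank ℂ W = 2) {G : V → V → V → W → ℂ}
    (hG : ML4 G) (hI : Inv4 L G)
    (a1 : ∀ x y z w, G y x z w = - G x y z w) (a2 : ∀ x y z w, G x z y w = - G x y z w)
    (x y z : V) (w : W) : G x y z w = 0 := by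
  obtain ⟨FW⟩ := p.frame_dim2 hω' hdW
  have FrW := Adapted.of hω' FW
  rcases p.frame_dim6 hω hd with ⟨⟨F⟩⟩ | ⟨⟨F⟩⟩
  · have Fr := Adapted.of hω F
    have D := dual6a hω.alt Fr
    have hc : ∀ z w, ∑ i, G (Fr.b i) (Fr.c s6a i) z w = 0 :=
      pair_zero hω (by rw [hd, hdW]; norm_num) (contr12_ml hG) (contr12_inv hω D hG hI)
    have hc' : ∀ z w, 1 * G (Fr.b 0) (Fr.b 5) z w + -1 * G (Fr.b 1) (Fr.b 4) z w +
        1 * G (Fr.b 2) (Fr.b 3) z w + -1 * G (Fr.b 3) (Fr.b 2) z w +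
        1 * G (Fr.b 4) (Fr.b 1) z w + -1 * G (Fr.b 5) (Fr.b 0) z w = 0 := by
      intro z w
      have h := hc z w
      have h' : ∀ i, G (Fr.b i) (Fr.c s6a i) z w =
          (g6a i (s6a i) : ℂ) * G (Fr.b i) (Fr.b (s6a i)) z w :=
        fun i => by rw [Adapted.c, (hG.l2 _ _ _).map_smul, smul_eq_mul]
      rw [Finset.sum_congr rfl fun i _ => h' i] at h
      simpa [Fin.sum_univ_six, g6a, s6a] using h
    refine hG.ext Fr.b Fr.b Fr.b FrW.b ?_ x y z w
    refine num31_6a (fun i j k l => G (Fr.b i) (Fr.b j) (Fr.b k) (FrW.b l))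
      (fun i j k l => a1 _ _ _ _) (fun i j k l => a2 _ _ _ _)
      (fun i j k l => coord_h Fr Fr Fr FrW hG hI i j k l)
      (fun i j k l => coord_e Fr Fr Fr FrW hG hI i j k l) (fun k l => ?_)
    have h1 := hc' (Fr.b k) (FrW.b l)
    have e1 := a1 (Fr.b 0) (Fr.b 5) (Fr.b k) (FrW.b l)
    have e2 := a1 (Fr.b 1) (Fr.b 4) (Fr.b k) (FrW.b l)
    have e3 := a1 (Fr.b 2) (Fr.b 3) (Fr.b k) (FrW.b l)
    linear_combination (1/2 : ℂ) * h1 + (1/2 : ℂ) * e1 - (1/2 : ℂ) * e2 + (1/2 : ℂ) * e3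
  · have Fr := Adapted.of hω F
    have D := dual6b hω.alt Fr
    have hc : ∀ z w, ∑ i, G (Fr.b i) (Fr.c s6b i) z w = 0 :=
      pair_zero hω (by rw [hd, hdW]; norm_num) (contr12_ml hG) (contr12_inv hω D hG hI)
    have hc' : ∀ z w, 1 * G (Fr.b 0) (Fr.b 3) z w + -1 * G (Fr.b 1) (Fr.b 2) z w +
        1 * G (Fr.b 2) (Fr.b 1) z w + -1 * G (Fr.b 3) (Fr.b 0) z w +
        1 * G (Fr.b 4) (Fr.b 5) z w + -1 * G (Fr.b 5) (Fr.b 4) z w = 0 := by
      intro z w
      have h := hc z w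
      have h' : ∀ i, G (Fr.b i) (Fr.c s6b i) z w =
          (g6b i (s6b i) : ℂ) * G (Fr.b i) (Fr.b (s6b i)) z w :=
        fun i => by rw [Adapted.c, (hG.l2 _ _ _).map_smul, smul_eq_mul]
      rw [Finset.sum_congr rfl fun i _ => h' i] at h
      simpa [Fin.sum_univ_six, g6b, s6b] using h
    refine hG.ext Fr.b Fr.b Fr.b FrW.b ?_ x y z w
    refine num31_6b (fun i j k l => G (Fr.b i) (Fr.b j) (Fr.b k) (FrW.b l))
      (fun i j k l => a1 _ _ _ _) (fun i j k l => a2 _ _ _ _)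
      (fun i j k l => coord_h Fr Fr Fr FrW hG hI i j k l)
      (fun i j k l => coord_e Fr Fr Fr FrW hG hI i j k l) (fun k l => ?_)
    have h1 := hc' (Fr.b k) (FrW.b l)
    have e1 := a1 (Fr.b 0) (Fr.b 3) (Fr.b k) (FrW.b l)
    have e2 := a1 (Fr.b 1) (Fr.b 2) (Fr.b k) (FrW.b l)
    have e3 := a1 (Fr.b 4) (Fr.b 5) (Fr.b k) (FrW.b l)
    linear_combination (1/2 : ℂ) * h1 + (1/2 : ℂ) * e1 - (1/2 : ℂ) * e2 + (1/2 : ℂ) * e3

include p hω in
/-- type (3,1) in a plane -/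
theorem P31_two (hd : finrank ℂ V = 2) {G : V → V → V → W → ℂ}
    (hG : ML4 G) (a1 : ∀ x y z w, G y x z w = - G x y z w)
    (a2 : ∀ x y z w, G x z y w = - G x y z w) (x y z : V) (w : W) : G x y z w = 0 := by
  obtain ⟨F⟩ := p.frame_dim2 hω hd
  have Fr := Adapted.of hω F
  have hz := sorted3 (fun i j k => G (Fr.b i) (Fr.b j) (Fr.b k) w)
    (fun i j k => a1 _ _ _ _) (fun i j k => a2 _ _ _ _) (fun i j k hij hjk => by
      exfalso
      have h : ∀ i j k : Fin 2, i < j → j < k → False := by decide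
      exact h i j k hij hjk)
  refine lin_ext Fr.b (hG.l1 y z w) (fun i => ?_) x
  refine lin_ext Fr.b (hG.l2 _ z w) (fun j => ?_) y
  exact lin_ext Fr.b (hG.l3 _ _ w) (fun k => hz i j k) z

end

end Pool.Agent.Helper8
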