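import Mathlib
import Pool.Agent.Helper8.Lie.Classify
import Pool.Agent.Helper8.Lie.Coord
import Pool.Agent.Helper8.Lie.NumRest

/-!
Invariant functions of four vectors in irreducible planes.
-/

open Module LieAlgebra LieModule

set_option linter.unusedVariables false
set_option linter.unusedSectionVars false
set_option linter.unusedSimpArgs false

namespace Pool.Agent.Helper8

section plane

variable {L : Type*} [LieRing L] [LieAlgebra ℂ L] {p : Principal L}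
  {V : Type*} [AddCommGroup V] [Module ℂ V] [LieRingModule L V] [LieModule ℂ L V]
  {ω : V →ₗ[ℂ] V →ₗ[ℂ] ℂ} (hω : Symp L ω)

include hω in
/-- the action on a plane in coordinates -/
lemma plane_act (Fr : Adapted p ω 2 up2 wt2 g2) (a : L) : ∃ x y z : ℂ,
    ⁅a, Fr.b 0⁆ = x • Fr.b 0 + z • Fr.b 1 ∧ ⁅a, Fr.b 1⁆ = y • Fr.b 0 + (-x) • Fr.b 1 := by
  have h0 := Fr.b.sum_repr ⁅a, Fr.b 0⁆
  have h1 := Fr.b.sum_repr ⁅a, Fr.b 1⁆
  rw [Fin.sum_univ_two] at h0 h1
  have e01 : g2 0 1 = 1 := by decide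
  have e11 : g2 1 1 = 0 := by decide
  have e00 : g2 0 0 = 0 := by decide
  have h2 := hω.inv a (Fr.b 0) (Fr.b 1)
  rw [← h0, ← h1] at h2
  simp only [map_add, map_smul, LinearMap.add_apply, LinearMap.smul_apply, Fr.g_b, e01, e11, e00,
    smul_eq_mul] at h2
  push_cast at h2
  refine ⟨Fr.b.repr ⁅a, Fr.b 0⁆ 0, Fr.b.repr ⁅a, Fr.b 1⁆ 0, Fr.b.repr ⁅a, Fr.b 0⁆ 1, h0.symm, ?_⟩
  have h3 : -(Fr.b.repr ⁅a, Fr.b 0⁆ 0) = Fr.b.repr ⁅a, Fr.b 1⁆ 1 := by linear_combination -h2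
  rw [h3]
  exact h1.symm

end plane

section pair

variable {L : Type*} [LieRing L] [LieAlgebra ℂ L] {p : Principal L}
  {V : Type*} [AddCommGroup V] [Module ℂ V] [LieRingModule L V]
  {ω : V →ₗ[ℂ] V →ₗ[ℂ] ℂ}
  {W : Type*} [AddCommGroup W] [Module ℂ W] [LieRingModule L W]
  {ω' : W →ₗ[ℂ] W →ₗ[ℂ] ℂ}

/-- the pairing of two planes given by adapted bases -/
noncomputable def pairing (F1 : Adapted p ω 2 up2 wt2 g2) (F2 : Adapted p ω' 2 up2 wt2 g2) :
    V →ₗ[ℂ] W →ₗ[ℂ] ℂ := ω' ∘ₗ (F1.b.constr ℂ (fun i => F2.b i))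

lemma pairing_b (F1 : Adapted p ω 2 up2 wt2 g2) (F2 : Adapted p ω' 2 up2 wt2 g2) (i j : Fin 2) :
    pairing F1 F2 (F1.b i) (F2.b j) = (g2 i j : ℂ) := by
  show ω' ((F1.b.constr ℂ (fun i => F2.b i)) (F1.b i)) (F2.b j) = _
  rw [Basis.constr_basis, F2.g_b]

/-- invariance of the pairing from coordinates -/
lemma pairing_inv (F1 : Adapted p ω 2 up2 wt2 g2) (F2 : Adapted p ω' 2 up2 wt2 g2)
    [LieModule ℂ L V] [LieModule ℂ L W]
    (x1 y1 z1 x2 y2 z2 : L → ℂ)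
    (h1 : ∀ a, ⁅a, F1.b 0⁆ = x1 a • F1.b 0 + z1 a • F1.b 1)
    (h1' : ∀ a, ⁅a, F1.b 1⁆ = y1 a • F1.b 0 + (-x1 a) • F1.b 1)
    (h2 : ∀ a, ⁅a, F2.b 0⁆ = x2 a • F2.b 0 + z2 a • F2.b 1)
    (h2' : ∀ a, ⁅a, F2.b 1⁆ = y2 a • F2.b 0 + (-x2 a) • F2.b 1)
    (hx : ∀ a, x1 a = x2 a) (hy : ∀ a, y1 a = y2 a) (hz : ∀ a, z1 a = z2 a) :
    Inv2 L (fun x y => pairing F1 F2 x y) := by
  intro a x y
  set β := pairing F1 F2 with hβ
  have e00 : β (F1.b 0) (F2.b 0) = 0 := by rw [hβ, pairing_b]; norm_num [g2]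
  have e01 : β (F1.b 0) (F2.b 1) = 1 := by rw [hβ, pairing_b]; norm_num [g2]
  have e10 : β (F1.b 1) (F2.b 0) = -1 := by rw [hβ, pairing_b]; norm_num [g2]
  have e11 : β (F1.b 1) (F2.b 1) = 0 := by rw [hβ, pairing_b]; norm_num [g2]
  refine lin_ext F1.b (g := fun x => β ⁅a, x⁆ y + β x ⁅a, y⁆) ?_ (fun i => ?_) x
  · refine ⟨fun u v => ?_, fun r u => ?_⟩
    · simp only [lie_add, map_add, LinearMap.add_apply]; ring
    · simp only [lie_smul, map_smul, LinearMap.smul_apply, smul_eq_mul]; ring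
  refine lin_ext F2.b (g := fun y => β ⁅a, F1.b i⁆ y + β (F1.b i) ⁅a, y⁆) ?_ (fun j => ?_) y
  · refine ⟨fun u v => ?_, fun r u => ?_⟩
    · simp only [lie_add, map_add]; ring
    · simp only [lie_smul, map_smul, smul_eq_mul]; ring
  show β ⁅a, F1.b i⁆ (F2.b j) + β (F1.b i) ⁅a, F2.b j⁆ = 0
  fin_cases i <;> fin_cases j
  · show β ⁅a, F1.b 0⁆ (F2.b 0) + β (F1.b 0) ⁅a, F2.b 0⁆ = 0
    rw [h1, h2]
    simp only [map_add, map_smul, LinearMap.add_apply, LinearMap.smul_apply, smul_eq_mul, e00, e01,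
      e10, e11]
    linear_combination -(hz a)
  · show β ⁅a, F1.b 0⁆ (F2.b 1) + β (F1.b 0) ⁅a, F2.b 1⁆ = 0
    rw [h1, h2']
    simp only [map_add, map_smul, LinearMap.add_apply, LinearMap.smul_apply, smul_eq_mul, e00, e01,
      e10, e11]
    linear_combination (hx a)
  · show β ⁅a, F1.b 1⁆ (F2.b 0) + β (F1.b 1) ⁅a, F2.b 0⁆ = 0
    rw [h1', h2]
    simp only [map_add, map_smul, LinearMap.add_apply, LinearMap.smul_apply, smul_eq_mul, e00, e01,
      e10, e11]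
    linear_combination (hx a)
  · show β ⁅a, F1.b 1⁆ (F2.b 1) + β (F1.b 1) ⁅a, F2.b 1⁆ = 0
    rw [h1', h2']
    simp only [map_add, map_smul, LinearMap.add_apply, LinearMap.smul_apply, smul_eq_mul, e00, e01,
      e10, e11]
    linear_combination (hy a)

end pair

/-- invariant functions of four vectors in four irreducible planes -/
theorem P1111 {L : Type*} [LieRing L] [LieAlgebra ℂ L] (p : Principal L)
    {V1 : Type*} [AddCommGroup V1] [Module ℂ V1] [LieRingModule L V1] [LieModule ℂ L V1]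
    [FiniteDimensional ℂ V1] [LieModule.IsIrreducible ℂ L V1]
    {V2 : Type*} [AddCommGroup V2] [Module ℂ V2] [LieRingModule L V2] [LieModule ℂ L V2]
    [FiniteDimensional ℂ V2] [LieModule.IsIrreducible ℂ L V2]
    {V3 : Type*} [AddCommGroup V3] [Module ℂ V3] [LieRingModule L V3] [LieModule ℂ L V3]
    [FiniteDimensional ℂ V3] [LieModule.IsIrreducible ℂ L V3]
    {V4 : Type*} [AddCommGroup V4] [Module ℂ V4] [LieRingModule L V4] [LieModule ℂ L V4]
    [FiniteDimensional ℂ V4] [LieModule.IsIrreducible ℂ L V4]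
    {ω1 : V1 →ₗ[ℂ] V1 →ₗ[ℂ] ℂ} (hω1 : Symp L ω1) {ω2 : V2 →ₗ[ℂ] V2 →ₗ[ℂ] ℂ} (hω2 : Symp L ω2)
    {ω3 : V3 →ₗ[ℂ] V3 →ₗ[ℂ] ℂ} (hω3 : Symp L ω3) {ω4 : V4 →ₗ[ℂ] V4 →ₗ[ℂ] ℂ} (hω4 : Symp L ω4)
    (hd1 : finrank ℂ V1 = 2) (hd2 : finrank ℂ V2 = 2) (hd3 : finrank ℂ V3 = 2)
    (hd4 : finrank ℂ V4 = 2) {G : V1 → V2 → V3 → V4 → ℂ} (hG : ML4 G) (hI : Inv4 L G) :
    ∃ (a b c : ℂ) (f12 : V1 → V2 → ℂ) (f34 : V3 → V4 → ℂ) (f13 : V1 → V3 → ℂ) (f24 : V2 → V4 → ℂ)
      (f14 : V1 → V4 → ℂ) (f23 : V2 → V3 → ℂ), ML2 f12 ∧ ML2 f34 ∧ ML2 f13 ∧ ML2 f24 ∧ ML2 f14 ∧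
      ML2 f23 ∧ (a ≠ 0 → Inv2 L f12 ∧ Inv2 L f34) ∧ (b ≠ 0 → Inv2 L f13 ∧ Inv2 L f24) ∧
      (c ≠ 0 → Inv2 L f14 ∧ Inv2 L f23) ∧
      ∀ x y z w, G x y z w = a * (f12 x y * f34 z w) + b * (f13 x z * f24 y w) +
        c * (f14 x w * f23 y z) := by
  obtain ⟨F1'⟩ := p.frame_dim2 hω1 hd1
  obtain ⟨F2'⟩ := p.frame_dim2 hω2 hd2
  obtain ⟨F3'⟩ := p.frame_dim2 hω3 hd3
  obtain ⟨F4'⟩ := p.frame_dim2 hω4 hd4
  have F1 := Adapted.of hω1 F1'
  have F2 := Adapted.of hω2 F2'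
  have F3 := Adapted.of hω3 F3'
  have F4 := Adapted.of hω4 F4'
  obtain ⟨r, s, hrs⟩ := num1111 (fun i j k l => G (F1.b i) (F2.b j) (F3.b k) (F4.b l))
    (fun i j k l => coord_h F1 F2 F3 F4 hG hI i j k l)
    (fun i j k l => coord_e F1 F2 F3 F4 hG hI i j k l)
  -- values
  have v : ∀ i j k l, G (F1.b i) (F2.b j) (F3.b k) (F4.b l) =
      r * ((g2 i j * g2 k l : ℤ) : ℂ) + s * ((g2 i k * g2 j l : ℤ) : ℂ) := hrs
  choose x1 y1 z1 hx1 hy1 using plane_act hω1 F1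
  choose x2 y2 z2 hx2 hy2 using plane_act hω2 F2
  choose x3 y3 z3 hx3 hy3 using plane_act hω3 F3
  choose x4 y4 z4 hx4 hy4 using plane_act hω4 F4
  have l1 : ∀ (p q : ℂ) (u v : V1) y z w, G (p • u + q • v) y z w = p * G u y z w + q * G v y z w :=
    fun p q u v y z w => by
      rw [(hG.l1 y z w).map_add, (hG.l1 y z w).map_smul, (hG.l1 y z w).map_smul]; rfl
  have l2 : ∀ (p q : ℂ) (u v : V2) x z w, G x (p • u + q • v) z w = p * G x u z w + q * G x v z w :=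
    fun p q u v x z w => by
      rw [(hG.l2 x z w).map_add, (hG.l2 x z w).map_smul, (hG.l2 x z w).map_smul]; rfl
  have l3 : ∀ (p q : ℂ) (u v : V3) x y w, G x y (p • u + q • v) w = p * G x y u w + q * G x y v w :=
    fun p q u v x y w => by
      rw [(hG.l3 x y w).map_add, (hG.l3 x y w).map_smul, (hG.l3 x y w).map_smul]; rfl
  have l4 : ∀ (p q : ℂ) (u v : V4) x y z, G x y z (p • u + q • v) = p * G x y z u + q * G x y z v :=
    fun p q u v x y z => by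
      rw [(hG.l4 x y z).map_add, (hG.l4 x y z).map_smul, (hG.l4 x y z).map_smul]; rfl
  have n00 : g2 0 0 = 0 := by decide
  have n01 : g2 0 1 = 1 := by decide
  have n10 : g2 1 0 = -1 := by decide
  have n11 : g2 1 1 = 0 := by decide
  -- the weight zero equations
  have A1 : ∀ a, r * (x1 a - x2 a + x3 a - x4 a) = 0 := fun a => by
    have h := hI a (F1.b 0) (F2.b 1) (F3.b 0) (F4.b 1)
    rw [hx1, hy2, hx3, hy4, l1, l2, l3, l4] at h
    simp only [v, n00, n01, n10, n11] at h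
    push_cast at h
    linear_combination h
  have A2 : ∀ a, s * (x1 a + x2 a - x3 a - x4 a) = 0 := fun a => by
    have h := hI a (F1.b 0) (F2.b 0) (F3.b 1) (F4.b 1)
    rw [hx1, hx2, hy3, hy4, l1, l2, l3, l4] at h
    simp only [v, n00, n01, n10, n11] at h
    push_cast at h
    linear_combination h
  have A3 : ∀ a, (r + s) * (x1 a - x2 a - x3 a + x4 a) = 0 := fun a => by
    have h := hI a (F1.b 0) (F2.b 1) (F3.b 1) (F4.b 0)
    rw [hx1, hy2, hy3, hx4, l1, l2, l3, l4] at h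
    simp only [v, n00, n01, n10, n11] at h
    push_cast at h
    linear_combination -h
  have B1 : ∀ a, -(r + s) * y1 a + r * y2 a + s * y3 a = 0 := fun a => by
    have h := hI a (F1.b 1) (F2.b 1) (F3.b 1) (F4.b 0)
    rw [hy1, hy2, hy3, hx4, l1, l2, l3, l4] at h
    simp only [v, n00, n01, n10, n11] at h
    push_cast at h
    linear_combination h
  have B2 : ∀ a, r * y1 a - (r + s) * y2 a + s * y4 a = 0 := fun a => by
    have h := hI a (F1.b 1) (F2.b 1) (F3.b 0) (F4.b 1)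
    rw [hy1, hy2, hx3, hy4, l1, l2, l3, l4] at h
    simp only [v, n00, n01, n10, n11] at h
    push_cast at h
    linear_combination h
  have B3 : ∀ a, s * y1 a - (r + s) * y3 a + r * y4 a = 0 := fun a => by
    have h := hI a (F1.b 1) (F2.b 0) (F3.b 1) (F4.b 1)
    rw [hy1, hx2, hy3, hy4, l1, l2, l3, l4] at h
    simp only [v, n00, n01, n10, n11] at h
    push_cast at h
    linear_combination h
  have B4 : ∀ a, s * y2 a + r * y3 a - (r + s) * y4 a = 0 := fun a => by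
    have h := hI a (F1.b 0) (F2.b 1) (F3.b 1) (F4.b 1)
    rw [hx1, hy2, hy3, hy4, l1, l2, l3, l4] at h
    simp only [v, n00, n01, n10, n11] at h
    push_cast at h
    linear_combination h
  have C1 : ∀ a, -(r + s) * z1 a + r * z2 a + s * z3 a = 0 := fun a => by
    have h := hI a (F1.b 0) (F2.b 0) (F3.b 0) (F4.b 1)
    rw [hx1, hx2, hx3, hy4, l1, l2, l3, l4] at h
    simp only [v, n00, n01, n10, n11] at h
    push_cast at h
    linear_combination h
  have C2 : ∀ a, r * z1 a - (r + s) * z2 a + s * z4 a = 0 := fun a => by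
    have h := hI a (F1.b 0) (F2.b 0) (F3.b 1) (F4.b 0)
    rw [hx1, hx2, hy3, hx4, l1, l2, l3, l4] at h
    simp only [v, n00, n01, n10, n11] at h
    push_cast at h
    linear_combination h
  have C3 : ∀ a, s * z1 a - (r + s) * z3 a + r * z4 a = 0 := fun a => by
    have h := hI a (F1.b 0) (F2.b 1) (F3.b 0) (F4.b 0)
    rw [hx1, hy2, hx3, hx4, l1, l2, l3, l4] at h
    simp only [v, n00, n01, n10, n11] at h
    push_cast at h
    linear_combination h
  have C4 : ∀ a, s * z2 a + r * z3 a - (r + s) * z4 a = 0 := fun a => by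
    have h := hI a (F1.b 1) (F2.b 0) (F3.b 0) (F4.b 0)
    rw [hy1, hx2, hx3, hx4, l1, l2, l3, l4] at h
    simp only [v, n00, n01, n10, n11] at h
    push_cast at h
    linear_combination h
  -- consequences
  have key12 : r * (r + s) ≠ 0 → (∀ a, x1 a = x2 a) ∧ (∀ a, y1 a = y2 a) ∧ (∀ a, z1 a = z2 a) ∧
      (∀ a, x3 a = x4 a) ∧ (∀ a, y3 a = y4 a) ∧ (∀ a, z3 a = z4 a) := by
    intro h
    have cx : ∀ t : ℂ, r * (r + s) * t = 0 → t = 0 := fun t ht => (mul_eq_zero.mp ht).resolve_left h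
    refine ⟨fun a => sub_eq_zero.mp (cx _ ?_), fun a => sub_eq_zero.mp (cx _ ?_),
      fun a => sub_eq_zero.mp (cx _ ?_), fun a => sub_eq_zero.mp (cx _ ?_),
      fun a => sub_eq_zero.mp (cx _ ?_), fun a => sub_eq_zero.mp (cx _ ?_)⟩
    · linear_combination (1/2) * (r + s) * A1 a + (1/2) * r * A3 a
    · linear_combination (1/4) * (-(2 * r + s)) * (B1 a - B2 a) - (1/4) * s * (B3 a - B4 a)
    · linear_combination (1/4) * (-(2 * r + s)) * (C1 a - C2 a) - (1/4) * s * (C3 a - C4 a)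
    · linear_combination (1/2) * (r + s) * A1 a - (1/2) * r * A3 a
    · linear_combination (1/4) * (-(2 * r + s)) * (B3 a - B4 a) - (1/4) * s * (B1 a - B2 a)
    · linear_combination (1/4) * (-(2 * r + s)) * (C3 a - C4 a) - (1/4) * s * (C1 a - C2 a)
  have key13 : s * (r + s) ≠ 0 → (∀ a, x1 a = x3 a) ∧ (∀ a, y1 a = y3 a) ∧ (∀ a, z1 a = z3 a) ∧
      (∀ a, x2 a = x4 a) ∧ (∀ a, y2 a = y4 a) ∧ (∀ a, z2 a = z4 a) := by
    intro h
    have cx : ∀ t : ℂ, s * (r + s) * t = 0 → t = 0 := fun t ht => (mul_eq_zero.mp ht).resolve_left h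
    refine ⟨fun a => sub_eq_zero.mp (cx _ ?_), fun a => sub_eq_zero.mp (cx _ ?_),
      fun a => sub_eq_zero.mp (cx _ ?_), fun a => sub_eq_zero.mp (cx _ ?_),
      fun a => sub_eq_zero.mp (cx _ ?_), fun a => sub_eq_zero.mp (cx _ ?_)⟩
    · linear_combination (1/2) * (r + s) * A2 a + (1/2) * s * A3 a
    · linear_combination (1/4) * (-(2 * s + r)) * (B1 a - B3 a) - (1/4) * r * (B2 a - B4 a)
    · linear_combination (1/4) * (-(2 * s + r)) * (C1 a - C3 a) - (1/4) * r * (C2 a - C4 a)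
    · linear_combination (1/2) * (r + s) * A2 a - (1/2) * s * A3 a
    · linear_combination (1/4) * (-(2 * s + r)) * (B2 a - B4 a) - (1/4) * r * (B1 a - B3 a)
    · linear_combination (1/4) * (-(2 * s + r)) * (C2 a - C4 a) - (1/4) * r * (C1 a - C3 a)
  have key14 : r * s ≠ 0 → (∀ a, x1 a = x4 a) ∧ (∀ a, y1 a = y4 a) ∧ (∀ a, z1 a = z4 a) ∧
      (∀ a, x2 a = x3 a) ∧ (∀ a, y2 a = y3 a) ∧ (∀ a, z2 a = z3 a) := by
    intro h
    have cx : ∀ t : ℂ, r * s * t = 0 → t = 0 := fun t ht => (mul_eq_zero.mp ht).resolve_left h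
    refine ⟨fun a => sub_eq_zero.mp (cx _ ?_), fun a => sub_eq_zero.mp (cx _ ?_),
      fun a => sub_eq_zero.mp (cx _ ?_), fun a => sub_eq_zero.mp (cx _ ?_),
      fun a => sub_eq_zero.mp (cx _ ?_), fun a => sub_eq_zero.mp (cx _ ?_)⟩
    · linear_combination (1/2) * s * A1 a + (1/2) * r * A2 a
    · linear_combination (1/4) * (s - r) * (B2 a - B3 a) - (1/4) * (r + s) * (B1 a - B4 a)
    · linear_combination (1/4) * (s - r) * (C2 a - C3 a) - (1/4) * (r + s) * (C1 a - C4 a)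
    · linear_combination (-1/2) * s * A1 a + (1/2) * r * A2 a
    · linear_combination (1/4) * (s - r) * (B1 a - B4 a) - (1/4) * (r + s) * (B2 a - B3 a)
    · linear_combination (1/4) * (s - r) * (C1 a - C4 a) - (1/4) * (r + s) * (C2 a - C3 a)
  have i12 : r * (r + s) ≠ 0 → Inv2 L (fun x y => pairing F1 F2 x y) ∧
      Inv2 L (fun x y => pairing F3 F4 x y) := fun h =>
    ⟨pairing_inv F1 F2 x1 y1 z1 x2 y2 z2 hx1 hy1 hx2 hy2 (key12 h).1 (key12 h).2.1 (key12 h).2.2.1,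
      pairing_inv F3 F4 x3 y3 z3 x4 y4 z4 hx3 hy3 hx4 hy4 (key12 h).2.2.2.1 (key12 h).2.2.2.2.1
        (key12 h).2.2.2.2.2⟩
  have i13 : s * (r + s) ≠ 0 → Inv2 L (fun x y => pairing F1 F3 x y) ∧
      Inv2 L (fun x y => pairing F2 F4 x y) := fun h =>
    ⟨pairing_inv F1 F3 x1 y1 z1 x3 y3 z3 hx1 hy1 hx3 hy3 (key13 h).1 (key13 h).2.1 (key13 h).2.2.1,
      pairing_inv F2 F4 x2 y2 z2 x4 y4 z4 hx2 hy2 hx4 hy4 (key13 h).2.2.2.1 (key13 h).2.2.2.2.1
        (key13 h).2.2.2.2.2⟩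
  have i14 : r * s ≠ 0 → Inv2 L (fun x y => pairing F1 F4 x y) ∧
      Inv2 L (fun x y => pairing F2 F3 x y) := fun h =>
    ⟨pairing_inv F1 F4 x1 y1 z1 x4 y4 z4 hx1 hy1 hx4 hy4 (key14 h).1 (key14 h).2.1 (key14 h).2.2.1,
      pairing_inv F2 F3 x2 y2 z2 x3 y3 z3 hx2 hy2 hx3 hy3 (key14 h).2.2.2.1 (key14 h).2.2.2.2.1
        (key14 h).2.2.2.2.2⟩
  -- the formula in coordinates
  have hform : ∀ a b c : ℂ, (∀ i j k l : Fin 2, r * ((g2 i j * g2 k l : ℤ) : ℂ) +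
      s * ((g2 i k * g2 j l : ℤ) : ℂ) = a * ((g2 i j * g2 k l : ℤ) : ℂ) +
      b * ((g2 i k * g2 j l : ℤ) : ℂ) + c * ((g2 i l * g2 j k : ℤ) : ℂ)) →
      ∀ x y z w, G x y z w = a * (pairing F1 F2 x y * pairing F3 F4 z w) +
        b * (pairing F1 F3 x z * pairing F2 F4 y w) +
        c * (pairing F1 F4 x w * pairing F2 F3 y z) := by
    intro a b c h x y z w
    rw [← sub_eq_zero]
    have hml : ML4 (fun x y z w => G x y z w - (a * (pairing F1 F2 x y * pairing F3 F4 z w) +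
        b * (pairing F1 F3 x z * pairing F2 F4 y w) +
        c * (pairing F1 F4 x w * pairing F2 F3 y z))) :=
      hG.sub ((((ML4.prod1 (ML2.of _) (ML2.of _)).const_mul a).add
        ((ML4.prod2 (ML2.of _) (ML2.of _)).const_mul b)).add
        ((ML4.prod3 (ML2.of _) (ML2.of _)).const_mul c))
    refine hml.ext F1.b F2.b F3.b F4.b ?_ x y z w
    intro i j k l
    rw [v, pairing_b, pairing_b, pairing_b, pairing_b, pairing_b, pairing_b, h i j k l]
    push_cast; ring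
  by_cases hrs : r + s = 0
  · refine ⟨0, 0, -r, _, _, _, _, _, _, ML2.of (pairing F1 F2), ML2.of (pairing F3 F4),
      ML2.of (pairing F1 F3), ML2.of (pairing F2 F4), ML2.of (pairing F1 F4),
      ML2.of (pairing F2 F3), fun h => absurd rfl h, fun h => absurd rfl h, fun h => i14 ?_,
      hform 0 0 (-r) ?_⟩
    · have hs : s = -r := by linear_combination hrs
      rw [hs]
      exact mul_ne_zero (neg_ne_zero.mp h) h
    · intro i j k l
      have hs : s = -r := by linear_combination hrs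
      have hsq : ∀ i j k l : Fin 2, g2 i j * g2 k l - g2 i k * g2 j l + g2 i l * g2 j k = 0 := by
        decide
      have h1 := congrArg (fun z : ℤ => (z : ℂ)) (hsq i j k l)
      push_cast at h1 ⊢
      rw [hs]
      linear_combination r * h1
  · refine ⟨r, s, 0, _, _, _, _, _, _, ML2.of (pairing F1 F2), ML2.of (pairing F3 F4),
      ML2.of (pairing F1 F3), ML2.of (pairing F2 F4), ML2.of (pairing F1 F4),
      ML2.of (pairing F2 F3), fun h => i12 (mul_ne_zero h hrs), fun h => i13 (mul_ne_zero h hrs),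
      fun h => absurd rfl h, hform r s 0 ?_⟩
    intro i j k l
    ring

end Pool.Agent.Helper8
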