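import Pool.Agent.Helper8.Lie.FrameDefs
import Pool.Agent.Helper8.Lie.Frames8

/-!
Adapted bases of the symplectic representations of `sl_2` with odd weights and simple top weight,
in dimensions `2, 4, 6, 8` (part a).
-/

open Module

namespace Pool.Agent.Helper8

namespace SpSl2

variable {V : Type*} [AddCommGroup V] [Module ℂ V] (S : SpSl2 V)

section

variable {S} {x : V}

lemma frame2 (T : S.Top x 1) (hd : finrank ℂ V = 2) : Nonempty (S.Frame 2 up2 wt2 g2) := by
  refine ⟨S.mkFrame ![(S.f ^ 0) x, (S.f ^ 1) x] ?_ ?_ ?_ ![1, 0] (by decide) (by decide) hd⟩
  · intro j
    fin_cases j
    · simpa [up2] using T.e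
    · simpa [up2] using T.e_pow 0
  · intro j
    fin_cases j
    · simpa [wt2] using T.h_pow 0
    · have h := T.h_pow 1
      norm_num at h
      simpa [wt2] using h
  · intro i j
    have h := T.om
    fin_cases i <;> fin_cases j
    · simpa [g2] using h 0 0
    · simpa [g2] using h 0 1
    · simpa [g2] using h 1 0
    · simpa [g2] using h 1 1

lemma frame4  (T0 : S.Top x 3) 
    (hd : finrank ℂ V = 4) : Nonempty (S.Frame 4 up4 wt4 g4) := by
  refine ⟨S.mkFrame ![(S.f ^ 0) x, (S.f ^ 1) x, (S.f ^ 2) x, (S.f ^ 3) x]
    ?_ ?_ ?_ ![3, 2, 1, 0] (by decide) (by decide) hd⟩
  · intro j
    fin_cases j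
    · have h := T0.e0
      simp only [pow_zero, Module.End.one_apply] at h
      simp [up4, h]
    · have h := T0.e_pow 0
      norm_num at h
      simpa [up4] using h
    · have h := T0.e_pow 1
      norm_num at h
      simpa [up4] using h
    · have h := T0.e_pow 2
      norm_num at h
      simpa [up4] using h
  · intro j
    fin_cases j
    · have h := T0.h_pow 0
      norm_num at h
      simpa [wt4] using h
    · have h := T0.h_pow 1
      norm_num at h
      simpa [wt4] using h
    · have h := T0.h_pow 2
      norm_num at h
      simpa [wt4] using h
    · have h := T0.h_pow 3
      norm_num at h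
      simpa [wt4] using h
  · intro i j
    fin_cases i <;> fin_cases j
    · have h := T0.om 0 0
      norm_num at h
      simpa [g4] using h
    · have h := T0.om 0 1
      norm_num at h
      simpa [g4] using h
    · have h := T0.om 0 2
      norm_num at h
      simpa [g4] using h
    · have h := T0.om 0 3
      norm_num at h
      simpa [g4] using h
    · have h := T0.om 1 0
      norm_num at h
      simpa [g4] using h
    · have h := T0.om 1 1
      norm_num at h
      simpa [g4] using h
    · have h := T0.om 1 2
      norm_num at h
      simpa [g4] using h
    · have h := T0.om 1 3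
      norm_num at h
      simpa [g4] using h
    · have h := T0.om 2 0
      norm_num at h
      simpa [g4] using h
    · have h := T0.om 2 1
      norm_num at h
      simpa [g4] using h
    · have h := T0.om 2 2
      norm_num at h
      simpa [g4] using h
    · have h := T0.om 2 3
      norm_num at h
      simpa [g4] using h
    · have h := T0.om 3 0
      norm_num at h
      simpa [g4] using h
    · have h := T0.om 3 1
      norm_num at h
      simpa [g4] using h
    · have h := T0.om 3 2
      norm_num at h
      simpa [g4] using h
    · have h := T0.om 3 3
      norm_num at h
      simpa [g4] using h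

lemma frame6a  (T0 : S.Top x 5) 
    (hd : finrank ℂ V = 6) : Nonempty (S.Frame 6 up6a wt6a g6a) := by
  refine ⟨S.mkFrame ![(S.f ^ 0) x, (S.f ^ 1) x, (S.f ^ 2) x, (S.f ^ 3) x, (S.f ^ 4) x, (S.f ^ 5) x]
    ?_ ?_ ?_ ![5, 4, 3, 2, 1, 0] (by decide) (by decide) hd⟩
  · intro j
    fin_cases j
    · have h := T0.e0
      simp only [pow_zero, Module.End.one_apply] at h
      simp [up6a, h]
    · have h := T0.e_pow 0
      norm_num at h
      simpa [up6a] using h
    · have h := T0.e_pow 1
      norm_num at h
      simpa [up6a] using h
    · have h := T0.e_pow 2
      norm_num at h
      simpa [up6a] using h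
    · have h := T0.e_pow 3
      norm_num at h
      simpa [up6a] using h
    · have h := T0.e_pow 4
      norm_num at h
      simpa [up6a] using h
  · intro j
    fin_cases j
    · have h := T0.h_pow 0
      norm_num at h
      simpa [wt6a] using h
    · have h := T0.h_pow 1
      norm_num at h
      simpa [wt6a] using h
    · have h := T0.h_pow 2
      norm_num at h
      simpa [wt6a] using h
    · have h := T0.h_pow 3
      norm_num at h
      simpa [wt6a] using h
    · have h := T0.h_pow 4
      norm_num at h
      simpa [wt6a] using h
    · have h := T0.h_pow 5
      norm_num at h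
      simpa [wt6a] using h
  · intro i j
    fin_cases i <;> fin_cases j
    · have h := T0.om 0 0
      norm_num at h
      simpa [g6a] using h
    · have h := T0.om 0 1
      norm_num at h
      simpa [g6a] using h
    · have h := T0.om 0 2
      norm_num at h
      simpa [g6a] using h
    · have h := T0.om 0 3
      norm_num at h
      simpa [g6a] using h
    · have h := T0.om 0 4
      norm_num at h
      simpa [g6a] using h
    · have h := T0.om 0 5
      norm_num at h
      simpa [g6a] using h
    · have h := T0.om 1 0
      norm_num at h
      simpa [g6a] using h
    · have h := T0.om 1 1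
      norm_num at h
      simpa [g6a] using h
    · have h := T0.om 1 2
      norm_num at h
      simpa [g6a] using h
    · have h := T0.om 1 3
      norm_num at h
      simpa [g6a] using h
    · have h := T0.om 1 4
      norm_num at h
      simpa [g6a] using h
    · have h := T0.om 1 5
      norm_num at h
      simpa [g6a] using h
    · have h := T0.om 2 0
      norm_num at h
      simpa [g6a] using h
    · have h := T0.om 2 1
      norm_num at h
      simpa [g6a] using h
    · have h := T0.om 2 2
      norm_num at h
      simpa [g6a] using h
    · have h := T0.om 2 3
      norm_num at h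
      simpa [g6a] using h
    · have h := T0.om 2 4
      norm_num at h
      simpa [g6a] using h
    · have h := T0.om 2 5
      norm_num at h
      simpa [g6a] using h
    · have h := T0.om 3 0
      norm_num at h
      simpa [g6a] using h
    · have h := T0.om 3 1
      norm_num at h
      simpa [g6a] using h
    · have h := T0.om 3 2
      norm_num at h
      simpa [g6a] using h
    · have h := T0.om 3 3
      norm_num at h
      simpa [g6a] using h
    · have h := T0.om 3 4
      norm_num at h
      simpa [g6a] using h
    · have h := T0.om 3 5
      norm_num at h
      simpa [g6a] using h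
    · have h := T0.om 4 0
      norm_num at h
      simpa [g6a] using h
    · have h := T0.om 4 1
      norm_num at h
      simpa [g6a] using h
    · have h := T0.om 4 2
      norm_num at h
      simpa [g6a] using h
    · have h := T0.om 4 3
      norm_num at h
      simpa [g6a] using h
    · have h := T0.om 4 4
      norm_num at h
      simpa [g6a] using h
    · have h := T0.om 4 5
      norm_num at h
      simpa [g6a] using h
    · have h := T0.om 5 0
      norm_num at h
      simpa [g6a] using h
    · have h := T0.om 5 1
      norm_num at h
      simpa [g6a] using h
    · have h := T0.om 5 2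
      norm_num at h
      simpa [g6a] using h
    · have h := T0.om 5 3
      norm_num at h
      simpa [g6a] using h
    · have h := T0.om 5 4
      norm_num at h
      simpa [g6a] using h
    · have h := T0.om 5 5
      norm_num at h
      simpa [g6a] using h

end

end SpSl2

end Pool.Agent.Helper8
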